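import Pool.Agent.P.MP_d28077_an.Defs

set_option autoImplicit false

namespace Pool.Agent.P.MP_d28077_an

open Finset

section
variable {I E : Type} [NormedAddCommGroup E] [NormedSpace ℝ E] {x : I → E}

lemma goodSet_empty {K : ℝ} (hK : 0 ≤ K) : GoodSet (fun y : E => ‖y‖) K x ∅ := by
  intro u a
  simp only [Set.mem_empty_iff_false, Finset.filter_false, Finset.sum_empty, norm_zero]
  positivity

lemma GoodSet.union {K : ℝ} (hK : 0 ≤ K) {p q : Set I} (hp : GoodSet (fun y : E => ‖y‖) K x p)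
    (hq : GoodSet (fun y : E => ‖y‖) K x q) :
    GoodSet (fun y : E => ‖y‖) (2 * K + K * K) x (p ∪ q) := by
  classical
  intro u a
  have h1 := hp u a
  have h2 := hq u a
  have h3 := hq (u.filter (fun i => i ∈ p)) a
  have e : ∑ i ∈ u with i ∈ p ∪ q, a i • x i = ∑ i ∈ u with i ∈ p, a i • x i +
      ∑ i ∈ u with i ∈ q, a i • x i - ∑ i ∈ u.filter (fun i => i ∈ p) with i ∈ q, a i • x i := by
    simp only [Finset.filter_filter, Finset.sum_filter, ← Finset.sum_add_distrib,
      ← Finset.sum_sub_distrib]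
    refine Finset.sum_congr rfl (fun i _ => ?_)
    by_cases hp : i ∈ p <;> by_cases hq : i ∈ q <;> simp [hp, hq]
  simp only at h1 h2 h3 ⊢
  have h4 := mul_le_mul_of_nonneg_left h1 hK
  have h5 := norm_sub_le (∑ i ∈ u with i ∈ p, a i • x i + ∑ i ∈ u with i ∈ q, a i • x i)
    (∑ i ∈ u.filter (fun i => i ∈ p) with i ∈ q, a i • x i)
  have h6 := norm_add_le (∑ i ∈ u with i ∈ p, a i • x i) (∑ i ∈ u with i ∈ q, a i • x i)
  convert (show ‖∑ i ∈ u with i ∈ p ∪ q, a i • x i‖ ≤ (2 * K + K * K) * ‖∑ i ∈ u, a i • x i‖ by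
    rw [e]; linarith)

theorem er_final {K : ℝ} (hK : 0 ≤ K) (h : ERK (fun y : E => ‖y‖) K x) (f : ℕ → I)
    (hf : Function.Injective f) :
    ∃ π : Equiv.Perm ℕ, ∃ K' : ℝ, ∀ (a : ℕ → ℝ) (m n : ℕ), m ≤ n →
      ‖∑ k ∈ range m, a k • x (f (π k))‖ ≤ K' * ‖∑ k ∈ range n, a k • x (f (π k))‖ := by
  classical
  choose T ρ hT hρ hgood using h
  -- `s n` is the set used before stage `n`
  let s : ℕ → Finset I := fun n => Nat.rec ∅ (fun n sn => T (insert (f n) sn)) n
  have hs : ∀ n, s (n + 1) = T (insert (f n) (s n)) := fun n => rfl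
  have hmono : Monotone s := monotone_nat_of_le_succ (fun n => by
    rw [hs]; exact (Finset.subset_insert _ _).trans (hT _))
  have hex : ∀ k, ∃ n, f k ∈ s (n + 1) := fun k =>
    ⟨k, by rw [hs]; exact hT _ (Finset.mem_insert_self _ _)⟩
  let st : ℕ → ℕ := fun k => Nat.find (hex k)
  have hst1 : ∀ k, f k ∈ s (st k + 1) := fun k => Nat.find_spec (hex k)
  have hst2 : ∀ k n, f k ∈ s n → st k < n := by
    intro k n hn
    cases n with
    | zero => simp [s] at hn
    | succ n => exact Nat.lt_succ_of_le (Nat.find_min' (hex k) hn)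
  let r : ℕ → I → ℕ := fun n => ρ (insert (f n) (s n))
  let o : ℕ → ℕ := fun n => Nat.rec 0 (fun n on => on + (s (n + 1)).sup (r n) + 1) n
  have ho : ∀ n, o (n + 1) = o n + (s (n + 1)).sup (r n) + 1 := fun n => rfl
  have homono : StrictMono o := strictMono_nat_of_lt_succ (fun n => by rw [ho]; omega)
  let key : ℕ → ℕ := fun k => o (st k) + r (st k) (f k)
  have hkey : ∀ k, key k < o (st k + 1) := by
    intro k
    have := Finset.le_sup (f := r (st k)) (hst1 k)
    rw [ho]; simp only [key]; omega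
  have hlt : ∀ k k', st k < st k' → key k < key k' := by
    intro k k' hh
    have h1 := hkey k
    have h2 := homono.monotone (Nat.add_one_le_iff.2 hh)
    simp only [key] at *
    omega
  have hinj : Function.Injective key := by
    intro k k' he
    rcases lt_trichotomy (st k) (st k') with hh | hh | hh
    · exact absurd he (hlt _ _ hh).ne
    · apply hf
      have h1 := hst1 k
      have h2 := hst1 k'
      simp only [key] at he
      rw [← hh] at he h2
      exact hρ _ (Finset.mem_coe.2 h1) (Finset.mem_coe.2 h2) (by simpa [r] using he)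
    · exact absurd he (hlt _ _ hh).ne'
  have : Infinite (Set.range key) := (Set.infinite_range_of_injective hinj).to_subtype
  let e := Nat.Subtype.orderIsoOfNat (Set.range key)
  let π : Equiv.Perm ℕ := e.toEquiv.trans (Equiv.ofInjective key hinj).symm
  have hπ : ∀ k, key (π k) = e k := fun k => Equiv.apply_ofInjective_symm hinj (e k)
  refine ⟨π, 2 * K + K * K, fun a m n hmn => ?_⟩
  obtain ⟨M, hM⟩ : ∃ M : ℕ, M = (e m : ℕ) := ⟨_, rfl⟩
  have hex2 : ∃ j, M < o (j + 1) := ⟨M, Nat.lt_of_lt_of_le (Nat.lt_succ_self M) (homono.id_le _)⟩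
  set j := Nat.find hex2 with hj
  have hj1 : M < o (j + 1) := Nat.find_spec hex2
  have hj2 : o j ≤ M := by
    rcases Nat.eq_zero_or_eq_succ_pred j with h0 | h0
    · rw [h0]; exact Nat.zero_le _
    · have := Nat.find_min hex2 (m := j.pred) (by rw [← hj]; omega)
      rw [h0]; exact not_lt.1 this
  have g1 : GoodSet (fun y : E => ‖y‖) K x {i | i ∈ s j} := by
    rcases Nat.eq_zero_or_eq_succ_pred j with h0 | h0
    · rw [h0]; simpa [s] using goodSet_empty hK
    · rw [h0, hs]
      simpa using hgood (insert (f j.pred) (s j.pred)) Set.univ isLowerSet_univ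
  have g2 := hgood (insert (f j) (s j)) (Set.Iio (M - o j)) (isLowerSet_Iio _)
  have g3 := (g1.union hK g2) ((range n).map ⟨fun k => f (π k), hf.comp π.injective⟩)
    (fun i => a (π.symm (Function.invFun f i)))
  simp only [Finset.sum_filter, Finset.sum_map, Function.Embedding.coeFn_mk,
    Function.leftInverse_invFun hf _, Equiv.symm_apply_apply] at g3
  rw [← Finset.sum_filter] at g3
  convert g3 using 3
  ext k
  simp only [Finset.mem_range, Finset.mem_filter, Set.mem_union, Set.mem_ofPred_eq,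
    Set.mem_Iio]
  have hk : k < m ↔ key (π k) < M := by
    rw [hπ, hM, Subtype.coe_lt_coe, e.lt_iff_lt]
  rw [← hs]
  constructor
  · intro hkm
    refine ⟨by omega, ?_⟩
    have h1 := hk.1 hkm
    rcases lt_trichotomy (st (π k)) j with hh | hh | hh
    · exact Or.inl (hmono (Nat.succ_le_of_lt hh) (hst1 _))
    · right
      refine ⟨hh ▸ hst1 _, ?_⟩
      simp only [key, hh] at h1
      change r j (f (π k)) < _
      omega
    · exfalso
      have h2 := homono.monotone (Nat.add_one_le_iff.2 hh)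
      simp only [key] at h1
      omega
  · rintro ⟨-, h1⟩
    rw [hk]
    by_cases hh : st (π k) < j
    · have h2 := hkey (π k)
      have h3 := homono.monotone (Nat.add_one_le_iff.2 hh)
      omega
    · rcases h1 with h1 | ⟨h1, h2⟩
      · exact absurd (hst2 _ _ h1) hh
      · have h3 := hst2 (π k) (j + 1) h1
        have h4 : st (π k) = j := by omega
        simp only [key, h4]
        change r j (f (π k)) < _ at h2
        omega

end

theorem erk_sum {Γ V E : Type} {I : Γ → Type} [AddCommGroup V] [Module ℝ V]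
    [NormedAddCommGroup E] [NormedSpace ℝ E] (N : V → ℝ) (x : ∀ γ, I γ → V)
    (Φ : Γ → V →ₗ[ℝ] E) {K C : ℝ} (hK : 0 ≤ K)
    (hup : ∀ γ, ∀ v ∈ Submodule.span ℝ (Set.range (x γ)), ‖Φ γ v‖ ≤ N v)
    (hlow : ∀ (G : Finset Γ) (v : Γ → V), (∀ γ ∈ G, v γ ∈ Submodule.span ℝ (Set.range (x γ))) →
      ∑ γ ∈ G, N (v γ) ≤ C * ‖∑ γ ∈ G, Φ γ (v γ)‖)
    (h : ∀ γ, ERK N K (x γ)) :
    ERK (fun y : E => ‖y‖) (K * C) (fun p : (Σ γ, I γ) => Φ p.1 (x p.1 p.2)) := by
  classical
  intro s
  choose T ρ hT hρ hgood using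
    fun γ => h γ (s.preimage (Sigma.mk γ) sigma_mk_injective.injOn)
  set G := s.image Sigma.fst with hG
  obtain ⟨r, hr⟩ := Set.countable_iff_exists_injOn.1 G.countable_toSet
  refine ⟨G.sigma T, fun p => Nat.pair (r p.1) (ρ p.1 p.2), ?_, ?_, ?_⟩
  · intro p hp
    exact Finset.mem_sigma.2 ⟨Finset.mem_image_of_mem _ hp, hT _ (Finset.mem_preimage.2 hp)⟩
  · rintro ⟨γ, i⟩ hp ⟨γ', i'⟩ hp' he
    have h1 := Finset.mem_sigma.1 (Finset.mem_coe.1 hp)
    have h2 := Finset.mem_sigma.1 (Finset.mem_coe.1 hp')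
    obtain ⟨h3, h4⟩ := Nat.pair_eq_pair.1 he
    have h5 : γ = γ' := hr h1.1 h2.1 h3
    subst h5
    have h6 : i = i' := hρ γ h1.2 h2.2 h4
    rw [h6]
  · intro D hD u a
    set G' := u.image Sigma.fst with hG'
    set U : ∀ γ, Finset (I γ) := fun γ => u.preimage (Sigma.mk γ) sigma_mk_injective.injOn with hU
    have hu : u = G'.sigma U := by
      ext ⟨γ, i⟩
      simp only [Finset.mem_sigma, hG', hU, Finset.mem_preimage]
      exact ⟨fun h => ⟨Finset.mem_image_of_mem _ h, h⟩, fun h => h.2⟩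
    have hsp : ∀ γ (w : Finset (I γ)), ∑ i ∈ w, a ⟨γ, i⟩ • x γ i ∈
        Submodule.span ℝ (Set.range (x γ)) := fun γ w =>
      Submodule.sum_mem _ (fun i _ => Submodule.smul_mem _ _ (Submodule.subset_span ⟨i, rfl⟩))
    have h1 := hlow G' (fun γ => ∑ i ∈ U γ, a ⟨γ, i⟩ • x γ i) (fun γ _ => hsp γ _)
    have e1 : ∑ p ∈ u, a p • Φ p.1 (x p.1 p.2) =
        ∑ γ ∈ G', Φ γ (∑ i ∈ U γ, a ⟨γ, i⟩ • x γ i) := by
      conv_lhs => rw [hu, Finset.sum_sigma]
      simp only [map_sum, map_smul]
    simp only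
    rw [e1, mul_assoc]
    refine le_trans ?_ (mul_le_mul_of_nonneg_left h1 hK)
    rw [Finset.sum_filter, Finset.mul_sum]
    conv_lhs => rw [hu, Finset.sum_sigma]
    refine (norm_sum_le _ _).trans (Finset.sum_le_sum (fun γ _ => ?_))
    by_cases hγ : γ ∈ G
    · have h2 := hgood γ {j | Nat.pair (r γ) j ∈ D} (by
        intro j j' hjj hj
        refine hD ?_ hj
        rcases hjj.lt_or_eq with hh | hh
        · exact (Nat.pair_lt_pair_right _ hh).le
        · rw [hh]) (U γ) (fun i => a ⟨γ, i⟩)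
      refine le_trans ?_ h2
      refine le_trans (le_of_eq ?_) (hup γ _ (hsp γ _))
      congr 1
      rw [Finset.sum_filter, map_sum]
      refine Finset.sum_congr rfl (fun i _ => ?_)
      simp only [Set.mem_ofPred_eq, Finset.mem_sigma, hγ, true_and]
      split_ifs <;> simp
    · simp only [Set.mem_ofPred_eq, Finset.mem_sigma, hγ, false_and, if_false,
        Finset.sum_const_zero, norm_zero]
      exact mul_nonneg hK ((norm_nonneg _).trans (hup γ _ (hsp γ _)))

end Pool.Agent.P.MP_d28077_an
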