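import Pool.Agent.P.MP_d28077_an.Defs

set_option autoImplicit false

namespace Pool.Agent.P.MP_d28077_an

open Finset

/-- cumulative pool sizes -/
def cum : ℕ → ℕ
  | 0 => 0
  | m + 1 => cum m + (m + 2 ^ m * cum m + 2) ^ 3

def psz (m : ℕ) : ℕ := (m + 2 ^ m * cum m + 2) ^ 3

lemma cum_mono : Monotone cum := monotone_nat_of_le_succ (fun m => by simp [cum])

lemma psz_le {j m : ℕ} (h : j < m) : psz j ≤ cum m :=
  le_trans (by simp [psz, cum]) (cum_mono (Nat.succ_le_of_lt h))

theorem exists_bits (κ : Type) [DecidableEq κ] [Infinite κ] :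
    ∃ (V : Type) (gr : V → Finset κ) (lev : V → ℕ),
      (∀ H : Finset κ, {v | gr v ⊆ H}.Finite) ∧ (∀ b, lev b ≠ 0 → (gr b).card = lev b) ∧
      (∀ T : Finset κ, T.Nonempty → ({v | gr v ⊆ T ∧ lev v < T.card}.ncard + 2) ^ 3 ≤
        {b | lev b = T.card ∧ gr b = T}.ncard) ∧
      ∀ s : Set V, {v | lev v = 0} ⊆ s → Nonempty (κ ≃ s) := by
  classical
  let V := κ ⊕ {p : Finset κ × ℕ // p.2 < psz p.1.card}
  let gr : V → Finset κ := Sum.elim (fun a => {a}) (fun p => p.1.1)
  let lev : V → ℕ := Sum.elim (fun _ => 0) (fun p => p.1.1.card)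
  let φ : V → κ ⊕ (Finset κ × ℕ) := Sum.map id Subtype.val
  have hφ : Function.Injective φ := Sum.map_injective.2 ⟨Function.injective_id, Subtype.val_injective⟩
  have hmap : ∀ (T : Finset κ) (m : ℕ) (v : V), gr v ⊆ T → lev v < m →
      φ v ∈ T.disjSum (T.powerset ×ˢ range (cum m)) := by
    rintro T m (a | ⟨⟨S, i⟩, hi⟩) h1 h2
    · simpa [φ, gr] using h1
    · simp only [φ, Sum.map_inr, Finset.inr_mem_disjSum, Finset.mem_product, Finset.mem_powerset,
        Finset.mem_range]
      exact ⟨h1, hi.trans_le (psz_le h2)⟩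
  have hlevle : ∀ v, lev v ≤ (gr v).card := by
    rintro (a | p)
    · exact Nat.zero_le _
    · exact le_rfl
  have hfin : ∀ H : Finset κ, {v | gr v ⊆ H}.Finite := by
    intro H
    refine Set.Finite.of_finite_image
      ((H.disjSum (H.powerset ×ˢ range (cum (H.card + 1)))).finite_toSet.subset ?_) hφ.injOn
    rintro _ ⟨v, hv, rfl⟩
    exact hmap H _ v hv (Nat.lt_succ_of_le ((hlevle v).trans (Finset.card_le_card hv)))
  refine ⟨V, gr, lev, hfin, ?_, ?_, ?_⟩
  · rintro (a | p) h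
    · exact absurd rfl h
    · rfl
  · intro T _
    have h1 : {v | gr v ⊆ T ∧ lev v < T.card}.ncard ≤ T.card + 2 ^ T.card * cum T.card := by
      have := Set.ncard_le_ncard_of_injOn (s := {v | gr v ⊆ T ∧ lev v < T.card})
        (t := (T.disjSum (T.powerset ×ˢ range (cum T.card)) : Finset _)) φ
        (fun v hv => hmap T _ v hv.1 hv.2) hφ.injOn
      rwa [Set.ncard_coe_finset, Finset.card_disjSum, Finset.card_product, Finset.card_powerset,
        Finset.card_range] at this
    have h2 : psz T.card ≤ {b | lev b = T.card ∧ gr b = T}.ncard := by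
      have := Set.ncard_le_ncard_of_injOn (s := (Set.univ : Set (Fin (psz T.card))))
        (t := {b | lev b = T.card ∧ gr b = T}) (fun i => (Sum.inr ⟨(T, i.1), i.2⟩ : V))
        (fun i _ => ⟨rfl, rfl⟩) (fun i _ j _ he => by
          have h3 := congrArg (fun p => p.1.2) (Sum.inr_injective he)
          exact Fin.ext h3) ((hfin T).subset (fun v hv => hv.2.le))
      simpa using this
    refine le_trans ?_ h2
    unfold psz
    gcongr
  · intro s hs
    apply Cardinal.eq.1
    apply le_antisymm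
    · exact Cardinal.mk_le_of_injective (f := fun a => (⟨Sum.inl a, hs rfl⟩ : s))
        (fun a b h => Sum.inl_injective (congrArg Subtype.val h))
    · refine (Cardinal.mk_le_of_injective (f := fun v : s => φ v)
        (hφ.comp Subtype.val_injective)).trans (le_of_eq ?_)
      simp [Cardinal.mk_finset_of_infinite]

/-- the index maps used to regroup the copies -/
theorem exists_maps {κ V : Type} [Infinite κ] {lev : V → ℕ}
    (h : ∀ s : Set V, {v | lev v = 0} ⊆ s → Nonempty (κ ≃ s)) (m : ℕ) :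
    ∃ (θ η : V → κ) (ζ : κ → V) (ξ : V → V), Set.InjOn θ {v | lev v ≤ m + 1} ∧
      (∀ a, θ (ζ a) = a ∧ lev (ζ a) ≤ m + 1) ∧ Set.InjOn η {v | lev v ≤ 0} ∧
      (∀ v, lev v ≤ 0 → η v ∈ θ '' {v | lev v < m + 1}) ∧
      ∀ v, lev v < m + 1 → lev (ξ v) ≤ 0 ∧ η (ξ v) = θ v := by
  classical
  obtain ⟨e1⟩ := h {v | lev v ≤ m + 1} (fun v hv => by simp only [Set.mem_ofPred_eq] at *; omega)
  obtain ⟨e2⟩ := h {v | lev v < m + 1} (fun v hv => by simp only [Set.mem_ofPred_eq] at *; omega)
  obtain ⟨e3⟩ := h {v | lev v ≤ 0} (fun v hv => by simp only [Set.mem_ofPred_eq] at *; omega)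
  obtain ⟨a0⟩ : Nonempty κ := inferInstance
  let θ : V → κ := fun v => if hv : lev v ≤ m + 1 then e1.symm ⟨v, hv⟩ else a0
  let δ := e3.symm.trans e2
  have hθ : Set.InjOn θ {v | lev v ≤ m + 1} := by
    intro v hv w hw he
    simp only [Set.mem_ofPred_eq] at hv hw
    simp only [θ, hv, hw, dif_pos] at he
    exact congrArg Subtype.val (e1.symm.injective he)
  refine ⟨θ, fun v => if hv : lev v ≤ 0 then θ (δ ⟨v, hv⟩) else a0, fun a => e1 a,
    fun v => if hv : lev v < m + 1 then δ.symm ⟨v, hv⟩ else v, hθ, ?_, ?_, ?_, ?_⟩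
  · intro a
    have := (e1 a).2
    simp only [Set.mem_ofPred_eq] at this
    simp [θ, this]
  · intro v hv w hw he
    simp only [Set.mem_ofPred_eq] at hv hw
    simp only [hv, hw, dif_pos] at he
    have h0 : ∀ u, lev (δ u : V) ≤ m + 1 := fun u => le_of_lt (δ u).2
    have h1 := hθ (h0 _) (h0 _) he
    exact congrArg Subtype.val (δ.injective (Subtype.ext h1))
  · intro v hv
    simp only [hv, dif_pos]
    exact ⟨_, (δ ⟨v, hv⟩).2, rfl⟩
  · intro v hv
    have h1 : lev (δ.symm ⟨v, hv⟩ : V) ≤ 0 := (δ.symm ⟨v, hv⟩).2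
    simp only [hv, dif_pos, h1, true_and]
    congr 1
    exact congrArg Subtype.val (δ.apply_symm_apply ⟨v, hv⟩)

end Pool.Agent.P.MP_d28077_an
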