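import Mathlib

set_option autoImplicit false

namespace Pool.Agent.P.MP_d28077_an

open Finset

/-- average of `f` over the subcube with free coordinates `U` (the other coordinates are false) -/
noncomputable def avg {κ : Type} [DecidableEq κ] (U : Finset κ) (f : (κ → Bool) → ℝ) : ℝ :=
  (∑ σ ∈ U.powerset, f (fun k => decide (k ∈ σ))) / 2 ^ U.card

/-- `f` depends on finitely many coordinates -/
def Cyl {κ : Type} (f : (κ → Bool) → ℝ) : Prop := ∃ U : Finset κ, DependsOn f (U : Set κ)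

/-- countably many isometric copies of the cylinder functions on the cube, in `ℓ¹` position -/
def IsCubeSys {κ : Type} [DecidableEq κ] {E : Type} [NormedAddCommGroup E] [NormedSpace ℝ E]
    (Ψ : ℕ → ((κ → Bool) → ℝ) →ₗ[ℝ] E) : Prop :=
  ∀ (J : Finset ℕ) (U : Finset κ) (f : ℕ → (κ → Bool) → ℝ), (∀ j ∈ J, DependsOn (f j) (U : Set κ)) →
    ‖∑ j ∈ J, Ψ j (f j)‖ = ∑ j ∈ J, avg U (fun ω => |f j ω|)

/-- the span of the images of the cylinder functions -/
def cubeSpan {κ : Type} {E : Type} [NormedAddCommGroup E] [NormedSpace ℝ E]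
    (Ψ : ℕ → ((κ → Bool) → ℝ) →ₗ[ℝ] E) : Submodule ℝ E :=
  Submodule.span ℝ {y | ∃ j f, Cyl f ∧ y = Ψ j f}

open Classical in
/-- the coordinate projection onto the index set `p` is bounded by `K` on the span -/
def GoodSet {I V : Type} [AddCommGroup V] [Module ℝ V] (N : V → ℝ) (K : ℝ) (x : I → V)
    (p : Set I) : Prop :=
  ∀ (u : Finset I) (a : I → ℝ),
    N (∑ i ∈ u with i ∈ p, a i • x i) ≤ K * N (∑ i ∈ u, a i • x i)

/-- cofinally many finite index sets carry an enumeration all of whose initial segments are good -/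
def ERK {I V : Type} [AddCommGroup V] [Module ℝ V] (N : V → ℝ) (K : ℝ) (x : I → V) : Prop :=
  ∀ s : Finset I, ∃ (t : Finset I) (ρ : I → ℕ), s ⊆ t ∧ Set.InjOn ρ (t : Set I) ∧
    ∀ D : Set ℕ, IsLowerSet D → GoodSet N K x {i | i ∈ t ∧ ρ i ∈ D}

open MeasureTheory

/-- every measurable set is `ν`-a.e. equal to a `C`-measurable set -/
def Gen {T : Type} [m0 : MeasurableSpace T] (ν : Measure T) (C : MeasurableSpace T) : Prop :=
  ∀ B, MeasurableSet[m0] B → ∃ B', MeasurableSet[C] B' ∧ B =ᵐ[ν] B'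

/-- Maharam type -/
noncomputable def mtype {T : Type} [MeasurableSpace T] (ν : Measure T) : Cardinal :=
  sInf {c | ∃ G : Set (Set T), (∀ B ∈ G, MeasurableSet B) ∧ Cardinal.mk G = c ∧
    Gen ν (MeasurableSpace.generateFrom G)}

end Pool.Agent.P.MP_d28077_an
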