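import Pool.Agent.P.MP_d28077_an.Physical1

set_option autoImplicit false

namespace Pool.Agent.P.MP_d28077_an

open MeasureTheory Set Filter
open scoped ENNReal

namespace Phys

variable {T : Type}

theorem Gen_restrict (C : MeasurableSpace T) {m0 : MeasurableSpace T} {μ : Measure T}
    {A B : Set T} (h : B ⊆ A) (hg : @Gen T m0 (μ.restrict A) C) : @Gen T m0 (μ.restrict B) C := by
  intro S hS
  obtain ⟨S', h1, h2⟩ := hg S hS
  exact ⟨S', h1, h2.filter_mono (ae_mono (Measure.restrict_mono h le_rfl))⟩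

variable [m0 : MeasurableSpace T] {μ : Measure T}

theorem exists_gen (ν : Measure T) : ∃ G : Set (Set T), (∀ B ∈ G, MeasurableSet B) ∧
    Cardinal.mk G = mtype ν ∧ Gen ν (MeasurableSpace.generateFrom G) := by
  have hne : {c | ∃ G : Set (Set T), (∀ B ∈ G, MeasurableSet B) ∧ Cardinal.mk G = c ∧
      Gen ν (MeasurableSpace.generateFrom G)}.Nonempty :=
    ⟨_, {B | MeasurableSet B}, fun _ h => h, rfl, fun B hB =>
      ⟨B, MeasurableSpace.measurableSet_generateFrom (s := {B | MeasurableSet B}) hB,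
        EventuallyEq.rfl⟩⟩
  exact csInf_mem hne

theorem mtype_le {ν : Measure T} {G : Set (Set T)} (h1 : ∀ B ∈ G, MeasurableSet B)
    (h2 : Gen ν (MeasurableSpace.generateFrom G)) : mtype ν ≤ Cardinal.mk G :=
  csInf_le' ⟨G, h1, rfl, h2⟩

theorem mtype_mono {A B : Set T} (h : B ⊆ A) : mtype (μ.restrict B) ≤ mtype (μ.restrict A) := by
  obtain ⟨G, h1, h2, h3⟩ := exists_gen (μ.restrict A)
  rw [← h2]
  exact mtype_le h1 (Gen_restrict _ h h3)

theorem Gen_drop {ν : Measure T} {G : Set (Set T)} {B : Set T}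
    (hB : B =ᵐ[ν] (univ : Set T) ∨ B =ᵐ[ν] (∅ : Set T))
    (hg : Gen ν (MeasurableSpace.generateFrom G)) :
    Gen ν (MeasurableSpace.generateFrom (G \ {B})) := by
  have hle : MeasurableSpace.generateFrom G ≤ eventuallyMeasurableSpace
      (MeasurableSpace.generateFrom (G \ {B})) (ae ν) := by
    refine MeasurableSpace.generateFrom_le fun S hS => ?_
    by_cases h : S = B
    · subst h
      rcases hB with h | h
      · exact ⟨univ, MeasurableSet.univ, h⟩
      · exact ⟨∅, @MeasurableSet.empty _ (MeasurableSpace.generateFrom _), h⟩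
    · exact ⟨S, MeasurableSpace.measurableSet_generateFrom ⟨hS, h⟩, EventuallyEq.rfl⟩
  intro S hS
  obtain ⟨S', h1, h2⟩ := hg S hS
  obtain ⟨S'', h3, h4⟩ := hle _ h1
  exact ⟨S'', h3, h2.trans h4⟩

/-- atoms and homogeneous sets of infinite Maharam type -/
def Good (μ : Measure T) (A : Set T) : Prop :=
  MeasurableSet A ∧ (Gen (μ.restrict A) ⊥ ∨ ∃ κ : Cardinal.{0}, Cardinal.aleph0 ≤ κ ∧
    ∀ F, MeasurableSet F → F ⊆ A → μ F ≠ 0 → mtype (μ.restrict F) = κ)

theorem Good.mono {A B : Set T} (hA : Good μ A) (hB : MeasurableSet B) (h : B ⊆ A) :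
    Good μ B := by
  refine ⟨hB, hA.2.imp (Gen_restrict _ h) ?_⟩
  rintro ⟨κ, h1, h2⟩
  exact ⟨κ, h1, fun F hF hFB => h2 F hF (hFB.trans h)⟩

theorem exists_good (A0 : Set T) (hA0 : MeasurableSet A0) (h0 : μ A0 ≠ 0) :
    ∃ A, A ⊆ A0 ∧ μ A ≠ 0 ∧ Good μ A := by
  obtain ⟨⟨A, hA, hsub, hpos⟩, hmin⟩ := (wellFounded_lt (α := Cardinal.{0})).has_min
    (range fun F : {F : Set T // MeasurableSet F ∧ F ⊆ A0 ∧ μ F ≠ 0} => mtype (μ.restrict F.1))
    ⟨_, ⟨A0, hA0, subset_rfl, h0⟩, rfl⟩ |>.elim fun κ h => by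
      obtain ⟨⟨F, rfl⟩, h2⟩ := h
      exact (⟨F, fun F' => not_lt.mp (h2 _ ⟨F', rfl⟩)⟩ :
        ∃ F : {F : Set T // MeasurableSet F ∧ F ⊆ A0 ∧ μ F ≠ 0},
          ∀ F' : {F : Set T // MeasurableSet F ∧ F ⊆ A0 ∧ μ F ≠ 0},
            mtype (μ.restrict F.1) ≤ mtype (μ.restrict F'.1))
  have hhom : ∀ F, MeasurableSet F → F ⊆ A → μ F ≠ 0 →
      mtype (μ.restrict F) = mtype (μ.restrict A) := fun F hF hFA hF0 =>
    le_antisymm (mtype_mono hFA) (hmin ⟨F, hF, hFA.trans hsub, hF0⟩)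
  refine ⟨A, hsub, hpos, hA, ?_⟩
  by_cases hκ : Cardinal.aleph0 ≤ mtype (μ.restrict A)
  · exact Or.inr ⟨_, hκ, hhom⟩
  left
  obtain ⟨G, h1, h2, h3⟩ := exists_gen (μ.restrict A)
  rcases G.eq_empty_or_nonempty with rfl | ⟨B, hB⟩
  · rwa [MeasurableSpace.generateFrom_empty] at h3
  exfalso
  have hfin : G.Finite := Cardinal.lt_aleph0_iff_set_finite.mp (by rw [h2]; exact not_le.mp hκ)
  have hlt : Cardinal.mk (G \ {B} : Set (Set T)) < Cardinal.mk G := by
    have hf2 : (G \ {B}).Finite := hfin.subset diff_subset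
    rw [← Set.cast_ncard hfin, ← Set.cast_ncard hf2, Nat.cast_lt]
    exact Set.ncard_diff_singleton_lt_of_mem hB hfin
  have key : ∀ F, MeasurableSet F → F ⊆ A →
      (B =ᵐ[μ.restrict F] (univ : Set T) ∨ B =ᵐ[μ.restrict F] (∅ : Set T)) → μ F = 0 := by
    intro F hF hFA hor
    by_contra hF0
    have := mtype_le (fun S hS => h1 S hS.1) (Gen_drop hor (Gen_restrict _ hFA h3))
    rw [hhom F hF hFA hF0, ← h2] at this
    exact absurd hlt (not_lt.mpr this)
  have hBm := h1 B hB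
  have e1 := key (A ∩ B) (hA.inter hBm) inter_subset_left (Or.inl (by
    rw [Filter.eventuallyEq_set, ae_restrict_iff' (hA.inter hBm)]
    exact Eventually.of_forall fun t ht => by simp [ht.2]))
  have e2 := key (A \ B) (hA.diff hBm) diff_subset (Or.inr (by
    rw [Filter.eventuallyEq_set, ae_restrict_iff' (hA.diff hBm)]
    exact Eventually.of_forall fun t ht => by simp [ht.2]))
  apply hpos
  rw [← measure_inter_add_diff A hBm, e1, e2, add_zero]

theorem exists_cover [IsFiniteMeasure μ] : ∃ A : ℕ → Set T, (∀ n, Good μ (A n)) ∧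
    Pairwise (Function.onFun Disjoint A) ∧ μ (⋃ n, A n)ᶜ = 0 := by
  obtain ⟨E, ⟨S, hSc, hSg, rfl⟩, hmax⟩ := Maharam.exists_maximal μ
    (fun E => ∃ S : Set (Set T), S.Countable ∧ (∀ A ∈ S, Good μ A) ∧ E = ⋃₀ S)
    ⟨_, ∅, countable_empty, by simp, rfl⟩ (by
      intro f _ hP
      choose S h1 h2 h3 using hP
      refine ⟨⋃ n, S n, countable_iUnion h1, ?_, ?_⟩
      · intro A hA
        obtain ⟨n, hn⟩ := mem_iUnion.mp hA
        exact h2 n A hn
      · rw [sUnion_iUnion]; exact iUnion_congr h3)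
  have hm : MeasurableSet (⋃₀ S) := MeasurableSet.sUnion hSc fun A hA => (hSg A hA).1
  have hnull : μ (⋃₀ S)ᶜ = 0 := by
    by_contra hne
    obtain ⟨A, hsub, hpos, hgood⟩ := exists_good _ hm.compl hne
    have h1 := hmax (⋃₀ S ∪ A) ⟨insert A S, hSc.insert A, by
      rintro B (rfl | hB)
      · exact hgood
      · exact hSg B hB, by rw [sUnion_insert, union_comm]⟩ subset_union_left
    rw [measure_union (disjoint_compl_right.mono_right hsub) hgood.1] at h1
    apply hpos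
    have : μ (⋃₀ S) + μ A ≤ μ (⋃₀ S) + 0 := by rwa [add_zero]
    exact le_zero_iff.mp ((ENNReal.add_le_add_iff_left (measure_ne_top μ _)).mp this)
  obtain ⟨f, hf⟩ := (hSc.insert ∅).exists_eq_range (insert_nonempty _ _)
  have hfg : ∀ n, Good μ (f n) := by
    intro n
    have : f n ∈ insert ∅ S := hf ▸ mem_range_self n
    rcases this with h | h
    · rw [h]
      exact ⟨MeasurableSet.empty, Or.inr ⟨_, le_rfl, fun F _ hF h0 =>
        absurd (by rw [subset_empty_iff.mp hF, measure_empty]) h0⟩⟩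
    · exact hSg _ h
  refine ⟨disjointed f, fun n => (hfg n).mono (MeasurableSet.disjointed (fun n => (hfg n).1) n)
    (disjointed_subset f n), disjoint_disjointed f, ?_⟩
  rw [iUnion_disjointed, ← sUnion_range, ← hf, sUnion_insert, empty_union]
  exact hnull

theorem exists_split [IsFiniteMeasure μ] (A : Set T) (hA : MeasurableSet A) (h0 : μ A ≠ 0)
    (hna : ∀ F, MeasurableSet F → F ⊆ A → μ F ≠ 0 → ¬ Gen (μ.restrict F) ⊥) :
    ∃ B : ℕ → Set T, (∀ n, MeasurableSet (B n)) ∧ (∀ n, B n ⊆ A) ∧ (∀ n, μ (B n) ≠ 0) ∧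
      Pairwise (Function.onFun Disjoint B) ∧ μ (A \ ⋃ n, B n) = 0 := by
  have hra : Maharam.RelAtomless (μ.restrict A) ⊥ := by
    intro F hF hF0
    rw [Measure.restrict_apply hF] at hF0
    rw [Measure.restrict_restrict hF]
    exact hna _ (hF.inter hA) inter_subset_right hF0
  have step : ∀ F : {F : Set T // MeasurableSet F ∧ F ⊆ A ∧ μ F ≠ 0},
      ∃ F1 : {F : Set T // MeasurableSet F ∧ F ⊆ A ∧ μ F ≠ 0},
        F1.1 ⊆ F.1 ∧ μ F1.1 ≤ 2⁻¹ * μ F.1 := by
    rintro ⟨F, hF, hFA, hF0⟩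
    obtain ⟨F1, h1, h2, h3, h4⟩ := Maharam.half ⊥ bot_le (μ.restrict A) hra F hF (by
      rwa [Measure.restrict_eq_self _ hFA])
    have h5 := h4 univ MeasurableSet.univ
    rw [univ_inter, univ_inter, Measure.restrict_eq_self _ hFA,
      Measure.restrict_eq_self _ (h2.trans hFA)] at h5
    rw [Measure.restrict_eq_self _ (h2.trans hFA)] at h3
    exact ⟨⟨F1, h1, h2.trans hFA, h3⟩, h2, h5⟩
  choose nx h1 h2 using step
  let f : ℕ → {F : Set T // MeasurableSet F ∧ F ⊆ A ∧ μ F ≠ 0} :=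
    fun n => nx^[n] ⟨A, hA, subset_rfl, h0⟩
  have hf : ∀ n, f (n + 1) = nx (f n) := fun n => Function.iterate_succ_apply' _ _ _
  have hanti : Antitone fun n => (f n).1 :=
    antitone_nat_of_succ_le fun n => by rw [hf]; exact h1 _
  have hsmall : ∀ n, μ (f n).1 ≤ 2⁻¹ ^ n * μ A := by
    intro n
    induction n with
    | zero => simp [f]
    | succ n ih =>
      rw [hf, pow_succ', mul_assoc]
      refine (h2 _).trans ?_
      gcongr
  refine ⟨fun n => (f n).1 \ (f (n + 1)).1, fun n => (f n).2.1.diff (f (n + 1)).2.1,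
    fun n => diff_subset.trans (f n).2.2.1, fun n hz => ?_, ?_, ?_⟩
  · have a1 : μ (f n).1 ≤ μ (f (n + 1)).1 := by
      calc μ (f n).1 ≤ μ ((f (n + 1)).1 ∪ ((f n).1 \ (f (n + 1)).1)) :=
            measure_mono fun x hx => by
              by_cases h : x ∈ (f (n + 1)).1
              · exact Or.inl h
              · exact Or.inr ⟨hx, h⟩
        _ ≤ μ (f (n + 1)).1 + μ ((f n).1 \ (f (n + 1)).1) := measure_union_le _ _
        _ = μ (f (n + 1)).1 := by rw [hz, add_zero]
    have a2 : μ (f (n + 1)).1 ≤ 2⁻¹ * μ (f n).1 := by rw [hf]; exact h2 _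
    have a3 : 2⁻¹ * μ (f n).1 < μ (f n).1 := by
      rw [mul_comm, ← div_eq_mul_inv]
      exact ENNReal.half_lt_self (f n).2.2.2 (measure_ne_top _ _)
    exact absurd (a1.trans a2) (not_le.mpr a3)
  · intro a b hab
    rcases lt_or_gt_of_ne hab with h | h
    · exact disjoint_left.mpr fun x hx hx' => hx.2 (hanti (Nat.succ_le_of_lt h) hx'.1)
    · exact disjoint_left.mpr fun x hx hx' => hx'.2 (hanti (Nat.succ_le_of_lt h) hx.1)
  · have hb : ∀ n, μ (A \ ⋃ n, (f n).1 \ (f (n + 1)).1) ≤ 2⁻¹ ^ n * μ A := by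
      intro n
      refine le_trans (measure_mono ?_) (hsmall n)
      intro x hx
      induction n with
      | zero => exact hx.1
      | succ n ih =>
        by_contra hn
        exact hx.2 (mem_iUnion.mpr ⟨n, ih, hn⟩)
    have hlim : Tendsto (fun n : ℕ => (2⁻¹ : ℝ≥0∞) ^ n * μ A) atTop (nhds (0 * μ A)) :=
      ENNReal.Tendsto.mul_const
        (ENNReal.tendsto_pow_atTop_nhds_zero_of_lt_one (by norm_num))
        (Or.inr (measure_ne_top _ _))
    rw [zero_mul] at hlim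
    exact le_zero_iff.mp (ge_of_tendsto' hlim hb)

theorem piece [IsFiniteMeasure μ] (A : Set T) (hg : Good μ A) (h0 : μ A ≠ 0) :
    ∃ F : Submodule ℝ (Lp ℝ 1 μ), F ≤ Supp μ A ∧
      (∀ S, MeasurableSet S → InW F.topologicalClosure (S ∩ A)) ∧
      ((∃ v : Lp ℝ 1 μ, v ≠ 0 ∧ F = Submodule.span ℝ {v}) ∨
        ∃ (κ : Type) (_ : DecidableEq κ) (_ : Infinite κ)
          (Ψ : ℕ → ((κ → Bool) → ℝ) →ₗ[ℝ] Lp ℝ 1 μ), IsCubeSys Ψ ∧ F = cubeSpan Ψ) := by
  obtain ⟨hA, hat | ⟨κ, hκ, hom⟩⟩ := hg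
  · let v : Lp ℝ 1 μ := indicatorConstLp 1 hA (measure_ne_top μ A) (1 : ℝ)
    have hv : (v : T → ℝ) =ᵐ[μ] A.indicator fun _ => (1 : ℝ) := indicatorConstLp_coeFn
    refine ⟨Submodule.span ℝ {v}, ?_, fun S hS => ?_, Or.inl ⟨v, fun hz => ?_, rfl⟩⟩
    · rw [Submodule.span_singleton_le_iff_mem]
      show ∀ᵐ t ∂μ, t ∉ A → v t = 0
      filter_upwards [hv] with t ht hn
      rw [ht, indicator_of_notMem hn]
    · obtain ⟨S', hS', h⟩ := hat S hS
      rw [Filter.eventuallyEq_set, ae_restrict_iff' hA] at h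
      rcases MeasurableSpace.measurableSet_bot_iff.mp hS' with rfl | rfl
      · refine (InW.empty _).congr ?_
        rw [Filter.eventuallyEq_set]
        filter_upwards [h] with t ht
        simp only [mem_inter_iff, mem_empty_iff_false] at ht ⊢
        tauto
      · have : InW (Submodule.span ℝ {v}).topologicalClosure A :=
          ⟨v, Submodule.le_topologicalClosure _ (Submodule.mem_span_singleton_self v), hv⟩
        refine this.congr ?_
        rw [Filter.eventuallyEq_set]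
        filter_upwards [h] with t ht
        simp only [mem_inter_iff, mem_univ] at ht ⊢
        tauto
    · have h1 : ‖v‖ = μ.real A := by
        simp only [v]
        rw [norm_indicatorConstLp one_ne_zero ENNReal.one_ne_top]
        simp
      rw [hz, norm_zero] at h1
      exact (ENNReal.toReal_pos h0 (measure_ne_top _ _)).ne h1
  · obtain ⟨B, hBm, hBA, hB0, hBd, hBc⟩ := exists_split A hA h0 (by
      intro F hF hFA hF0 hgen
      have := mtype_le (G := ∅) (by simp) (by rwa [MeasurableSpace.generateFrom_empty])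
      rw [hom F hF hFA hF0, Cardinal.mk_emptyCollection] at this
      exact absurd (hκ.trans this) (not_le.mpr Cardinal.aleph0_pos))
    have hψ : ∀ j, ∃ ψ : ((κ.ord.ToType → Bool) → ℝ) →ₗ[ℝ] Lp ℝ 1 μ,
        (∀ (U : Finset κ.ord.ToType) (f : (κ.ord.ToType → Bool) → ℝ),
          DependsOn f (U : Set κ.ord.ToType) →
            ψ f ∈ Supp μ (B j) ∧ ‖ψ f‖ = avg U fun ω => |f ω|) ∧
        ∀ W : Submodule ℝ (Lp ℝ 1 μ), IsClosed (W : Set (Lp ℝ 1 μ)) → (∀ f, Cyl f → ψ f ∈ W) →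
          ∀ S, MeasurableSet S → InW W (S ∩ B j) := by
      intro j
      obtain ⟨E, h1, h2, h3⟩ := maharam_bits (μ.restrict (B j)) κ hκ
        (fun h => hB0 j (Measure.restrict_eq_zero.mp h)) (by
          intro F hF hF0
          rw [Measure.restrict_apply hF] at hF0
          rw [Measure.restrict_restrict hF]
          exact hom _ (hF.inter (hBm j)) (inter_subset_right.trans (hBA j)) hF0)
      exact cube_map (B j) (hBm j) (hB0 j) E h1 h2 h3
    choose Ψ hΨ1 hΨ2 using hψ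
    have hinf : Infinite κ.ord.ToType :=
      Cardinal.infinite_iff.mpr (by rw [Cardinal.mk_ord_toType]; exact hκ)
    refine ⟨cubeSpan Ψ, ?_, fun S hS => ?_, Or.inr ⟨κ.ord.ToType, inferInstance, hinf, Ψ, ?_, rfl⟩⟩
    · refine Submodule.span_le.mpr ?_
      rintro _ ⟨j, f, ⟨U, hU⟩, rfl⟩
      exact Supp_mono (hBA j) (hΨ1 j U f hU).1
    · have h1 : InW (cubeSpan Ψ).topologicalClosure (⋃ j, S ∩ B j) := by
        refine InW.iUnion (Submodule.isClosed_topologicalClosure _) _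
          (fun j => hS.inter (hBm j)) ?_ fun j => ?_
        · exact hBd.mono fun a b hab => Disjoint.mono inter_subset_right inter_subset_right hab
        · exact hΨ2 j _ (Submodule.isClosed_topologicalClosure _) (fun f hf =>
            Submodule.le_topologicalClosure (cubeSpan Ψ)
              (Submodule.subset_span ⟨j, f, hf, rfl⟩)) S hS
      refine h1.congr ?_
      rw [Filter.eventuallyEq_set]
      filter_upwards [measure_eq_zero_iff_ae_notMem.mp hBc] with t ht
      simp only [mem_diff, mem_iUnion, mem_inter_iff, not_and, not_not] at ht ⊢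
      constructor
      · rintro ⟨j, h1, h2⟩
        exact ⟨h1, hBA j h2⟩
      · rintro ⟨h1, h2⟩
        obtain ⟨j, hj⟩ := ht h2
        exact ⟨j, h1, hj⟩
    · intro J U f hf
      rw [norm_sum_disj B hBd J _ fun j hj => (hΨ1 j U _ (hf j hj)).1]
      exact Finset.sum_congr rfl fun j hj => (hΨ1 j U _ (hf j hj)).2

end Phys

open Phys in
theorem physical {T : Type} [MeasurableSpace T] (μ : Measure T) [IsFiniteMeasure μ] :
    ∃ (Γ : Type) (F : Γ → Submodule ℝ (Lp ℝ 1 μ)),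
      (∀ (G : Finset Γ) (y : Γ → Lp ℝ 1 μ), (∀ γ ∈ G, y γ ∈ F γ) →
        ‖∑ γ ∈ G, y γ‖ = ∑ γ ∈ G, ‖y γ‖) ∧
      (⨆ γ, F γ).topologicalClosure = ⊤ ∧
      ∀ γ, (∃ v : Lp ℝ 1 μ, v ≠ 0 ∧ F γ = Submodule.span ℝ {v}) ∨
        ∃ (κ : Type) (_ : DecidableEq κ) (_ : Infinite κ)
          (Ψ : ℕ → ((κ → Bool) → ℝ) →ₗ[ℝ] Lp ℝ 1 μ), IsCubeSys Ψ ∧ F γ = cubeSpan Ψ := by
  obtain ⟨A, hAg, hAd, hAc⟩ := exists_cover (μ := μ)
  choose F hF1 hF2 hF3 using fun γ : {n : ℕ // μ (A n) ≠ 0} => piece (A γ.1) (hAg γ.1) γ.2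
  refine ⟨{n : ℕ // μ (A n) ≠ 0}, F, fun G y hy => ?_, ?_, hF3⟩
  · exact norm_sum_disj (fun γ : {n : ℕ // μ (A n) ≠ 0} => A γ.1)
      (fun a b hab => hAd fun h => hab (Subtype.ext h)) G y fun γ hγ => hF1 γ (hy γ hγ)
  · refine eq_top_of_InW (Submodule.isClosed_topologicalClosure _) fun S hS => ?_
    have h1 : InW (⨆ γ, F γ).topologicalClosure (⋃ n, S ∩ A n) := by
      refine InW.iUnion (Submodule.isClosed_topologicalClosure _) _
        (fun n => hS.inter (hAg n).1) ?_ fun n => ?_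
      · exact hAd.mono fun a b hab => Disjoint.mono inter_subset_right inter_subset_right hab
      · by_cases h : μ (A n) = 0
        · refine (InW.empty _).congr ?_
          exact (ae_eq_empty.mpr (measure_mono_null inter_subset_right h)).symm
        · exact (hF2 ⟨n, h⟩ S hS).mono
            (Submodule.topologicalClosure_mono (le_iSup F ⟨n, h⟩))
    refine h1.congr ?_
    rw [Filter.eventuallyEq_set]
    filter_upwards [measure_eq_zero_iff_ae_notMem.mp hAc] with t ht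
    simp only [mem_compl_iff, mem_iUnion, mem_inter_iff, not_not] at ht ⊢
    obtain ⟨n, hn⟩ := ht
    exact ⟨fun ⟨_, h, _⟩ => h, fun h => ⟨n, h, hn⟩⟩

end Pool.Agent.P.MP_d28077_an
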