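import Pool.Agent.P.MP_d28077_an.Swindle
import Pool.Agent.P.MP_d28077_an.Physical

set_option autoImplicit false

namespace Pool.Agent.P.MP_d28077_an

open Finset MeasureTheory

lemma erk_unit {E : Type} [NormedAddCommGroup E] [NormedSpace ℝ E] (v : E) :
    ERK (fun y : E => ‖y‖) 42 (fun _ : Unit => v) := by
  classical
  intro s
  refine ⟨Finset.univ, fun _ => 0, Finset.subset_univ _, fun _ _ _ _ _ => rfl, fun D _ u a => ?_⟩
  by_cases h : 0 ∈ D
  · simp only [Finset.mem_univ, h, and_self, Set.mem_ofPred_eq, Finset.filter_true]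
    have := norm_nonneg (∑ i ∈ u, a i • v)
    linarith
  · simp only [Finset.mem_univ, h, and_false, Set.mem_ofPred_eq, Finset.filter_false,
      Finset.sum_empty, norm_zero]
    positivity

theorem final {T : Type} [MeasurableSpace T] (μ : Measure T) [IsFiniteMeasure μ] :
    ∃ (I : Type) (x : I → Lp ℝ 1 μ),
      (Submodule.span ℝ (Set.range x)).topologicalClosure = ⊤ ∧
      ∀ f : ℕ → I, Function.Injective f →
        ∃ π : Equiv.Perm ℕ, (∀ n, x (f (π n)) ≠ 0) ∧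
          ∃ K : ℝ, ∀ (a : ℕ → ℝ) (m n : ℕ), m ≤ n →
            ‖∑ k ∈ Finset.range m, a k • x (f (π k))‖ ≤
              K * ‖∑ k ∈ Finset.range n, a k • x (f (π k))‖ := by
  obtain ⟨Γ, F, h1, h2, h3⟩ := physical μ
  have h4 : ∀ γ, ∃ (I : Type) (x : I → Lp ℝ 1 μ), ERK (fun y : Lp ℝ 1 μ => ‖y‖) 42 x ∧
      (∀ i, x i ≠ 0) ∧ Submodule.span ℝ (Set.range x) = F γ := by
    intro γ
    rcases h3 γ with ⟨v, hv, hF⟩ | ⟨κ, _, _, Ψ, hΨ, hF⟩
    · exact ⟨Unit, fun _ => v, erk_unit v, fun _ => hv, by rw [hF, Set.range_const]⟩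
    · rw [hF]; exact model hΨ
  choose I x g1 g2 g3 using h4
  have hmain := erk_sum (fun y : Lp ℝ 1 μ => ‖y‖) x (fun _ => LinearMap.id) (K := 42) (C := 1)
    (by norm_num) (fun _ _ _ => le_rfl) (fun G v hv => by
      rw [one_mul]
      exact (h1 G v (fun γ hγ => g3 γ ▸ hv γ hγ)).ge) g1
  refine ⟨Σ γ, I γ, fun p => x p.1 p.2, ?_, fun f hf => ?_⟩
  · rw [← h2]
    congr 1
    apply le_antisymm
    · rw [Submodule.span_le]
      rintro _ ⟨⟨γ, i⟩, rfl⟩
      exact Submodule.mem_iSup_of_mem γ (g3 γ ▸ Submodule.subset_span ⟨i, rfl⟩)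
    · refine iSup_le (fun γ => ?_)
      rw [← g3 γ]
      apply Submodule.span_mono
      rintro _ ⟨i, rfl⟩
      exact ⟨⟨γ, i⟩, rfl⟩
  · obtain ⟨π, K, hK⟩ := er_final (by norm_num) hmain f hf
    exact ⟨π, fun n => g2 _ _, K, hK⟩

end Pool.Agent.P.MP_d28077_an
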