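import Pool.Agent.P.MP_d28077_an.Leaves

set_option autoImplicit false

namespace Pool.Agent.P.MP_d28077_an

open Finset

/-- generators of the model space -/
def InY {B : Type} [DecidableEq B] (lev : B → ℕ) (x : Vec B) : Prop :=
  (∀ c, DependsOn (x c) {v | lev v ≤ c}) ∧
    ∀ c, c ≠ 0 → x c = 0 ∨ ∃ b, lev b = c ∧ OddIn b (x c)

lemma VecOK.inY {B κ : Type} [DecidableEq B] {gr : B → Finset κ} {lev : B → ℕ} {S : Finset κ}
    {x : Vec B} (h : VecOK gr lev S x) : InY lev x :=
  ⟨fun c => (h.dep c).mono (fun _ hv => hv.2), h.wit⟩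

variable {B κ : Type} [Fintype B] [DecidableEq B] [DecidableEq κ]

noncomputable def nrmF (n : ℕ) (f : Vec B) : ℝ := ∑ c ∈ range n, ∑ ω, |f c ω|

/-- action of a kernel -/
noncomputable def act (n : ℕ) (M : Ker B) (f : Vec B) : Vec B := fun c ω =>
  ∑ c' ∈ range n, ∑ ω', M c ω c' ω' * f c' ω'

lemma nrmF_act {n : ℕ} {M : Ker B} {K : ℝ} (hM : ∀ c ω, prof n M c ω ≤ K) (f : Vec B) :
    nrmF n (act n M f) ≤ K * nrmF n f := by
  unfold nrmF act
  calc ∑ c ∈ range n, ∑ ω, |∑ c' ∈ range n, ∑ ω', M c ω c' ω' * f c' ω'|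
      ≤ ∑ c ∈ range n, ∑ ω, ∑ c' ∈ range n, ∑ ω', |M c ω c' ω'| * |f c' ω'| := by
        refine Finset.sum_le_sum (fun c _ => Finset.sum_le_sum (fun ω _ => ?_))
        refine (Finset.abs_sum_le_sum_abs _ _).trans (Finset.sum_le_sum (fun c' _ => ?_))
        refine (Finset.abs_sum_le_sum_abs _ _).trans (Finset.sum_le_sum (fun ω' _ => ?_))
        rw [abs_mul]
    _ = ∑ c' ∈ range n, ∑ ω', prof n M c' ω' * |f c' ω'| := by
        unfold prof
        simp only [Finset.sum_mul]
        rw [Finset.sum_congr rfl (fun c _ => Finset.sum_comm), Finset.sum_comm]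
        refine Finset.sum_congr rfl (fun c' _ => ?_)
        rw [Finset.sum_congr rfl (fun c _ => Finset.sum_comm), Finset.sum_comm]
    _ ≤ _ := by
        rw [Finset.mul_sum]
        refine Finset.sum_le_sum (fun c _ => ?_)
        rw [Finset.mul_sum]
        exact Finset.sum_le_sum (fun ω _ => mul_le_mul_of_nonneg_right (hM c ω) (abs_nonneg _))

omit [DecidableEq κ] in
lemma act_leaves {n N : ℕ} (l : Fin N → Leaf B κ) (s : Finset (Fin N)) (f : Vec B) :
    act n (∑ i ∈ s, (l i).ker) f = ∑ i ∈ s, pr n (l i).y f • (l i).x := by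
  funext c ω
  simp only [act, Finset.sum_apply, Leaf.ker, Pi.smul_apply, smul_eq_mul, pr, Finset.sum_mul]
  rw [Finset.sum_congr rfl (fun c _ => Finset.sum_comm), Finset.sum_comm]
  refine Finset.sum_congr rfl (fun i _ => Finset.sum_congr rfl (fun c' _ =>
    Finset.sum_congr rfl (fun ω' _ => by ring)))

lemma act_py {lev : B → ℕ} {n : ℕ} {f : Vec B} (hf : InY lev f) (hs : ∀ c, n ≤ c → f c = 0) :
    act n (py lev n) f = f := by
  funext c ω
  unfold act py
  by_cases hc : c < n
  · rw [Finset.sum_eq_single c]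
    · simp only [hc, and_self, if_true, sub_mul, Finset.sum_sub_distrib]
      rw [kap_apply_dep ((hf.1 c).mono (fun v hv => by
        simp only [Finset.mem_coe, mem_low]; exact Nat.lt_succ_of_le hv))]
      by_cases h0 : c = 0
      · simp [h0]
      · simp only [h0, if_false]
        rcases hf.2 c h0 with h | ⟨b, hb, hb'⟩
        · simp [h]
        · rw [kap_apply_odd (k := b) (by simp [hb]) hb', sub_zero]
    · intro c' _ h
      simp [h.symm]
    · intro h; exact absurd (Finset.mem_range.2 hc) h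
  · simp [hc, hs c (by omega)]

lemma pr_sum {n N : ℕ} (y : Vec B) (a : Fin N → ℝ) (x : Fin N → Vec B) :
    pr n y (∑ i, a i • x i) = ∑ i, a i * pr n y (x i) := by
  simp only [pr, Finset.sum_apply, Pi.smul_apply, smul_eq_mul, Finset.mul_sum]
  rw [Finset.sum_congr rfl (fun c _ => Finset.sum_comm), Finset.sum_comm]
  refine Finset.sum_congr rfl (fun i _ => Finset.sum_congr rfl (fun c' _ =>
    Finset.sum_congr rfl (fun ω' _ => by ring)))

lemma eq_one_of_idem {N : ℕ} (G : Matrix (Fin N) (Fin N) ℝ) (h : G * G = G)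
    (hd : ∀ i, G i i = 1) : G = 1 := by
  have h1 : IsIdempotentElem (1 - G) := (show IsIdempotentElem G from h).one_sub
  have h2 : IsIdempotentElem (Matrix.toLin' (1 - G)) := by
    unfold IsIdempotentElem at h1 ⊢
    rw [Module.End.mul_eq_comp, ← Matrix.toLin'_mul, h1]
  have h3 := LinearMap.IsIdempotentElem.eq_zero_of_trace_eq_zero h2 (by
    rw [Matrix.trace_toLin'_eq]
    simp [Matrix.trace, hd])
  have h4 : (1 - G) = 0 := Matrix.toLin'.injective (by rw [h3, map_zero])
  exact (sub_eq_zero.1 h4).symm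

theorem finite_basis {gr : B → Finset κ} {lev : B → ℕ} {H : Finset κ} (hH : ∀ b, gr b ⊆ H)
    (hlev : ∀ b, lev b ≠ 0 → (gr b).card = lev b)
    (hpool : ∀ T, T ⊆ H → T.Nonempty → (bet gr lev T + 2) ^ 3 ≤ #(pool gr lev T)) :
    ∃ (N : ℕ) (x : Fin N → Vec B) (S : Fin N → Finset κ),
      (∀ i, S i ⊆ H ∧ VecOK gr lev (S i) (x i)) ∧ LinearIndependent ℝ x ∧
      (∀ (m : ℕ) (a : Fin N → ℝ), nrmF (H.card + 1) (∑ i with i.val < m, a i • x i) ≤
        14 * nrmF (H.card + 1) (∑ i, a i • x i)) ∧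
      ∀ f, InY lev f → (∀ c, H.card < c → f c = 0) → ∃ a : Fin N → ℝ, f = ∑ i, a i • x i := by
  obtain ⟨N, l, h1, h2, h3⟩ := exists_leaves hH hlev hpool
  set n := H.card + 1 with hn
  have hexp : ∀ f, InY lev f → (∀ c, H.card < c → f c = 0) →
      f = ∑ i, pr n (l i).y f • (l i).x := by
    intro f hf hs
    rw [← act_leaves, h2, act_py hf (fun c hc => hs c (by omega))]
  have hx : ∀ j, (l j).x = ∑ i, pr n (l i).y (l j).x • (l i).x := fun j =>
    hexp _ (h1 j).2.1.inY (fun c hc => (h1 j).2.1.supp c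
      ((Finset.card_le_card (h1 j).1).trans_lt hc))
  have hG : (Matrix.of fun i j => pr n (l i).y (l j).x) = 1 := by
    apply eq_one_of_idem
    · ext i j
      rw [Matrix.mul_apply]
      simp only [Matrix.of_apply]
      conv_rhs => rw [hx j, pr_sum]
      exact Finset.sum_congr rfl (fun k _ => mul_comm _ _)
    · intro i; exact (h1 i).2.2
  have hco : ∀ (a : Fin N → ℝ) i, pr n (l i).y (∑ j, a j • (l j).x) = a i := by
    intro a i
    rw [pr_sum]
    have : ∀ j, pr n (l i).y (l j).x = if i = j then 1 else 0 := by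
      intro j
      have := congrFun (congrFun hG i) j
      simpa [Matrix.one_apply] using this
    simp [this]
  refine ⟨N, fun i => (l i).x, fun i => (l i).S, fun i => ⟨(h1 i).1, (h1 i).2.1⟩, ?_, ?_,
    fun f hf hs => ⟨_, hexp f hf hs⟩⟩
  · rw [Fintype.linearIndependent_iff]
    intro a ha i
    rw [← hco a i, ha]
    simp [pr]
  · intro m a
    have := nrmF_act (h3 m) (∑ i, a i • (l i).x)
    rw [act_leaves] at this
    simpa only [hco] using this

end Pool.Agent.P.MP_d28077_an
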