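import Pool.Agent.P.MP_d28077_an.Kernel

set_option autoImplicit false

namespace Pool.Agent.P.MP_d28077_an

open Finset

variable {κ : Type} [DecidableEq κ]

lemma avg_insert {U : Finset κ} {k : κ} (hk : k ∉ U) (f : (κ → Bool) → ℝ) :
    avg (insert k U) f = (avg U f + avg U (fun ω => f (flip k ω))) / 2 := by
  unfold avg
  rw [Finset.sum_powerset_insert hk, Finset.card_insert_of_notMem hk]
  have : ∀ σ ∈ U.powerset, f (fun j => decide (j ∈ insert k σ)) =
      f (flip k (fun j => decide (j ∈ σ))) := by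
    intro σ hσ
    have hkσ : k ∉ σ := fun h => hk (Finset.mem_powerset.1 hσ h)
    congr 1
    funext j
    by_cases h : j = k
    · subst h; simp [flip_self, hkσ]
    · simp [flip_ne h, h]
  rw [Finset.sum_congr rfl this]
  field_simp
  ring

lemma avg_union_of_dep {U : Finset κ} {f : (κ → Bool) → ℝ} (hf : DependsOn f (U : Set κ))
    (D : Finset κ) : avg (U ∪ D) f = avg U f := by
  induction D using Finset.induction_on with
  | empty => simp
  | insert k D _ ih =>
    rw [Finset.union_insert]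
    by_cases hk : k ∈ U ∪ D
    · rw [Finset.insert_eq_of_mem hk, ih]
    · rw [avg_insert hk]
      have : (fun ω => f (flip k ω)) = f :=
        funext (fun ω => dep_flip hf (fun h => hk (Finset.mem_union_left _ h)) ω)
      rw [this, ih]; ring

lemma avg_flip {U : Finset κ} {k : κ} (hk : k ∈ U) (f : (κ → Bool) → ℝ) :
    avg U (fun ω => f (flip k ω)) = avg U f := by
  rw [← Finset.insert_erase hk, avg_insert (Finset.notMem_erase k U),
    avg_insert (Finset.notMem_erase k U)]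
  simp only [flip_flip]
  ring

lemma avg_mono (U : Finset κ) {f g : (κ → Bool) → ℝ} (h : ∀ ω, f ω ≤ g ω) : avg U f ≤ avg U g := by
  unfold avg
  gcongr with σ
  exact h _

lemma avg_add (U : Finset κ) (f g : (κ → Bool) → ℝ) :
    avg U (fun ω => f ω + g ω) = avg U f + avg U g := by
  unfold avg
  rw [Finset.sum_add_distrib, add_div]

lemma avg_mul (U : Finset κ) (t : ℝ) (f : (κ → Bool) → ℝ) :
    avg U (fun ω => t * f ω) = t * avg U f := by
  unfold avg
  rw [← Finset.mul_sum, mul_div_assoc]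

open Classical in
/-- the `L¹` norm of a cylinder function -/
noncomputable def mabs (f : (κ → Bool) → ℝ) : ℝ :=
  if h : Cyl f then avg h.choose (fun ω => |f ω|) else 0

omit [DecidableEq κ] in
lemma dep_abs {f : (κ → Bool) → ℝ} {s : Set κ} (hf : DependsOn f s) :
    DependsOn (fun ω => |f ω|) s := fun _ _ h => by simp only [hf h]

lemma mabs_eq {U : Finset κ} {f : (κ → Bool) → ℝ} (hf : DependsOn f (U : Set κ)) :
    mabs f = avg U (fun ω => |f ω|) := by
  have h : Cyl f := ⟨U, hf⟩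
  unfold mabs
  rw [dif_pos h, ← avg_union_of_dep (dep_abs h.choose_spec) U, Finset.union_comm,
    avg_union_of_dep (dep_abs hf)]

lemma mabs_nonneg (f : (κ → Bool) → ℝ) : 0 ≤ mabs f := by
  unfold mabs
  split_ifs
  · exact div_nonneg (Finset.sum_nonneg (fun _ _ => abs_nonneg _)) (by positivity)
  · exact le_rfl

lemma mabs_zero : mabs (0 : (κ → Bool) → ℝ) = 0 := by
  rw [mabs_eq (U := ∅) (fun _ _ _ => rfl)]
  simp [avg]

lemma eq_zero_of_mabs {f : (κ → Bool) → ℝ} (hf : Cyl f) (h : mabs f ≤ 0) : f = 0 := by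
  obtain ⟨U, hU⟩ := hf
  rw [mabs_eq hU, avg, div_nonpos_iff] at h
  have h1 : ∑ σ ∈ U.powerset, |f (fun k => decide (k ∈ σ))| = 0 := by
    rcases h with h | h
    · exact absurd h.2 (not_le.2 (by positivity))
    · exact le_antisymm h.1 (Finset.sum_nonneg (fun _ _ => abs_nonneg _))
  funext ω
  have h2 := (Finset.sum_eq_zero_iff_of_nonneg (fun _ _ => abs_nonneg _)).1 h1
    (U.filter (fun k => ω k = true)) (Finset.mem_powerset.2 (Finset.filter_subset _ _))
  rw [abs_eq_zero] at h2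
  rw [Pi.zero_apply, ← h2]
  apply hU
  intro k hk
  simp [Finset.mem_coe.1 hk]

omit [DecidableEq κ] in
lemma dep_add {f g : (κ → Bool) → ℝ} {s : Set κ} (hf : DependsOn f s) (hg : DependsOn g s) :
    DependsOn (f + g) s := fun _ _ h => by simp only [Pi.add_apply, hf h, hg h]

omit [DecidableEq κ] in
lemma dep_smul {f : (κ → Bool) → ℝ} {s : Set κ} (t : ℝ) (hf : DependsOn f s) :
    DependsOn (t • f) s := fun _ _ h => by simp only [Pi.smul_apply, hf h]

omit [DecidableEq κ] in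
lemma dep_sum {ι : Type} {u : Finset ι} {f : ι → (κ → Bool) → ℝ} {s : Set κ}
    (hf : ∀ i ∈ u, DependsOn (f i) s) : DependsOn (∑ i ∈ u, f i) s := fun _ _ h => by
  simp only [Finset.sum_apply]
  exact Finset.sum_congr rfl (fun i hi => hf i hi h)

lemma dep_comp_flip {f : (κ → Bool) → ℝ} {s : Set κ} (hf : DependsOn f s) (k : κ) :
    DependsOn (fun ω => f (flip k ω)) s := fun ω ω' h => hf (fun j hj => by
  by_cases hjk : j = k
  · subst hjk; rw [flip_self, flip_self, h j hj]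
  · rw [flip_ne hjk, flip_ne hjk, h j hj])

lemma Cyl.add {f g : (κ → Bool) → ℝ} (hf : Cyl f) (hg : Cyl g) : Cyl (f + g) := by
  obtain ⟨U, hU⟩ := hf
  obtain ⟨U', hU'⟩ := hg
  exact ⟨U ∪ U', dep_add (hU.mono (by simp)) (hU'.mono (by simp))⟩

omit [DecidableEq κ] in
lemma Cyl.smul {f : (κ → Bool) → ℝ} (t : ℝ) (hf : Cyl f) : Cyl (t • f) := by
  obtain ⟨U, hU⟩ := hf
  exact ⟨U, dep_smul t hU⟩

omit [DecidableEq κ] in
lemma cyl_zero : Cyl (0 : (κ → Bool) → ℝ) := ⟨∅, fun _ _ _ => rfl⟩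

lemma cyl_sum {ι : Type} {u : Finset ι} {f : ι → (κ → Bool) → ℝ} (hf : ∀ i ∈ u, Cyl (f i)) :
    Cyl (∑ i ∈ u, f i) :=
  Finset.sum_induction f Cyl (fun _ _ => Cyl.add) cyl_zero hf

lemma Cyl.comp_flip {f : (κ → Bool) → ℝ} (hf : Cyl f) (k : κ) : Cyl (fun ω => f (flip k ω)) := by
  obtain ⟨U, hU⟩ := hf
  exact ⟨U, dep_comp_flip hU k⟩

lemma mabs_add_le {f g : (κ → Bool) → ℝ} (hf : Cyl f) (hg : Cyl g) :
    mabs (f + g) ≤ mabs f + mabs g := by
  obtain ⟨U, hU⟩ := hf
  obtain ⟨U', hU'⟩ := hg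
  have h1 : DependsOn f ((U ∪ U' : Finset κ) : Set κ) := hU.mono (by simp)
  have h2 : DependsOn g ((U ∪ U' : Finset κ) : Set κ) := hU'.mono (by simp)
  rw [mabs_eq h1, mabs_eq h2, mabs_eq (dep_add h1 h2), ← avg_add]
  exact avg_mono _ (fun ω => abs_add_le _ _)

lemma mabs_smul {f : (κ → Bool) → ℝ} (hf : Cyl f) (t : ℝ) : mabs (t • f) = |t| * mabs f := by
  obtain ⟨U, hU⟩ := hf
  rw [mabs_eq hU, mabs_eq (dep_smul t hU), ← avg_mul]
  simp only [Pi.smul_apply, smul_eq_mul, abs_mul]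

lemma mabs_flip {f : (κ → Bool) → ℝ} (hf : Cyl f) (k : κ) :
    mabs (fun ω => f (flip k ω)) = mabs f := by
  obtain ⟨U, hU⟩ := hf
  have h1 : DependsOn f ((insert k U : Finset κ) : Set κ) := hU.mono (by simp)
  rw [mabs_eq h1, mabs_eq (dep_comp_flip h1 k)]
  exact avg_flip (Finset.mem_insert_self k U) (fun ω => |f ω|)

/-- average over one coordinate -/
noncomputable def av1 (k : κ) (f : (κ → Bool) → ℝ) : (κ → Bool) → ℝ :=
  (1 / 2 : ℝ) • (f + fun ω => f (flip k ω))

lemma Cyl.av1 {f : (κ → Bool) → ℝ} (hf : Cyl f) (k : κ) : Cyl (av1 k f) :=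
  (hf.add (hf.comp_flip k)).smul _

lemma mabs_av1 {f : (κ → Bool) → ℝ} (hf : Cyl f) (k : κ) : mabs (av1 k f) ≤ mabs f := by
  unfold av1
  rw [mabs_smul (hf.add (hf.comp_flip k))]
  have := mabs_add_le hf (hf.comp_flip k)
  rw [mabs_flip hf] at this
  rw [abs_of_pos (by norm_num)]
  linarith

lemma av1_odd {f : (κ → Bool) → ℝ} {j : κ} (hf : OddIn j f) (k : κ) : OddIn j (av1 k f) := by
  intro ω
  simp only [av1, Pi.smul_apply, Pi.add_apply, smul_eq_mul, flip_comm k j, hf ω, hf (flip k ω)]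
  ring

/-- conditional expectations are contractions -/
lemma mabs_le_add {D : Set κ} {f : (κ → Bool) → ℝ} (hf : Cyl f) (hD : DependsOn f D) {ι : Type}
    (s : Finset ι) : ∀ g : ι → (κ → Bool) → ℝ,
      (∀ i ∈ s, Cyl (g i) ∧ (g i = 0 ∨ ∃ k, k ∉ D ∧ OddIn k (g i))) →
      mabs f ≤ mabs (f + ∑ i ∈ s, g i) := by
  classical
  induction s using Finset.induction_on with
  | empty => intro g _; simp
  | insert i s hi ih =>
    intro g hg
    have hg' := fun j hj => hg j (Finset.mem_insert_of_mem hj)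
    rcases (hg i (Finset.mem_insert_self _ _)).2 with h0 | ⟨k, hk, hk'⟩
    · rw [Finset.sum_insert hi, h0, zero_add]; exact ih g hg'
    · have h1 := ih (fun j => av1 k (g j)) (by
        intro j hj
        refine ⟨(hg' j hj).1.av1 k, ?_⟩
        rcases (hg' j hj).2 with h0 | ⟨k', hk1, hk2⟩
        · left; rw [h0]; funext ω; simp [av1]
        · exact Or.inr ⟨k', hk1, av1_odd hk2 k⟩)
      refine h1.trans (le_trans (le_of_eq ?_)
        (mabs_av1 (hf.add (cyl_sum (fun j hj => (hg j hj).1))) k))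
      congr 1
      funext ω
      simp only [av1, Finset.sum_insert hi, Pi.add_apply, Pi.smul_apply, Finset.sum_apply,
        smul_eq_mul, dep_flip hD hk, hk' ω, mul_add, Finset.sum_add_distrib, ← Finset.mul_sum]
      ring

/-- pull back along a map of index sets -/
def pull {ι : Type} (θ : ι → κ) : ((ι → Bool) → ℝ) →ₗ[ℝ] ((κ → Bool) → ℝ) :=
  LinearMap.funLeft ℝ ℝ (fun ω : κ → Bool => fun v => ω (θ v))

omit [DecidableEq κ] in
lemma pull_apply {ι : Type} (θ : ι → κ) (f : (ι → Bool) → ℝ) (ω : κ → Bool) :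
    pull θ f ω = f (fun v => ω (θ v)) := rfl

omit [DecidableEq κ] in
lemma pull_dep {ι : Type} (θ : ι → κ) {f : (ι → Bool) → ℝ} {s : Set ι} (hf : DependsOn f s)
    {t : Set κ} (h : ∀ v ∈ s, θ v ∈ t) : DependsOn (pull θ f) t :=
  fun _ _ he => hf (fun v hv => he _ (h v hv))

lemma Cyl.pull {ι : Type} (θ : ι → κ) {f : (ι → Bool) → ℝ} (hf : Cyl f) : Cyl (pull θ f) := by
  obtain ⟨U, hU⟩ := hf
  exact ⟨U.image θ, pull_dep θ hU (fun v hv => by
    rw [Finset.coe_image]; exact Set.mem_image_of_mem θ hv)⟩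

lemma pull_odd {ι : Type} [DecidableEq ι] {θ : ι → κ} {f : (ι → Bool) → ℝ} {s : Set ι}
    (hf : DependsOn f s) (hθ : Set.InjOn θ s) {b : ι} (hb : b ∈ s) (ho : OddIn b f) :
    OddIn (θ b) (pull θ f) := by
  intro ω
  rw [pull_apply, pull_apply, ← ho]
  apply hf
  intro v hv
  by_cases h : v = b
  · subst h; rw [flip_self, flip_self]
  · rw [flip_ne h, flip_ne (fun e => h (hθ hv hb e))]

omit [DecidableEq κ] in
lemma dep_inter {f : (κ → Bool) → ℝ} {s t : Set κ} (hs : DependsOn f s) (ht : DependsOn f t) :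
    DependsOn f (s ∩ t) := by
  classical
  intro ω ω' h
  rw [hs (y := fun k => if k ∈ s then ω k else ω' k) (fun k hk => by simp [hk])]
  apply ht
  intro k hk
  by_cases hks : k ∈ s
  · simp [hks, h k ⟨hks, hk⟩]
  · simp [hks]

lemma mabs_pull {ι : Type} [DecidableEq ι] {θ : ι → κ} {f : (ι → Bool) → ℝ} {s : Set ι}
    (hc : Cyl f) (hf : DependsOn f s) (hθ : Set.InjOn θ s) : mabs (pull θ f) = mabs f := by
  classical
  obtain ⟨U', hU'⟩ := hc
  set U := U'.filter (fun v => v ∈ s) with hUdef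
  have hU : DependsOn f (U : Set ι) := (dep_inter hU' hf).mono (fun v hv => by
    simp only [hUdef, Finset.coe_filter]; exact hv)
  have hθU : Set.InjOn θ (U : Set ι) := hθ.mono (fun v hv => (Finset.mem_filter.1 hv).2)
  rw [mabs_eq hU, mabs_eq (U := U.image θ) (pull_dep θ hU (fun v hv => by
    rw [Finset.coe_image]; exact Set.mem_image_of_mem θ hv))]
  unfold avg
  rw [Finset.card_image_of_injOn hθU, Finset.powerset_image, Finset.sum_image]
  · congr 1
    refine Finset.sum_congr rfl (fun σ hσ => ?_)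
    simp only [pull_apply]
    congr 1
    apply hU
    intro v hv
    have hσ' := Finset.mem_powerset.1 hσ
    simp only [Finset.mem_image, decide_eq_decide]
    exact ⟨fun ⟨w, hw, e⟩ => hθU (hσ' hw) hv e ▸ hw, fun h => ⟨v, h, rfl⟩⟩
  · intro σ hσ τ hτ he'
    have he : σ.image θ = τ.image θ := he'
    have hσ' := Finset.mem_powerset.1 (Finset.mem_coe.1 hσ)
    have hτ' := Finset.mem_powerset.1 (Finset.mem_coe.1 hτ)
    ext v
    constructor
    · intro hv
      obtain ⟨w, hw, e⟩ := Finset.mem_image.1 (he ▸ Finset.mem_image_of_mem θ hv : θ v ∈ τ.image θ)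
      exact hθU (hτ' hw) (hσ' hv) e ▸ hw
    · intro hv
      obtain ⟨w, hw, e⟩ := Finset.mem_image.1
        (he.symm ▸ Finset.mem_image_of_mem θ hv : θ v ∈ σ.image θ)
      exact hθU (hσ' hw) (hτ' hv) e ▸ hw

lemma mabs_fintype [Fintype κ] (f : (κ → Bool) → ℝ) :
    mabs f = (∑ ω, |f ω|) / 2 ^ Fintype.card κ := by
  rw [mabs_eq (U := Finset.univ) (by simpa using dependsOn_univ f), avg, Finset.card_univ]
  congr 1
  refine Finset.sum_bij' (fun σ _ => fun k => decide (k ∈ σ))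
    (fun ω _ => Finset.univ.filter (fun k => ω k = true)) (by simp) (by simp) ?_ ?_ ?_
  · intro σ _; ext k; simp
  · intro ω _; funext k; simp
  · intro σ _; rfl

end Pool.Agent.P.MP_d28077_an
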