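import Pool.Agent.P.MP_d28077_an.FiniteThm
import Pool.Agent.P.MP_d28077_an.Mean

set_option autoImplicit false

namespace Pool.Agent.P.MP_d28077_an

open Finset

variable {V κ : Type} [DecidableEq V] [DecidableEq κ]

/-- the norm of the model space -/
noncomputable def nrm (F : ℕ →₀ ((V → Bool) → ℝ)) : ℝ := F.sum (fun _ f => mabs f)

lemma nrm_eq {F : ℕ →₀ ((V → Bool) → ℝ)} {s : Finset ℕ} (h : F.support ⊆ s) :
    nrm F = ∑ c ∈ s, mabs (F c) :=
  Finsupp.sum_of_support_subset F h _ (fun _ _ => mabs_zero)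

lemma nrm_le_nrm {F G : ℕ →₀ ((V → Bool) → ℝ)} (h : ∀ c, mabs (F c) ≤ mabs (G c)) :
    nrm F ≤ nrm G := by
  rw [nrm_eq (F := F) (s := F.support ∪ G.support) Finset.subset_union_left,
    nrm_eq (F := G) (s := F.support ∪ G.support) Finset.subset_union_right]
  exact Finset.sum_le_sum (fun c _ => h c)

/-- extension by `false` -/
noncomputable def ext0 (U : Finset V) (ω : U → Bool) : V → Bool :=
  fun v => if h : v ∈ U then ω ⟨v, h⟩ else false

/-- a vector on a finite set of coordinates, seen on all coordinates -/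
def lift (U : Finset V) (x : Vec U) : Vec V := fun c => pull Subtype.val (x c)

lemma lift_ext0 (U : Finset V) (x : Vec U) (c : ℕ) (ω : U → Bool) :
    lift U x c (ext0 U ω) = x c ω := by
  simp only [lift, pull_apply]
  congr 1
  funext v
  simp [ext0]

omit [DecidableEq V] in
lemma lift_sum (U : Finset V) {ι : Type} (s : Finset ι) (a : ι → ℝ) (x : ι → Vec U) :
    lift U (∑ i ∈ s, a i • x i) = ∑ i ∈ s, a i • lift U (x i) := by
  funext c
  simp only [lift, Finset.sum_apply, Pi.smul_apply, map_sum, map_smul]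

omit [DecidableEq κ] in
lemma VecOK.lift {gr : V → Finset κ} {lev : V → ℕ} {U : Finset V} {S : Finset κ} {x : Vec U}
    (h : VecOK (fun v : U => gr v) (fun v : U => lev v) S x) : VecOK gr lev S (lift U x) where
  dep := fun c => pull_dep _ (h.dep c) (fun _ hv => hv)
  odd := fun c j hj => by
    rcases h.odd c j hj with h0 | ⟨k, hk, hk'⟩
    · left; simp [Pool.Agent.P.MP_d28077_an.lift, h0]
    · exact Or.inr ⟨k, hk, pull_odd (dependsOn_univ _) Subtype.val_injective.injOn
        (Set.mem_univ k) hk'⟩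
  wit := fun c hc => by
    rcases h.wit c hc with h0 | ⟨k, hk, hk'⟩
    · left; simp [Pool.Agent.P.MP_d28077_an.lift, h0]
    · exact Or.inr ⟨k, hk, pull_odd (dependsOn_univ _) Subtype.val_injective.injOn
        (Set.mem_univ k) hk'⟩
  supp := fun c hc => by simp [Pool.Agent.P.MP_d28077_an.lift, h.supp c hc]
  int := fun c ω => h.int c _

lemma nrm_lift {U : Finset V} {n : ℕ} {y : Vec U} (hy : ∀ c, n ≤ c → y c = 0)
    {F : ℕ →₀ ((V → Bool) → ℝ)} (hF : ⇑F = lift U y) :
    nrm F = nrmF n y / 2 ^ Fintype.card U := by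
  rw [nrm_eq (s := range n)]
  · unfold nrmF
    rw [Finset.sum_div]
    refine Finset.sum_congr rfl (fun c _ => ?_)
    rw [hF, ← mabs_fintype]
    exact mabs_pull ⟨Finset.univ, by simpa using dependsOn_univ _⟩ (dependsOn_univ _)
      Subtype.val_injective.injOn
  · intro c hc
    rw [Finset.mem_range]
    by_contra hn
    apply Finsupp.mem_support_iff.1 hc
    rw [hF]; simp [lift, hy c (not_lt.1 hn)]

omit [DecidableEq κ] in
lemma finite_vecOK {gr : V → Finset κ} {lev : V → ℕ} {S : Finset κ}
    (hfin : {v | gr v ⊆ S}.Finite) : {x : Vec V | VecOK gr lev S x}.Finite := by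
  classical
  set U := hfin.toFinset with hU
  refine (Set.finite_range (fun z : Fin (S.card + 1) → (U → Bool) →
      Finset.Icc (-(3:ℤ) ^ S.card) (3 ^ S.card) => (fun c ω =>
        if h : c < S.card + 1 then ((z ⟨c, h⟩ (fun v => ω v) : ℤ) : ℝ) else 0 : Vec V))).subset ?_
  intro x hx
  choose z hz1 hz2 using hx.int
  refine ⟨fun c ω => ⟨z c (ext0 U ω), Finset.mem_Icc.2 (abs_le.1 (hz2 _ _))⟩, ?_⟩
  funext c ω
  by_cases h : c < S.card + 1
  · simp only [h, dif_pos, ← hz1]
    apply hx.dep c
    intro v hv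
    have : v ∈ U := by simpa [hU] using hv.1
    simp [ext0, this]
  · simp [h, hx.supp c (by omega)]

/-- the finite construction, transported to all coordinates -/
lemma finite_lift {gr : V → Finset κ} {lev : V → ℕ} (hfin : ∀ H : Finset κ, {v | gr v ⊆ H}.Finite)
    (hlev : ∀ b, lev b ≠ 0 → (gr b).card = lev b)
    (hpool : ∀ T : Finset κ, T.Nonempty → ({v | gr v ⊆ T ∧ lev v < T.card}.ncard + 2) ^ 3 ≤
      {b | lev b = T.card ∧ gr b = T}.ncard) (H : Finset κ) :
    ∃ (N : ℕ) (X : Fin N → Vec V) (S : Fin N → Finset κ),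
      (∀ i, VecOK gr lev (S i) (X i)) ∧ (∀ i, X i ≠ 0) ∧
      (∀ (m : ℕ) (a : Fin N → ℝ) (F G : ℕ →₀ ((V → Bool) → ℝ)),
        ⇑F = ∑ i with i.val < m, a i • X i → ⇑G = ∑ i, a i • X i → nrm F ≤ 14 * nrm G) ∧
      ∀ f : Vec V, InY lev f → (∀ c, DependsOn (f c) {v | gr v ⊆ H}) →
        ∃ a : Fin N → ℝ, f = ∑ i, a i • X i := by
  classical
  set U := (hfin H).toFinset with hU
  have hmem : ∀ v, v ∈ U ↔ gr v ⊆ H := fun v => by simp [hU]
  have hcard : ∀ (p : V → Prop), (∀ v, p v → gr v ⊆ H) →
      #(Finset.univ.filter (fun v : U => p v)) = {v | p v}.ncard := by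
    intro p hp
    rw [← Set.ncard_coe_finset, ← Set.ncard_image_of_injective _ Subtype.val_injective]
    congr 1
    ext v
    simp only [Finset.coe_filter, Finset.mem_univ, true_and, Set.mem_image, Set.mem_ofPred_eq]
    exact ⟨fun ⟨w, hw, e⟩ => e ▸ hw, fun h => ⟨⟨v, (hmem v).2 (hp v h)⟩, h, rfl⟩⟩
  obtain ⟨N, x, S, h1, h2, h3, h4⟩ := finite_basis (B := U) (gr := fun v => gr v)
    (lev := fun v => lev v) (H := H) (fun b => (hmem b).1 b.2) (fun b => hlev b) (by
      intro T hT hT'
      have e1 := hcard (fun v => gr v ⊆ T ∧ lev v < T.card) (fun v hv => hv.1.trans hT)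
      have e2 := hcard (fun v => lev v = T.card ∧ gr v = T) (fun v hv => hv.2 ▸ hT)
      have := hpool T hT'
      rw [← e1, ← e2] at this
      unfold bet pool
      convert this)
  refine ⟨N, fun i => lift U (x i), S, fun i => (h1 i).2.lift, ?_, ?_, ?_⟩
  · intro i h0
    apply h2.ne_zero i
    funext c ω
    rw [← lift_ext0 U (x i) c ω]
    exact congrFun (congrFun h0 c) _
  · intro m a F G hF hG
    rw [← lift_sum] at hF hG
    have hs : ∀ (s : Finset (Fin N)) c, H.card + 1 ≤ c → (∑ i ∈ s, a i • x i) c = 0 := by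
      intro s c hc
      rw [Finset.sum_apply]
      refine Finset.sum_eq_zero (fun i _ => ?_)
      rw [Pi.smul_apply, (h1 i).2.supp c ((Finset.card_le_card (h1 i).1).trans_lt hc), smul_zero]
    rw [nrm_lift (hs _) hF, nrm_lift (hs _) hG, ← mul_div_assoc]
    gcongr
    exact h3 m a
  · intro f hf hd
    have hflip : ∀ (b : U) (ω : U → Bool), ext0 U (flip b ω) = flip b.1 (ext0 U ω) := by
      intro b ω
      funext v
      by_cases hv : v = b.1
      · subst hv; simp [ext0, flip_self]
      · rw [flip_ne hv]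
        by_cases hvU : v ∈ U
        · simp only [ext0, hvU, dif_pos]
          exact flip_ne (fun e => hv (congrArg Subtype.val e)) ω
        · simp [ext0, hvU]
    have hodd : ∀ c b, OddIn b (f c) → ¬ gr b ⊆ H → f c = 0 := by
      intro c b hb hb'
      funext ω
      have e1 := hb ω
      rw [dep_flip (hd c) hb'] at e1
      simp only [Pi.zero_apply]; linarith
    refine (h4 (fun c ω => f c (ext0 U ω)) ⟨?_, ?_⟩ ?_).imp (fun a ha => ?_)
    rotate_right
    · rw [← lift_sum, ← ha]
      funext c ω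
      simp only [lift, pull_apply]
      apply hd c
      intro v hv
      simp [ext0, (hmem v).2 hv]
    · intro c ω ω' he
      apply hf.1 c
      intro v hv
      by_cases hvU : v ∈ U
      · simp only [ext0, hvU, dif_pos]; exact he ⟨v, hvU⟩ hv
      · simp [ext0, hvU]
    · intro c hc
      rcases hf.2 c hc with h0 | ⟨b, hb, hb'⟩
      · left; funext ω; simp [h0]
      · by_cases hbH : gr b ⊆ H
        · refine Or.inr ⟨⟨b, (hmem b).2 hbH⟩, hb, fun ω => ?_⟩
          simp only [hflip]
          exact hb' _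
        · left; funext ω; simp [hodd c b hb' hbH]
    · intro c hc
      rcases hf.2 c (by omega) with h0 | ⟨b, hb, hb'⟩
      · funext ω; simp [h0]
      · have : ¬ gr b ⊆ H := fun hh => by
          have h5 := Finset.card_le_card hh
          have h6 := hlev b (by omega)
          omega
        funext ω; simp [hodd c b hb' this]

end Pool.Agent.P.MP_d28077_an
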