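import Pool.Agent.P.MP_d28077_an.Global

set_option autoImplicit false

namespace Pool.Agent.P.MP_d28077_an

open Finset

variable {V κ : Type} [DecidableEq V] [DecidableEq κ]

omit [DecidableEq κ] in
lemma VecOK.cyl {gr : V → Finset κ} {lev : V → ℕ} {S : Finset κ} {x : Vec V}
    (hfin : {v | gr v ⊆ S}.Finite) (h : VecOK gr lev S x) (c : ℕ) : Cyl (x c) :=
  ⟨hfin.toFinset, (h.dep c).mono (fun v hv => by simpa using hv.1)⟩

omit [DecidableEq κ] in
lemma VecOK.smul_odd {gr : V → Finset κ} {lev : V → ℕ} {S H : Finset κ} {x : Vec V}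
    (h : VecOK gr lev S x) (hS : ¬ S ⊆ H) (t : ℝ) (c : ℕ) :
    t • x c = 0 ∨ ∃ k, k ∉ {v | gr v ⊆ H} ∧ OddIn k (t • x c) := by
  obtain ⟨j, hj, hjH⟩ := Finset.not_subset.1 hS
  rcases h.odd c j hj with h0 | ⟨k, hk, hk'⟩
  · left; rw [h0, smul_zero]
  · refine Or.inr ⟨k, fun hh => hjH (hh hk), fun ω => ?_⟩
    simp only [Pi.smul_apply, hk' ω, smul_neg]

lemma lower_initial {D : Set ℕ} (hD : IsLowerSet D) (N : ℕ) : ∃ m, ∀ j < N, j ∈ D ↔ j < m := by
  classical
  have hex : ∃ j, j ∉ D ∨ N ≤ j := ⟨N, Or.inr le_rfl⟩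
  refine ⟨Nat.find hex, fun j hj => ⟨fun h => ?_, fun h => ?_⟩⟩
  · by_contra hh
    rcases Nat.find_spec hex with h1 | h1
    · exact h1 (hD (not_lt.1 hh) h)
    · omega
  · have := Nat.find_min hex h
    push Not at this
    exact this.1

theorem global_model {gr : V → Finset κ} {lev : V → ℕ}
    (hfin : ∀ H : Finset κ, {v | gr v ⊆ H}.Finite)
    (hlev : ∀ b, lev b ≠ 0 → (gr b).card = lev b)
    (hpool : ∀ T : Finset κ, T.Nonempty → ({v | gr v ⊆ T ∧ lev v < T.card}.ncard + 2) ^ 3 ≤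
      {b | lev b = T.card ∧ gr b = T}.ncard) :
    ∃ (I : Type) (x : I → ℕ →₀ ((V → Bool) → ℝ)),
      (∀ i, InY lev (x i) ∧ ∀ c, Cyl (x i c)) ∧ (∀ i, x i ≠ 0) ∧ ERK nrm 14 x ∧
      ∀ f : ℕ →₀ ((V → Bool) → ℝ), InY lev f → (∀ c, Cyl (f c)) →
        f ∈ Submodule.span ℝ (Set.range x) := by
  classical
  choose N X S h1 h2 h3 h4 using finite_lift hfin hlev hpool
  have : ∀ T : Finset κ, Finite {x : Vec V // VecOK gr lev T x} :=
    fun T => (finite_vecOK (hfin T)).to_subtype
  obtain ⟨χ, hχ⟩ := Finset.rado_selection (β := fun T => Set {x : Vec V // VecOK gr lev T x})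
    (fun s T => {x | ∃ i, S (s.sup id) i = T ∧ X (s.sup id) i = x.1})
  let I := {p : Finset κ × Vec V // ∃ h : VecOK gr lev p.1 p.2, (⟨p.2, h⟩ :
    {x : Vec V // VecOK gr lev p.1 x}) ∈ χ p.1}
  have hok : ∀ p : I, VecOK gr lev p.1.1 p.1.2 := fun p => p.2.choose
  let x : I → ℕ →₀ ((V → Bool) → ℝ) := fun p => Finsupp.onFinset (range (p.1.1.card + 1)) p.1.2
    (fun c hc => by
      rw [Finset.mem_range]
      by_contra hh
      exact hc ((hok p).supp c (by omega)))
  have hx : ∀ p, ⇑(x p) = p.1.2 := fun p => rfl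
  -- for every finite set of grades there is a finite construction agreeing with `χ`
  have key : ∀ H' : Finset κ, ∃ H, H' ⊆ H ∧
      (∀ p : I, p.1.1 ⊆ H' → ∃ i, S H i = p.1.1 ∧ X H i = p.1.2) ∧
      ∀ i, S H i ⊆ H' → ∃ p : I, p.1.2 = X H i := by
    intro H'
    obtain ⟨t, ht, ht'⟩ := hχ H'.powerset
    refine ⟨t.sup id, Finset.le_sup (f := id) (ht (Finset.mem_powerset_self H')), ?_, ?_⟩
    · intro p hp
      obtain ⟨h, hh⟩ := p.2
      rw [ht' _ (Finset.mem_powerset.2 hp)] at hh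
      exact hh
    · intro i hi
      refine ⟨⟨(S _ i, X _ i), h1 _ i, ?_⟩, rfl⟩
      rw [ht' _ (Finset.mem_powerset.2 hi)]
      exact ⟨i, rfl, rfl⟩
  refine ⟨I, x, fun p => ⟨(hok p).inY, (hok p).cyl (hfin _)⟩, ?_, ?_, ?_⟩
  · intro p h0
    obtain ⟨H, -, hp, -⟩ := key p.1.1
    obtain ⟨i, -, hi⟩ := hp p (Finset.Subset.refl _)
    apply h2 H i
    rw [hi, ← hx, h0]; rfl
  · intro s
    set H' := s.sup (fun p => p.1.1) with hH'
    obtain ⟨H, -, hp, -⟩ := key H'
    choose idx hi1 hi2 using hp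
    let ρ : I → ℕ := fun p => if h : p.1.1 ⊆ H' then (idx p h).val else 0
    have hρ : ∀ p (h : p.1.1 ⊆ H'), ρ p = (idx p h).val := fun p h => dif_pos h
    have hinj : Set.InjOn ρ {p | p.1.1 ⊆ H'} := by
      intro p hp q hq he
      rw [hρ p hp, hρ q hq] at he
      have he' := Fin.ext he
      exact Subtype.ext (Prod.ext (by rw [← hi1 p hp, ← hi1 q hq, he'])
        (by rw [← hi2 p hp, ← hi2 q hq, he']))
    have hfin' : {p : I | p.1.1 ⊆ H'}.Finite := by
      refine Set.Finite.of_finite_image ((Set.finite_Iio (N H)).subset ?_) hinj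
      rintro _ ⟨p, hp, rfl⟩
      rw [hρ p hp]; exact (idx p hp).2
    refine ⟨hfin'.toFinset, ρ, fun p hp => ?_, by simpa using hinj, fun D hD u a => ?_⟩
    · simpa using Finset.le_sup (f := fun p : I => p.1.1) hp
    obtain ⟨m, hm⟩ := lower_initial hD (N H)
    let b : Fin (N H) → ℝ := fun i => ∑ p ∈ u, if p.1.1 ⊆ H' ∧ ρ p = i.val then a p else 0
    have hb : ∀ (P : ℕ → Prop) [DecidablePred P],
        ⇑(∑ p ∈ u with p.1.1 ⊆ H' ∧ P (ρ p), a p • x p) = ∑ i with P i.val, b i • X H i := by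
      intro P _
      simp only [b, Finset.sum_smul]
      rw [Finset.sum_comm, Finsupp.coe_finsetSum, Finset.sum_filter]
      refine Finset.sum_congr rfl (fun p _ => ?_)
      by_cases hp : p.1.1 ⊆ H'
      · by_cases hP : P (ρ p)
        · rw [if_pos ⟨hp, hP⟩, Finset.sum_eq_single (idx p hp)]
          · rw [if_pos ⟨hp, hρ p hp⟩, hi2, Finsupp.coe_smul, hx]
          · intro i _ hi
            rw [if_neg, zero_smul]
            rintro ⟨-, he⟩
            exact hi (Fin.ext (by rw [← he, hρ p hp]))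
          · intro hh
            exact absurd (Finset.mem_filter.2 ⟨Finset.mem_univ _, hρ p hp ▸ hP⟩) hh
        · rw [if_neg (fun h => hP h.2)]
          refine (Finset.sum_eq_zero (fun i hi => ?_)).symm
          rw [if_neg, zero_smul]
          rintro ⟨-, he⟩
          exact hP (he ▸ (Finset.mem_filter.1 hi).2)
      · simp [hp]
    have g0 := hb (fun _ => True)
    simp only [and_true, Finset.filter_true] at g0
    have g1 := h3 H m b _ _ (hb (fun j => j < m)) g0
    have g2 : nrm (∑ p ∈ u with p.1.1 ⊆ H', a p • x p) ≤ nrm (∑ p ∈ u, a p • x p) := by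
      refine nrm_le_nrm (fun c => ?_)
      rw [← Finset.sum_filter_add_sum_filter_not u (fun p => p.1.1 ⊆ H') (fun p => a p • x p)]
      simp only [Finsupp.add_apply, Finsupp.finsetSum_apply, Finsupp.smul_apply, hx]
      refine mabs_le_add (D := {v | gr v ⊆ H'})
        (cyl_sum (fun p _ => ((hok p).cyl (hfin _) c).smul _))
        (dep_sum (fun p hp => dep_smul _ (((hok p).dep c).mono
          (fun v hv => hv.1.trans (Finset.mem_filter.1 hp).2)))) _ _ (fun p hp => ?_)
      exact ⟨((hok p).cyl (hfin _) c).smul _, (hok p).smul_odd (Finset.mem_filter.1 hp).2 _ c⟩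
    refine le_trans (le_of_eq ?_) (g1.trans (mul_le_mul_of_nonneg_left g2 (by norm_num)))
    congr 2
    ext p
    simp only [Finset.mem_filter, Set.mem_ofPred_eq, Set.Finite.mem_toFinset]
    refine and_congr_right (fun _ => and_congr_right (fun hp => hm _ ?_))
    rw [hρ p hp]; exact (idx p hp).2
  · intro f hf hc
    choose U hU using hc
    set H' := f.support.sup (fun c => (U c).sup gr) with hH'
    have hd : ∀ c, DependsOn (f c) {v | gr v ⊆ H'} := by
      intro c
      by_cases h : c ∈ f.support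
      · refine (hU c).mono (fun v hv => ?_)
        exact (Finset.le_sup (f := gr) hv).trans
          (Finset.le_sup (f := fun c => (U c).sup gr) h)
      · rw [Finsupp.notMem_support_iff.1 h]; intro _ _ _; rfl
    obtain ⟨H, hH, -, hp⟩ := key H'
    obtain ⟨a, ha⟩ := h4 H f hf (fun c => (hd c).mono (fun v hv => hv.trans hH))
    have e : ⇑f = ∑ i with S H i ⊆ H', a i • X H i := by
      funext c
      rw [← sub_eq_zero]
      have hc1 : Cyl (f c - (∑ i with S H i ⊆ H', a i • X H i) c) := by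
        rw [sub_eq_add_neg, ← neg_one_smul ℝ, Finset.sum_apply]
        exact Cyl.add ⟨_, hU c⟩ ((cyl_sum (fun i _ => ((h1 H i).cyl (hfin _) c).smul _)).smul _)
      apply eq_zero_of_mabs hc1
      refine (mabs_le_add (D := {v | gr v ⊆ H'}) hc1 ?_
        (Finset.univ.filter (fun i => ¬ S H i ⊆ H')) (fun i => (- a i) • X H i c)
        (fun i hi => ⟨((h1 H i).cyl (hfin _) c).smul _,
          (h1 H i).smul_odd (Finset.mem_filter.1 hi).2 _ c⟩)).trans (le_of_eq ?_)
      · rw [sub_eq_add_neg, ← neg_one_smul ℝ, Finset.sum_apply]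
        exact dep_add (hd c) (dep_smul _ (dep_sum (fun i hi => dep_smul _ (((h1 H i).dep c).mono
          (fun v hv => hv.1.trans (Finset.mem_filter.1 hi).2)))))
      · rw [← mabs_zero (κ := V)]
        congr 1
        rw [ha, ← Finset.sum_filter_add_sum_filter_not Finset.univ (fun i => S H i ⊆ H')]
        simp only [Pi.add_apply, Finset.sum_apply, Pi.smul_apply, neg_smul, Finset.sum_neg_distrib]
        abel
    choose q hq using hp
    have e2 : f = ∑ i : {i // S H i ⊆ H'}, a i • x (q i.1 i.2) := by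
      apply DFunLike.coe_injective
      rw [e, Finsupp.coe_finsetSum, Finset.sum_subtype (p := fun i => S H i ⊆ H') _ (by simp)]
      refine Finset.sum_congr rfl (fun i _ => ?_)
      rw [Finsupp.coe_smul, hx, hq]
    rw [e2]
    exact Submodule.sum_mem _ (fun i _ => Submodule.smul_mem _ _ (Submodule.subset_span ⟨_, rfl⟩))

end Pool.Agent.P.MP_d28077_an
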