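import Pool.Agent.P.MP_d28077_an.Kernel

set_option autoImplicit false

namespace Pool.Agent.P.MP_d28077_an

open Finset

/-- a block `u ⊗ L¹(W)` with root `T`; `u` has component `α c • wal (A c)` in copy `c`, and the dual
vector has component `β c • wal (A c)` -/
structure Item (B κ : Type) where
  α : ℕ → ℤ
  β : ℕ → ℝ
  A : ℕ → Finset B
  W : Finset B
  T : Finset κ

variable {B κ : Type} [Fintype B] [DecidableEq B] [DecidableEq κ]

noncomputable def Item.ker (it : Item B κ) : Ker B := fun c ω c' ω' =>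
  (it.α c * wal (it.A c) ω) * (it.β c' * wal (it.A c') ω') * kap it.W ω ω'

noncomputable def Item.nu (n : ℕ) (it : Item B κ) : ℝ := ∑ c ∈ range n, |(it.α c : ℝ)|

noncomputable def Item.phi (n : ℕ) (it : Item B κ) (c : ℕ) : ℝ := it.nu n * |it.β c|

def Item.setW (it : Item B κ) (W : Finset B) : Item B κ := { it with W := W }

def Item.mulr (gr : B → Finset κ) (it : Item B κ) (k : B) (W : Finset B) : Item B κ :=
  { it with A := fun c => insert k (it.A c), W := W, T := it.T ∪ gr k }

noncomputable def junk (m : ℕ) (b : B) (T : Finset κ) (W : Finset B) : Item B κ :=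
  ⟨fun c => if c = m then 1 else 0, fun c => if c = m then 1 else 0, fun _ => {b}, W, T⟩

noncomputable def Item.mix (n m : ℕ) (it : Item B κ) (b : B) (s : ℤ) : Item B κ :=
  { it with
    α := fun c => if c = m then s * ∑ c ∈ range n, |it.α c| else 2 * it.α c
    β := fun c => if c = m then s / (2 * it.nu n) else it.β c / 4
    A := fun c => if c = m then {b} else it.A c }

omit [Fintype B] [DecidableEq B] [DecidableEq κ] in
lemma Item.nu_nonneg (n : ℕ) (it : Item B κ) : 0 ≤ it.nu n :=
  Finset.sum_nonneg (fun _ _ => abs_nonneg _)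

omit [Fintype B] [DecidableEq B] [DecidableEq κ] in
lemma Item.phi_nonneg (n : ℕ) (it : Item B κ) (c : ℕ) : 0 ≤ it.phi n c :=
  mul_nonneg (it.nu_nonneg n) (abs_nonneg _)

omit [DecidableEq κ] in
lemma prof_ker (n : ℕ) (it : Item B κ) (c' : ℕ) (ω' : B → Bool) :
    prof n it.ker c' ω' = it.phi n c' := by
  unfold prof Item.phi Item.nu Item.ker
  rw [Finset.sum_mul]
  refine Finset.sum_congr rfl (fun c _ => ?_)
  simp only [abs_mul, abs_wal, mul_one, abs_of_nonneg (kap_nonneg _ _ _)]
  rw [← Finset.mul_sum, sum_kap, mul_one]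

lemma ker_insert (gr : B → Finset κ) (it : Item B κ) {k : B} {W : Finset B} (hk : k ∉ W)
    (hA : ∀ c, k ∉ it.A c) :
    (it.setW (insert k W)).ker = (it.setW W).ker + (it.mulr gr k W).ker := by
  funext c ω c' ω'
  simp only [Item.ker, Item.setW, Item.mulr, Pi.add_apply, kap_insert hk, wal_insert (hA c),
    wal_insert (hA c')]
  ring

omit [Fintype B] [DecidableEq B] [DecidableEq κ] in
lemma nu_junk {n m : ℕ} (hm : m < n) (b : B) (T : Finset κ) (W : Finset B) :
    (junk m b T W).nu n = 1 := by
  unfold Item.nu junk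
  rw [Finset.sum_eq_single m]
  · simp
  · intro c _ hc; simp [hc]
  · intro h; exact absurd (Finset.mem_range.2 hm) h

omit [Fintype B] [DecidableEq B] [DecidableEq κ] in
lemma phi_junk {n m : ℕ} (hm : m < n) (b : B) (T : Finset κ) (W : Finset B) (c : ℕ) :
    (junk m b T W).phi n c = if c = m then 1 else 0 := by
  unfold Item.phi
  rw [nu_junk hm]
  unfold junk
  by_cases h : c = m <;> simp [h]

omit [Fintype B] [DecidableEq B] [DecidableEq κ] in
lemma nu_mix {n m : ℕ} (hm : m < n) (it : Item B κ) (h0 : it.α m = 0) (b : B) {s : ℤ}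
    (hs : |s| = 1) : (it.mix n m b s).nu n = 3 * it.nu n := by
  have hs' : |(s : ℝ)| = 1 := by exact_mod_cast hs
  have hnu := it.nu_nonneg n
  have e : ((∑ c ∈ range n, |it.α c| : ℤ) : ℝ) = it.nu n := by
    unfold Item.nu; push_cast; rfl
  have : ∀ c ∈ range n, |((it.mix n m b s).α c : ℝ)| =
      2 * |(it.α c : ℝ)| + if c = m then it.nu n else 0 := by
    intro c _
    unfold Item.mix
    by_cases h : c = m
    · subst h
      simp only [if_true, h0, Int.cast_mul, e, abs_mul, hs', abs_of_nonneg hnu]
      simp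
    · simp [h, abs_mul]
  unfold Item.nu at *
  rw [Finset.sum_congr rfl this, Finset.sum_add_distrib, ← Finset.mul_sum,
    Finset.sum_ite_eq' (range n) m, if_pos (Finset.mem_range.2 hm)]
  ring

omit [Fintype B] [DecidableEq B] [DecidableEq κ] in
lemma phi_mix {n m : ℕ} (hm : m < n) (it : Item B κ) (h0 : it.α m = 0) (hnu : it.nu n ≠ 0) (b : B)
    {s : ℤ} (hs : |s| = 1) (c : ℕ) :
    (it.mix n m b s).phi n c = if c = m then 3 / 2 else 3 / 4 * it.phi n c := by
  have hs' : |(s : ℝ)| = 1 := by exact_mod_cast hs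
  have hnu' := it.nu_nonneg n
  unfold Item.phi
  rw [nu_mix hm it h0 b hs]
  unfold Item.mix
  by_cases h : c = m
  · simp only [h, if_true, abs_div, hs', abs_mul, abs_of_nonneg hnu']
    field_simp
    norm_num
  · simp only [h, if_false, abs_div]
    norm_num
    ring

omit [DecidableEq κ] [DecidableEq B] in
lemma ker_mix {n m : ℕ} (it : Item B κ) (h0 : it.α m = 0) (h1 : it.β m = 0) (hnu : it.nu n ≠ 0)
    (b : B) :
    (it.mix n m b 1).ker + (it.mix n m b (-1)).ker = it.ker + (junk m b it.T it.W).ker := by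
  have e : ((∑ c ∈ range n, |it.α c| : ℤ) : ℝ) = it.nu n := by
    unfold Item.nu; push_cast; rfl
  funext c ω c' ω'
  simp only [Item.ker, Item.mix, junk, Pi.add_apply]
  by_cases h : c = m <;> by_cases h' : c' = m
  · simp only [h, h', if_true, h0, h1, Int.cast_mul, e]
    push_cast
    field_simp
    ring
  · simp only [h, h', if_true, if_false, h0, Int.cast_mul, e]
    push_cast
    ring
  · simp only [h, h', if_true, if_false, h1]
    push_cast
    ring
  · simp only [h, h', if_false]
    push_cast
    ring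

/-- well-formedness of a block using the copies `< m` -/
structure WF0 (gr : B → Finset κ) (lev : B → ℕ) (H : Finset κ) (n m : ℕ) (it : Item B κ) :
    Prop where
  supp : ∀ c, m ≤ c → it.α c = 0 ∧ it.β c = 0
  levW : ∀ k ∈ it.W, lev k < m
  pair : ∑ c ∈ range n, (it.α c : ℝ) * it.β c = 1
  size1 : it.nu n * 3 ≤ 3 ^ m
  size2 : it.nu n ≤ 3 ^ it.T.card
  disj : ∀ c, ∀ k ∈ it.W, k ∉ it.A c
  sub : ∀ c, ∀ k ∈ it.A c, gr k ⊆ it.T
  cov : ∀ c, it.α c ≠ 0 → ∀ j ∈ it.T, ∃ k ∈ it.A c, j ∈ gr k
  levA : ∀ c, it.α c ≠ 0 → ∀ k ∈ it.A c, lev k ≤ c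
  levW' : ∀ c, it.α c ≠ 0 → ∀ k ∈ it.W, lev k ≤ c
  wit : ∀ c, it.α c ≠ 0 → c ≠ 0 → ∃ b ∈ it.A c, lev b = c
  TH : it.T ⊆ H

/-- well-formed, and finished if the root is small -/
def WF (gr : B → Finset κ) (lev : B → ℕ) (H : Finset κ) (n m : ℕ) (it : Item B κ) : Prop :=
  WF0 gr lev H n m it ∧ (it.T.card < m → ∀ k ∈ it.W, gr k ⊆ it.T)

variable {gr : B → Finset κ} {lev : B → ℕ} {H : Finset κ} {n m : ℕ}

omit [Fintype B] [DecidableEq B] [DecidableEq κ] in
lemma WF0.nu_ne {it : Item B κ} (h : WF0 gr lev H n m it) : it.nu n ≠ 0 := by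
  intro h0
  have h1 := (Finset.sum_eq_zero_iff_of_nonneg (fun c _ => abs_nonneg (it.α c : ℝ))).1 h0
  have h2 := h.pair
  rw [Finset.sum_eq_zero (fun c hc => by rw [abs_eq_zero.1 (h1 c hc), zero_mul])] at h2
  exact zero_ne_one h2

omit [Fintype B] [DecidableEq B] [DecidableEq κ] in
lemma WF0.succ {it : Item B κ} (h : WF0 gr lev H n m it) : WF0 gr lev H n (m + 1) it :=
  { h with
    supp := fun c hc => h.supp c (by omega)
    levW := fun k hk => by have := h.levW k hk; omega
    size1 := h.size1.trans (pow_le_pow_right₀ (by norm_num) (by omega)) }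

omit [Fintype B] [DecidableEq B] [DecidableEq κ] in
lemma WF0.setW {it : Item B κ} (h : WF0 gr lev H n m it) {W : Finset B} (hW : W ⊆ it.W) :
    WF0 gr lev H n m (it.setW W) :=
  { h with
    levW := fun k hk => h.levW k (hW hk)
    disj := fun c k hk => h.disj c k (hW hk)
    levW' := fun c hc k hk => h.levW' c hc k (hW hk) }

omit [Fintype B] in
lemma WF0.mulr (hH : ∀ b, gr b ⊆ H) {it : Item B κ} (h : WF0 gr lev H n m it) {W : Finset B}
    (hW : W ⊆ it.W) {k : B} (hk : k ∈ it.W) (hkW : k ∉ W) :
    WF0 gr lev H n m (it.mulr gr k W) where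
  supp := h.supp
  levW := fun j hj => h.levW j (hW hj)
  pair := h.pair
  size1 := h.size1
  size2 := h.size2.trans (pow_le_pow_right₀ (by norm_num)
    (Finset.card_le_card Finset.subset_union_left))
  disj := fun c j hj hj' => by
    rcases Finset.mem_insert.1 hj' with rfl | hj'
    · exact hkW hj
    · exact h.disj c j (hW hj) hj'
  sub := fun c j hj => by
    rcases Finset.mem_insert.1 hj with rfl | hj
    · exact Finset.subset_union_right
    · exact (h.sub c j hj).trans Finset.subset_union_left
  cov := fun c hc j hj => by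
    rcases Finset.mem_union.1 hj with hj | hj
    · obtain ⟨i, hi, hji⟩ := h.cov c hc j hj
      exact ⟨i, Finset.mem_insert_of_mem hi, hji⟩
    · exact ⟨k, Finset.mem_insert_self _ _, hj⟩
  levA := fun c hc j hj => by
    rcases Finset.mem_insert.1 hj with rfl | hj
    · exact h.levW' c hc _ hk
    · exact h.levA c hc j hj
  levW' := fun c hc j hj => h.levW' c hc j (hW hj)
  wit := fun c hc hc0 => by
    obtain ⟨b, hb, hb'⟩ := h.wit c hc hc0
    exact ⟨b, Finset.mem_insert_of_mem hb, hb'⟩
  TH := Finset.union_subset h.TH (hH k)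

omit [Fintype B] [DecidableEq B] [DecidableEq κ] in
lemma wf0_junk (hH : ∀ b, gr b ⊆ H) (hm : m < n) {b : B} (hb : lev b = m) {W : Finset B}
    (hbW : b ∉ W) (hW : ∀ k ∈ W, lev k ≤ m) : WF0 gr lev H n (m + 1) (junk m b (gr b) W) where
  supp := fun c hc => by
    have : c ≠ m := by omega
    simp [junk, this]
  levW := fun k hk => Nat.lt_succ_of_le (hW k hk)
  pair := by
    unfold junk
    rw [Finset.sum_eq_single m]
    · simp
    · intro c _ hc; simp [hc]
    · intro h; exact absurd (Finset.mem_range.2 hm) h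
  size1 := by
    rw [nu_junk hm, pow_succ]
    have : (1:ℝ) ≤ 3 ^ m := one_le_pow₀ (by norm_num)
    linarith
  size2 := by rw [nu_junk hm]; exact one_le_pow₀ (by norm_num)
  disj := fun c k hk hk' => by
    have : k = b := by simpa [junk] using hk'
    exact hbW (this ▸ hk)
  sub := fun c k hk => by
    have : k = b := by simpa [junk] using hk
    subst this; exact Finset.Subset.refl _
  cov := fun c _ j hj => ⟨b, by simp [junk], hj⟩
  levA := fun c hc k hk => by
    have h1 : k = b := by simpa [junk] using hk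
    have h2 : c = m := by simpa [junk] using hc
    rw [h1, h2, hb]
  levW' := fun c hc k hk => by
    have h2 : c = m := by simpa [junk] using hc
    rw [h2]; exact hW k hk
  wit := fun c hc _ => by
    have h2 : c = m := by simpa [junk] using hc
    exact ⟨b, by simp [junk], by rw [hb, h2]⟩
  TH := hH b

omit [Fintype B] [DecidableEq B] [DecidableEq κ] in
lemma WF0.mix {it : Item B κ} (h : WF0 gr lev H n m it) (hm : m < n) (hT : it.T.card = m) {b : B}
    (hb : lev b = m) (hb' : gr b = it.T) {s : ℤ} (hs : |s| = 1) :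
    WF0 gr lev H n (m + 1) (it.mix n m b s) where
  supp := fun c hc => by
    have h1 : c ≠ m := by omega
    have h2 := h.supp c (by omega)
    simp [Item.mix, h1, h2.1, h2.2]
  levW := fun k hk => by have := h.levW k hk; omega
  pair := by
    have e : ((∑ c ∈ range n, |it.α c| : ℤ) : ℝ) = it.nu n := by
      unfold Item.nu; push_cast; rfl
    have hnu := h.nu_ne
    have hs2 : (s : ℝ) * s = 1 := by
      have : |(s : ℝ)| = 1 := by exact_mod_cast hs
      rw [← abs_mul_abs_self, this, one_mul]
    have : ∀ c ∈ range n, ((it.mix n m b s).α c : ℝ) * (it.mix n m b s).β c =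
        (1 / 2) * ((it.α c : ℝ) * it.β c) + if c = m then 1 / 2 else 0 := by
      intro c _
      unfold Item.mix
      by_cases hc : c = m
      · subst hc
        simp only [if_true, (h.supp c le_rfl).1, Int.cast_mul, e]
        field_simp
        simp [sq, hs2]
      · simp only [hc, if_false]; push_cast; ring
    rw [Finset.sum_congr rfl this, Finset.sum_add_distrib, ← Finset.mul_sum, h.pair,
      Finset.sum_ite_eq' (range n) m, if_pos (Finset.mem_range.2 hm)]
    norm_num
  size1 := by
    rw [nu_mix hm it (h.supp m le_rfl).1 b hs, pow_succ]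
    have := h.size1
    linarith
  size2 := by
    rw [nu_mix hm it (h.supp m le_rfl).1 b hs]
    have := h.size1
    change 3 * it.nu n ≤ 3 ^ it.T.card
    rw [hT]; linarith
  disj := fun c k hk hk' => by
    unfold Item.mix at hk'
    by_cases hc : c = m
    · have h1 : k = b := by simpa [hc] using hk'
      have := h.levW k hk
      rw [h1] at this; omega
    · exact h.disj c k hk (by simpa [hc] using hk')
  sub := fun c k hk => by
    unfold Item.mix at hk
    by_cases hc : c = m
    · have h1 : k = b := by simpa [hc] using hk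
      rw [h1, hb']; exact Finset.Subset.refl _
    · exact h.sub c k (by simpa [hc] using hk)
  cov := fun c hc j hj => by
    by_cases hcm : c = m
    · exact ⟨b, by simp [Item.mix, hcm], by rw [hb']; exact hj⟩
    · obtain ⟨k, hk, hjk⟩ := h.cov c (by simpa [Item.mix, hcm] using hc) j hj
      exact ⟨k, by simpa [Item.mix, hcm] using hk, hjk⟩
  levA := fun c hc k hk => by
    by_cases hcm : c = m
    · have h1 : k = b := by simpa [Item.mix, hcm] using hk
      rw [h1, hb, hcm]
    · exact h.levA c (by simpa [Item.mix, hcm] using hc) k (by simpa [Item.mix, hcm] using hk)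
  levW' := fun c hc k hk => by
    by_cases hcm : c = m
    · rw [hcm]; exact (h.levW k hk).le
    · exact h.levW' c (by simpa [Item.mix, hcm] using hc) k hk
  wit := fun c hc hc0 => by
    by_cases hcm : c = m
    · exact ⟨b, by simp [Item.mix, hcm], by rw [hb, hcm]⟩
    · obtain ⟨k, hk, hk'⟩ := h.wit c (by simpa [Item.mix, hcm] using hc) hc0
      exact ⟨k, by simpa [Item.mix, hcm] using hk, hk'⟩
  TH := h.TH

end Pool.Agent.P.MP_d28077_an
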