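import Pool.Agent.P.MP_d28077_an.Defs

set_option autoImplicit false

namespace Pool.Agent.P.MP_d28077_an

open Finset

section general
variable {B : Type} [DecidableEq B]

/-- flip one coordinate -/
def flip (k : B) (ω : B → Bool) : B → Bool := Function.update ω k (!ω k)

lemma flip_self (k : B) (ω : B → Bool) : flip k ω k = !ω k := by simp [flip]

lemma flip_ne {k j : B} (h : j ≠ k) (ω : B → Bool) : flip k ω j = ω j := by
  simp [flip, Function.update_of_ne h]

lemma flip_flip (k : B) (ω : B → Bool) : flip k (flip k ω) = ω := by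
  funext j
  by_cases h : j = k
  · subst h; simp [flip_self]
  · simp [flip_ne h]

lemma flip_comm (k j : B) (ω : B → Bool) : flip k (flip j ω) = flip j (flip k ω) := by
  by_cases hkj : k = j
  · subst hkj; rfl
  funext i
  by_cases h : i = k
  · subst h; rw [flip_self, flip_ne hkj, flip_ne hkj, flip_self]
  · by_cases h' : i = j
    · subst h'; rw [flip_ne h, flip_self, flip_self, flip_ne h]
    · rw [flip_ne h, flip_ne h', flip_ne h', flip_ne h]

/-- odd in the coordinate `k` -/
def OddIn (k : B) (f : (B → Bool) → ℝ) : Prop := ∀ ω, f (flip k ω) = - f ω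

lemma dep_flip {f : (B → Bool) → ℝ} {s : Set B} (hf : DependsOn f s) {k : B} (hk : k ∉ s)
    (ω : B → Bool) : f (flip k ω) = f ω :=
  hf (fun i hi => flip_ne (fun (h : i = k) => hk (h ▸ hi)) ω)

/-- Rademacher function -/
def rad (k : B) (ω : B → Bool) : ℝ := if ω k then -1 else 1

omit [DecidableEq B] in
lemma rad_mul_self (k : B) (ω : B → Bool) : rad k ω * rad k ω = 1 := by
  unfold rad; split_ifs <;> norm_num

omit [DecidableEq B] in
lemma abs_rad (k : B) (ω : B → Bool) : |rad k ω| = 1 := by
  unfold rad; split_ifs <;> norm_num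

lemma rad_flip_self (k : B) (ω : B → Bool) : rad k (flip k ω) = - rad k ω := by
  unfold rad; rw [flip_self]; cases ω k <;> simp

lemma rad_flip_ne {k j : B} (h : j ≠ k) (ω : B → Bool) : rad j (flip k ω) = rad j ω := by
  unfold rad; rw [flip_ne h]

omit [DecidableEq B] in
lemma rad_congr {k : B} {ω ω' : B → Bool} (h : ω k = ω' k) : rad k ω = rad k ω' := by
  unfold rad; rw [h]

omit [DecidableEq B] in
lemma one_add_rad_nonneg (k : B) (ω ω' : B → Bool) : 0 ≤ 1 + rad k ω * rad k ω' := by
  unfold rad; split_ifs <;> norm_num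

omit [DecidableEq B] in
lemma eq_of_one_add_rad_ne {k : B} {ω ω' : B → Bool} (h : 1 + rad k ω * rad k ω' ≠ 0) :
    ω k = ω' k := by
  unfold rad at h
  cases h1 : ω k <;> cases h2 : ω' k <;> simp_all

/-- Walsh function -/
def wal (A : Finset B) (ω : B → Bool) : ℝ := ∏ k ∈ A, rad k ω

omit [DecidableEq B] in
lemma abs_wal (A : Finset B) (ω : B → Bool) : |wal A ω| = 1 := by
  unfold wal; rw [Finset.abs_prod]; simp [abs_rad]

omit [DecidableEq B] in
lemma wal_mul_self (A : Finset B) (ω : B → Bool) : wal A ω * wal A ω = 1 := by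
  unfold wal; rw [← Finset.prod_mul_distrib]; simp [rad_mul_self]

lemma wal_insert {A : Finset B} {k : B} (h : k ∉ A) (ω : B → Bool) :
    wal (insert k A) ω = rad k ω * wal A ω := by
  unfold wal; rw [Finset.prod_insert h]

omit [DecidableEq B] in
lemma wal_dep (A : Finset B) : DependsOn (wal A) (A : Set B) := by
  intro ω ω' h
  unfold wal
  exact Finset.prod_congr rfl (fun k hk => rad_congr (h k hk))

lemma wal_odd {A : Finset B} {k : B} (h : k ∈ A) : OddIn k (wal A) := by
  intro ω
  rw [← Finset.insert_erase h, wal_insert (Finset.notMem_erase k A), wal_insert (Finset.notMem_erase k A),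
    rad_flip_self, dep_flip (wal_dep _) (by simp)]
  ring

omit [DecidableEq B] in
lemma wal_int (A : Finset B) (ω : B → Bool) : ∃ z : ℤ, wal A ω = z := by
  have h := abs_wal A ω
  rcases abs_eq (by norm_num : (0:ℝ) ≤ 1) |>.1 h with h | h
  · exact ⟨1, by simp [h]⟩
  · exact ⟨-1, by simp [h]⟩

end general

section finite
variable {B : Type} [Fintype B] [DecidableEq B]

lemma sum_odd {k : B} {f : (B → Bool) → ℝ} (hf : OddIn k f) : ∑ ω, f ω = 0 := by
  have h : ∑ ω, f (flip k ω) = ∑ ω, f ω :=
    Equiv.sum_comp (Function.Involutive.toPerm (flip k) (flip_flip k)) f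
  have h2 : ∑ ω, f (flip k ω) = - ∑ ω, f ω := by
    rw [← Finset.sum_neg_distrib]; exact Finset.sum_congr rfl (fun ω _ => hf ω)
  linarith

/-- kernel of the conditional expectation onto the coordinates in `W` -/
noncomputable def kap (W : Finset B) (ω ω' : B → Bool) : ℝ :=
  (∏ k ∈ W, (1 + rad k ω * rad k ω')) / 2 ^ Fintype.card B

omit [DecidableEq B] in
lemma kap_nonneg (W : Finset B) (ω ω' : B → Bool) : 0 ≤ kap W ω ω' :=
  div_nonneg (Finset.prod_nonneg (fun k _ => one_add_rad_nonneg k ω ω')) (by positivity)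

omit [DecidableEq B] in
lemma kap_symm (W : Finset B) (ω ω' : B → Bool) : kap W ω ω' = kap W ω' ω := by
  unfold kap; congr 1; exact Finset.prod_congr rfl (fun k _ => by ring)

lemma kap_insert {W : Finset B} {k : B} (h : k ∉ W) (ω ω' : B → Bool) :
    kap (insert k W) ω ω' = kap W ω ω' + rad k ω * rad k ω' * kap W ω ω' := by
  unfold kap; rw [Finset.prod_insert h]; ring

omit [DecidableEq B] in
lemma kap_dep (W : Finset B) (ω' : B → Bool) : DependsOn (fun ω => kap W ω ω') (W : Set B) := by
  intro ω₁ ω₂ h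
  have : ∏ k ∈ W, (1 + rad k ω₁ * rad k ω') = ∏ k ∈ W, (1 + rad k ω₂ * rad k ω') :=
    Finset.prod_congr rfl (fun k hk => by rw [rad_congr (h k hk)])
  simp only [kap, this]

omit [DecidableEq B] in
lemma agree_of_kap_ne {W : Finset B} {ω ω' : B → Bool} (h : kap W ω ω' ≠ 0) :
    ∀ k ∈ W, ω k = ω' k := by
  intro k hk
  unfold kap at h
  have h1 := (div_ne_zero_iff.1 h).1
  exact eq_of_one_add_rad_ne (Finset.prod_ne_zero_iff.1 h1 k hk)

lemma sum_kap (W : Finset B) (ω' : B → Bool) : ∑ ω, kap W ω ω' = 1 := by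
  induction W using Finset.induction_on with
  | empty =>
    simp only [kap, Finset.prod_empty, Finset.sum_const, Finset.card_univ, Fintype.card_fun,
      Fintype.card_bool, nsmul_eq_mul]
    push_cast
    field_simp
  | insert k W hk ih =>
    simp only [kap_insert hk, Finset.sum_add_distrib, ih]
    have : ∑ ω, rad k ω * rad k ω' * kap W ω ω' = 0 := by
      apply sum_odd (k := k)
      intro ω
      have := dep_flip (kap_dep W ω') (k := k) (by simpa using hk) ω
      simp only [rad_flip_self, this]; ring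
    rw [this]; ring

lemma kap_apply_dep {W : Finset B} {f : (B → Bool) → ℝ} (hf : DependsOn f (W : Set B))
    (ω : B → Bool) : ∑ ω', kap W ω ω' * f ω' = f ω := by
  have : ∀ ω', kap W ω ω' * f ω' = kap W ω' ω * f ω := by
    intro ω'
    rw [kap_symm W ω ω']
    by_cases h : kap W ω' ω = 0
    · simp [h]
    · rw [hf (fun k hk => agree_of_kap_ne h k hk)]
  simp only [this, ← Finset.sum_mul, sum_kap, one_mul]

lemma kap_apply_odd {W : Finset B} {f : (B → Bool) → ℝ} {k : B} (hk : k ∉ W) (hf : OddIn k f)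
    (ω : B → Bool) : ∑ ω', kap W ω ω' * f ω' = 0 := by
  apply sum_odd (k := k)
  intro ω'
  have := dep_flip (kap_dep W ω) (k := k) (by simpa using hk) ω'
  simp only [kap_symm W ω, this, hf ω']; ring

/-- kernels on countably many copies of the cube -/
abbrev Ker (B : Type) : Type := ℕ → (B → Bool) → ℕ → (B → Bool) → ℝ

/-- column norm -/
noncomputable def prof (n : ℕ) (M : Ker B) (c' : ℕ) (ω' : B → Bool) : ℝ :=
  ∑ c ∈ range n, ∑ ω, |M c ω c' ω'|

lemma prof_nonneg (n : ℕ) (M : Ker B) (c' : ℕ) (ω' : B → Bool) : 0 ≤ prof n M c' ω' :=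
  Finset.sum_nonneg (fun _ _ => Finset.sum_nonneg (fun _ _ => abs_nonneg _))

lemma prof_add_le (n : ℕ) (M M' : Ker B) (c' : ℕ) (ω' : B → Bool) :
    prof n (M + M') c' ω' ≤ prof n M c' ω' + prof n M' c' ω' := by
  unfold prof
  rw [← Finset.sum_add_distrib]
  refine Finset.sum_le_sum (fun c _ => ?_)
  rw [← Finset.sum_add_distrib]
  exact Finset.sum_le_sum (fun ω _ => abs_add_le _ _)

lemma prof_zero (n : ℕ) (c' : ℕ) (ω' : B → Bool) : prof n (0 : Ker B) c' ω' = 0 := by
  simp [prof]

end finite

end Pool.Agent.P.MP_d28077_an
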