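import Pool.Agent.P.MP_d28077_an.Rounds2

set_option autoImplicit false

namespace Pool.Agent.P.MP_d28077_an

open Finset

/-- vectors of the model space -/
abbrev Vec (B : Type) : Type := ℕ → (B → Bool) → ℝ

/-- a vector of pure grade `S` in the model space, with bounded integer values -/
structure VecOK {B κ : Type} [DecidableEq B] (gr : B → Finset κ) (lev : B → ℕ) (S : Finset κ)
    (x : Vec B) : Prop where
  dep : ∀ c, DependsOn (x c) {v | gr v ⊆ S ∧ lev v ≤ c}
  odd : ∀ c, ∀ j ∈ S, x c = 0 ∨ ∃ k, j ∈ gr k ∧ OddIn k (x c)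
  wit : ∀ c, c ≠ 0 → x c = 0 ∨ ∃ b, lev b = c ∧ OddIn b (x c)
  supp : ∀ c, S.card < c → x c = 0
  int : ∀ c ω, ∃ z : ℤ, x c ω = z ∧ |z| ≤ 3 ^ S.card

structure Leaf (B κ : Type) where
  x : Vec B
  y : Vec B
  S : Finset κ

variable {B κ : Type} [Fintype B] [DecidableEq B] [DecidableEq κ]

def Leaf.ker (l : Leaf B κ) : Ker B := fun c ω c' ω' => l.x c ω * l.y c' ω'

/-- pairing -/
noncomputable def pr (n : ℕ) (y x : Vec B) : ℝ := ∑ c ∈ range n, ∑ ω, y c ω * x c ω

def LeafOK (gr : B → Finset κ) (lev : B → ℕ) (H : Finset κ) (n : ℕ) (l : Leaf B κ) : Prop :=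
  l.S ⊆ H ∧ VecOK gr lev l.S l.x ∧ pr n l.y l.x = 1

def GoodL (n : ℕ) : Ker B → List (Leaf B κ) → Prop
  | _, [] => True
  | S, l :: L => (∀ c ω, prof n S c ω ≤ 14) ∧ GoodL n (S + l.ker) L

def lsum (L : List (Leaf B κ)) : Ker B := (L.map Leaf.ker).sum

omit [DecidableEq κ] in
lemma goodL_append {n : ℕ} {L L' : List (Leaf B κ)} : ∀ {S : Ker B}, GoodL n S L →
    GoodL n (S + lsum L) L' → GoodL n S (L ++ L') := by
  induction L with
  | nil => intro S _ h; simpa [lsum] using h
  | cons x L ih =>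
    intro S h h'
    refine ⟨h.1, ih h.2 ?_⟩
    have : lsum (x :: L) = x.ker + lsum L := by simp [lsum]
    rwa [this, ← add_assoc] at h'

omit [DecidableEq κ] in
lemma goodL_take {n : ℕ} {L : List (Leaf B κ)} : ∀ {S : Ker B}, GoodL n S L →
    (∀ c ω, prof n (S + lsum L) c ω ≤ 14) → ∀ m c ω, prof n (S + lsum (L.take m)) c ω ≤ 14 := by
  induction L with
  | nil => intro S _ h m; simpa using h
  | cons x L ih =>
    intro S h h' m
    have e : ∀ L' : List (Leaf B κ), lsum (x :: L') = x.ker + lsum L' := by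
      intro L'; simp [lsum]
    cases m with
    | zero => simpa [lsum] using h.1
    | succ m =>
      rw [List.take_succ_cons, e, ← add_assoc]
      rw [e, ← add_assoc] at h'
      exact ih h.2 h' m

def LSeg (gr : B → Finset κ) (lev : B → ℕ) (H : Finset κ) (n : ℕ) (S M : Ker B) : Prop :=
  ∃ L : List (Leaf B κ), GoodL n S L ∧ lsum L = M ∧ ∀ x ∈ L, LeafOK gr lev H n x

variable {gr : B → Finset κ} {lev : B → ℕ} {H : Finset κ} {n m : ℕ}

omit [DecidableEq κ] in
lemma LSeg.nil (S : Ker B) : LSeg gr lev H n S 0 := ⟨[], trivial, by simp [lsum], by simp⟩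

omit [DecidableEq κ] in
lemma LSeg.single {S : Ker B} {x : Leaf B κ} (h : ∀ c ω, prof n S c ω ≤ 14)
    (hx : LeafOK gr lev H n x) : LSeg gr lev H n S x.ker :=
  ⟨[x], ⟨h, trivial⟩, by simp [lsum], by simpa using hx⟩

omit [DecidableEq κ] in
lemma LSeg.append {S M M' : Ker B} (h : LSeg gr lev H n S M) (h' : LSeg gr lev H n (S + M) M') :
    LSeg gr lev H n S (M + M') := by
  obtain ⟨L, h1, h2, h3⟩ := h
  obtain ⟨L', h1', h2', h3'⟩ := h'
  refine ⟨L ++ L', goodL_append h1 (h2 ▸ h1'), by rw [← h2, ← h2']; simp [lsum], ?_⟩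
  intro x hx
  rcases List.mem_append.1 hx with hx | hx
  · exact h3 x hx
  · exact h3' x hx

/-- the trace of `ω` on `W` -/
def tr (W : Finset B) (ω : B → Bool) : Finset B := W.filter (fun k => ω k = true)

omit [Fintype B] [DecidableEq B] in
lemma tr_congr {W : Finset B} {ω ω' : B → Bool} (h : ∀ k ∈ W, ω k = ω' k) : tr W ω = tr W ω' := by
  unfold tr
  exact Finset.filter_congr (fun k hk => by rw [h k hk])

noncomputable def atom (it : Item B κ) (σ : Finset B) : Leaf B κ :=
  ⟨fun c ω => it.α c * wal (it.A c) ω * (if tr it.W ω = σ then 1 else 0),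
   fun c ω => it.β c * wal (it.A c) ω * kap it.W ω (fun k => decide (k ∈ σ)), it.T⟩

omit [DecidableEq κ] in
lemma atom_ker (it : Item B κ) (σ : Finset B) (c : ℕ) (ω : B → Bool) (c' : ℕ) (ω' : B → Bool) :
    (atom it σ).ker c ω c' ω' = (if tr it.W ω = σ then 1 else 0) * it.ker c ω c' ω' := by
  simp only [Leaf.ker, atom, Item.ker]
  by_cases h : tr it.W ω = σ
  · have : kap it.W ω' (fun k => decide (k ∈ σ)) = kap it.W ω ω' := by
      rw [kap_symm]
      apply kap_dep it.W ω'
      intro k hk
      rw [← h]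
      simp only [tr, Finset.mem_filter, Finset.mem_coe.1 hk, true_and]
      cases ω k <;> simp
    rw [this, if_pos h]; ring
  · simp [h]

omit [DecidableEq κ] in
lemma atom_ok (hlev : ∀ b, lev b ≠ 0 → (gr b).card = lev b) {it : Item B κ}
    (h : WF0 gr lev H n m it) (hmn : m ≤ n) (hW : ∀ k ∈ it.W, gr k ⊆ it.T) {σ : Finset B}
    (hσ : σ ⊆ it.W) : LeafOK gr lev H n (atom it σ) := by
  have hz : ∀ c, it.α c = 0 → (atom it σ).x c = 0 := by
    intro c hc; funext ω; simp [atom, hc]
  have hodd : ∀ c, ∀ k ∈ it.A c, OddIn k ((atom it σ).x c) := by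
    intro c k hk ω
    have h1 : tr it.W (flip k ω) = tr it.W ω :=
      tr_congr (fun j hj => flip_ne (fun (e : j = k) => h.disj c j hj (e ▸ hk)) ω)
    simp only [atom, h1, wal_odd hk ω]
    ring
  refine ⟨h.TH, ⟨?_, ?_, ?_, ?_, ?_⟩, ?_⟩
  · intro c
    by_cases hc : it.α c = 0
    · rw [hz c hc]; intro _ _ _; rfl
    · intro ω ω' he
      have h1 : wal (it.A c) ω = wal (it.A c) ω' :=
        wal_dep _ (fun k hk => he k ⟨h.sub c k hk, h.levA c hc k hk⟩)
      have h2 : tr it.W ω = tr it.W ω' :=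
        tr_congr (fun k hk => he k ⟨hW k hk, h.levW' c hc k hk⟩)
      simp only [atom, h1, h2]
  · intro c j hj
    by_cases hc : it.α c = 0
    · exact Or.inl (hz c hc)
    · obtain ⟨k, hk, hjk⟩ := h.cov c hc j hj
      exact Or.inr ⟨k, hjk, hodd c k hk⟩
  · intro c hc0
    by_cases hc : it.α c = 0
    · exact Or.inl (hz c hc)
    · obtain ⟨k, hk, hk'⟩ := h.wit c hc hc0
      exact Or.inr ⟨k, hk', hodd c k hk⟩
  · intro c hc
    apply hz
    by_contra hne
    have hc' : it.T.card < c := hc
    obtain ⟨b, hb, hb'⟩ := h.wit c hne (by omega)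
    have h1 := hlev b (by omega)
    have h2 := Finset.card_le_card (h.sub c b hb)
    omega
  · intro c ω
    have hα : |it.α c| ≤ 3 ^ it.T.card := by
      by_cases hc : c < n
      · have h1 : |(it.α c : ℝ)| ≤ it.nu n :=
          Finset.single_le_sum (f := fun c => |(it.α c : ℝ)|) (fun _ _ => abs_nonneg _)
            (Finset.mem_range.2 hc)
        have h2 := h1.trans h.size2
        exact_mod_cast h2
      · rw [(h.supp c (by omega)).1]; positivity
    have hw := abs_wal (it.A c) ω
    obtain ⟨z, hz'⟩ := wal_int (it.A c) ω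
    rw [hz'] at hw
    have hw' : |z| = 1 := by exact_mod_cast hw
    by_cases ht : tr it.W ω = σ
    · refine ⟨it.α c * z, by simp [atom, ht, hz'], ?_⟩
      rw [abs_mul, hw', mul_one]; exact hα
    · exact ⟨0, by simp [atom, ht], by positivity⟩
  · unfold pr
    rw [← h.pair]
    refine Finset.sum_congr rfl (fun c _ => ?_)
    have : ∀ ω, (atom it σ).y c ω * (atom it σ).x c ω =
        (it.α c * it.β c) * kap it.W ω (fun k => decide (k ∈ σ)) := by
      intro ω
      simp only [atom]
      by_cases hk : kap it.W ω (fun k => decide (k ∈ σ)) = 0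
      · simp [hk]
      · have h1 : tr it.W ω = σ := by
          rw [tr_congr (agree_of_kap_ne hk)]
          ext k
          simp only [tr, Finset.mem_filter, decide_eq_true_eq]
          exact ⟨fun h => h.2, fun h => ⟨hσ h, h⟩⟩
        rw [if_pos h1]
        have := wal_mul_self (it.A c) ω
        linear_combination (it.α c * it.β c * kap it.W ω (fun k => decide (k ∈ σ))) * this
    simp only [this, ← Finset.mul_sum, sum_kap, mul_one]

omit [DecidableEq κ] in
lemma atomise (hlev : ∀ b, lev b ≠ 0 → (gr b).card = lev b) {it : Item B κ}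
    (h : WF0 gr lev H n m it) (hmn : m ≤ n) (hW : ∀ k ∈ it.W, gr k ⊆ it.T) {S : Ker B}
    (hS : Bd n S it) : LSeg gr lev H n S it.ker := by
  have key : ∀ P : Finset (Finset B), P ⊆ it.W.powerset → LSeg gr lev H n S
      (fun c ω c' ω' => (if tr it.W ω ∈ P then 1 else 0) * it.ker c ω c' ω') := by
    intro P
    induction P using Finset.induction_on with
    | empty => intro _; convert LSeg.nil S using 1; funext c ω c' ω'; simp
    | insert σ P hσ ih =>
      intro hP
      have ih' := ih ((Finset.subset_insert _ _).trans hP)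
      have hs := LSeg.single (gr := gr) (lev := lev) (H := H) (n := n)
        (S := S + fun c ω c' ω' => (if tr it.W ω ∈ P then 1 else 0) * it.ker c ω c' ω')
        (x := atom it σ) (by
          intro c ω
          refine (prof_add_le _ _ _ _ _).trans ?_
          have a1 := hS c ω
          have a2 := it.phi_nonneg n c
          have a3 : prof n (fun c ω c' ω' => (if tr it.W ω ∈ P then 1 else 0) * it.ker c ω c' ω')
              c ω ≤ prof n it.ker c ω := by
            refine Finset.sum_le_sum (fun c' _ => Finset.sum_le_sum (fun ω' _ => ?_))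
            by_cases hh : tr it.W ω' ∈ P <;> simp [hh]
          rw [prof_ker] at a3
          linarith)
        (atom_ok hlev h hmn hW (Finset.mem_powerset.1 (hP (Finset.mem_insert_self _ _))))
      convert ih'.append hs using 1
      funext c ω c' ω'
      simp only [Pi.add_apply, atom_ker, Finset.mem_insert]
      by_cases h1 : tr it.W ω = σ
      · simp [h1, hσ]
      · simp [h1]
  convert key _ (Finset.Subset.refl _) using 1
  funext c ω c' ω'
  have : tr it.W ω ∈ it.W.powerset := Finset.mem_powerset.2 (Finset.filter_subset _ _)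
  rw [if_pos this, one_mul]

omit [DecidableEq κ] in
lemma atomise_list (hlev : ∀ b, lev b ≠ 0 → (gr b).card = lev b) (hn : H.card < n)
    (L : List (Item B κ)) : ∀ S : Ker B, (∀ x ∈ L, WF gr lev H n n x) → Good n S L →
    LSeg gr lev H n S (ksum L) := by
  induction L with
  | nil => intro S _ _; exact LSeg.nil S
  | cons it L ih =>
    intro S hw hG
    have hit := hw it List.mem_cons_self
    rw [ksum_cons]
    exact (atomise hlev hit.1 le_rfl
      (hit.2 ((Finset.card_le_card hit.1.TH).trans_lt hn)) hG.1).append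
      (ih _ (fun x hx => hw x (List.mem_cons_of_mem _ hx)) hG.2)

lemma exists_leaves (hH : ∀ b, gr b ⊆ H) (hlev : ∀ b, lev b ≠ 0 → (gr b).card = lev b)
    (hpool : ∀ T, T ⊆ H → T.Nonempty → (bet gr lev T + 2) ^ 3 ≤ #(pool gr lev T)) :
    ∃ (N : ℕ) (l : Fin N → Leaf B κ), (∀ i, LeafOK gr lev H (H.card + 1) (l i)) ∧
      ∑ i, (l i).ker = py lev (H.card + 1) ∧
      ∀ (m : ℕ) c ω, prof (H.card + 1) (∑ i with i.val < m, (l i).ker) c ω ≤ 14 := by
  obtain ⟨L, h1, h2, h3, -⟩ := inv_all (n := H.card + 1) hH hlev hpool H.card (Nat.lt_succ_self _)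
  obtain ⟨L', g1, g2, g3⟩ := atomise_list hlev (Nat.lt_succ_self _) L 0 h3 h1
  rw [h2] at g2
  have g4 := goodL_take g1 (by
    intro c ω; rw [zero_add, g2]; exact (prof_py c ω).trans (by norm_num))
  refine ⟨L'.length, fun i => L'[i.1], fun i => g3 _ (List.getElem_mem _), ?_, ?_⟩
  · rw [← g2, lsum, Fin.sum_univ_fun_getElem]
  · intro m c ω
    have := g4 m c ω
    rw [zero_add, lsum, List.map_take] at this
    have e : List.ofFn (fun i : Fin L'.length => (L'[i.1]).ker) = List.map Leaf.ker L' := by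
      apply List.ext_getElem <;> simp
    rw [← List.sum_take_ofFn, e]
    exact this

end Pool.Agent.P.MP_d28077_an
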