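import Pool.Agent.P.MP_d28077_an.Defs

set_option autoImplicit false

namespace Pool.Agent.P.MP_d28077_an

open MeasureTheory Set Filter
open scoped ENNReal

namespace Maharam

variable {T : Type}

/-- Hahn decomposition relative to a sub-sigma-algebra -/
theorem hahnC (C : MeasurableSpace T) {m0 : MeasurableSpace T} (hC : C ≤ m0)
    (μ ν : @Measure T m0)
    [IsFiniteMeasure μ] [IsFiniteMeasure ν] :
    ∃ Q, MeasurableSet[C] Q ∧ (∀ B, MeasurableSet[C] B → ν (B ∩ Q) ≤ μ (B ∩ Q)) ∧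
      (∀ B, MeasurableSet[C] B → μ (B \ Q) ≤ ν (B \ Q)) := by
  obtain ⟨Q, hQ, h1, h2⟩ := @hahn_decomposition T C (μ.trim hC) (ν.trim hC) _ _
  refine ⟨Q, hQ, fun B hB => ?_, fun B hB => ?_⟩
  · have := h1 (B ∩ Q) (hB.inter hQ) inter_subset_right
    rwa [trim_measurableSet_eq hC (hB.inter hQ), trim_measurableSet_eq hC (hB.inter hQ)] at this
  · have := h2 (B \ Q) (hB.diff hQ) (fun x hx => hx.2)
    rwa [trim_measurableSet_eq hC (hB.diff hQ), trim_measurableSet_eq hC (hB.diff hQ)] at this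

/-- relative non-atomicity of `ν` over `C` -/
def RelAtomless {m0 : MeasurableSpace T} (ν : @Measure T m0) (C : MeasurableSpace T) : Prop :=
  ∀ F, MeasurableSet[m0] F → ν F ≠ 0 → ¬ @Gen T m0 (ν.restrict F) C

theorem half (C : MeasurableSpace T) {m0 : MeasurableSpace T} (hC : C ≤ m0)
    (ν : @Measure T m0) [IsFiniteMeasure ν]
    (hA : RelAtomless ν C) (F : Set T) (hF : MeasurableSet[m0] F) (h0 : ν F ≠ 0) :
    ∃ F1, MeasurableSet[m0] F1 ∧ F1 ⊆ F ∧ ν F1 ≠ 0 ∧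
      ∀ B, MeasurableSet[C] B → ν (B ∩ F1) ≤ 2⁻¹ * ν (B ∩ F) := by
  have h := hA F hF h0
  unfold Gen at h
  push Not at h
  obtain ⟨M, hM, hMne⟩ := h
  obtain ⟨Q, hQ, h1, h2⟩ := hahnC C hC (ν.restrict (F \ M)) (ν.restrict (F ∩ M))
  have hQ0 : MeasurableSet[m0] Q := hC _ hQ
  refine ⟨F ∩ ((M ∩ Q) ∪ (Mᶜ ∩ Qᶜ)), hF.inter ((hM.inter hQ0).union (hM.compl.inter hQ0.compl)),
    inter_subset_left, ?_, ?_⟩
  · intro hz
    apply hMne Qᶜ hQ.compl
    rw [Filter.eventuallyEq_set, ae_restrict_iff' hF]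
    have : ∀ᵐ x ∂ν, x ∉ F ∩ ((M ∩ Q) ∪ (Mᶜ ∩ Qᶜ)) := measure_eq_zero_iff_ae_notMem.mp hz
    filter_upwards [this] with x hx hxF
    simp only [mem_inter_iff, mem_union, mem_compl_iff] at hx ⊢
    tauto
  · intro B hB
    have hB0 : MeasurableSet[m0] B := hC _ hB
    have a1 := h1 B hB
    have a2 := h2 B hB
    rw [Measure.restrict_apply (hB0.inter hQ0), Measure.restrict_apply (hB0.inter hQ0)] at a1
    rw [Measure.restrict_apply (hB0.diff hQ0), Measure.restrict_apply (hB0.diff hQ0)] at a2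
    have e1 : ν (B ∩ (F ∩ ((M ∩ Q) ∪ (Mᶜ ∩ Qᶜ)))) ≤
        ν (B ∩ Q ∩ (F ∩ M)) + ν ((B \ Q) ∩ (F \ M)) := by
      refine le_trans (measure_mono ?_) (measure_union_le _ _)
      intro x hx
      simp only [mem_inter_iff, mem_union, mem_compl_iff, mem_diff] at hx ⊢
      tauto
    have e2 : ν (B ∩ Q ∩ (F ∩ M)) + ν (B ∩ Q ∩ (F \ M)) = ν (B ∩ Q ∩ F) := by
      rw [← measure_inter_add_diff (B ∩ Q ∩ F) hM, inter_assoc (B ∩ Q), inter_diff_assoc]
    have e3 : ν ((B \ Q) ∩ (F ∩ M)) + ν ((B \ Q) ∩ (F \ M)) = ν ((B \ Q) ∩ F) := by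
      rw [← measure_inter_add_diff ((B \ Q) ∩ F) hM, inter_assoc (B \ Q), inter_diff_assoc]
    have e4 : ν (B ∩ Q ∩ F) + ν ((B \ Q) ∩ F) = ν (B ∩ F) := by
      rw [← measure_inter_add_diff (B ∩ F) hQ0]
      congr 2
      · ext x; simp only [mem_inter_iff]; tauto
      · ext x; simp only [mem_inter_iff, mem_diff]; tauto
    have key : 2 * ν (B ∩ (F ∩ ((M ∩ Q) ∪ (Mᶜ ∩ Qᶜ)))) ≤ ν (B ∩ F) := by
      calc 2 * ν (B ∩ (F ∩ ((M ∩ Q) ∪ (Mᶜ ∩ Qᶜ))))
          ≤ 2 * (ν (B ∩ Q ∩ (F ∩ M)) + ν ((B \ Q) ∩ (F \ M))) := by gcongr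
        _ = (ν (B ∩ Q ∩ (F ∩ M)) + ν (B ∩ Q ∩ (F ∩ M))) +
            (ν ((B \ Q) ∩ (F \ M)) + ν ((B \ Q) ∩ (F \ M))) := by ring
        _ ≤ (ν (B ∩ Q ∩ (F ∩ M)) + ν (B ∩ Q ∩ (F \ M))) +
            (ν ((B \ Q) ∩ (F ∩ M)) + ν ((B \ Q) ∩ (F \ M))) := by gcongr
        _ = ν (B ∩ F) := by rw [e2, e3, e4]
    calc ν (B ∩ (F ∩ ((M ∩ Q) ∪ (Mᶜ ∩ Qᶜ))))
        = 2⁻¹ * (2 * ν (B ∩ (F ∩ ((M ∩ Q) ∪ (Mᶜ ∩ Qᶜ))))) := by
          rw [← mul_assoc, ENNReal.inv_mul_cancel (by norm_num) (by norm_num), one_mul]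
      _ ≤ 2⁻¹ * ν (B ∩ F) := by gcongr

theorem small (C : MeasurableSpace T) {m0 : MeasurableSpace T} (hC : C ≤ m0)
    (ν : @Measure T m0) [IsFiniteMeasure ν]
    (hA : RelAtomless ν C) (F : Set T) (hF : MeasurableSet[m0] F) (h0 : ν F ≠ 0) (n : ℕ) :
    ∃ F1, MeasurableSet[m0] F1 ∧ F1 ⊆ F ∧ ν F1 ≠ 0 ∧
      ∀ B, MeasurableSet[C] B → ν (B ∩ F1) ≤ 2⁻¹ ^ n * ν (B ∩ F) := by
  induction n with
  | zero => exact ⟨F, hF, subset_rfl, h0, fun B _ => by simp⟩
  | succ n ih =>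
    obtain ⟨F1, h1, h2, h3, h4⟩ := ih
    obtain ⟨F2, k1, k2, k3, k4⟩ := half C hC ν hA F1 h1 h3
    refine ⟨F2, k1, k2.trans h2, k3, fun B hB => (k4 B hB).trans ?_⟩
    rw [pow_succ', mul_assoc]
    gcongr
    exact h4 B hB

/-- greedy exhaustion: a family closed under increasing unions has a measure-maximal member -/
theorem exists_maximal {m0 : MeasurableSpace T} (ν : @Measure T m0) [IsFiniteMeasure ν] (P : Set T → Prop)
    (hne : ∃ E, P E) (hU : ∀ f : ℕ → Set T, Monotone f → (∀ n, P (f n)) → P (⋃ n, f n)) :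
    ∃ E, P E ∧ ∀ E', P E' → E ⊆ E' → ν E' ≤ ν E := by
  have step : ∀ (n : ℕ) (E : {E // P E}), ∃ E1 : {E // P E}, E.1 ⊆ E1.1 ∧
      ∀ E', P E' → E.1 ⊆ E' → ν E' ≤ ν E1.1 + 2⁻¹ ^ n := by
    intro n E
    by_contra hcon
    push Not at hcon
    have hall : ∀ k : ℕ, ∃ E1 : {E // P E}, E.1 ⊆ E1.1 ∧ k * 2⁻¹ ^ n ≤ ν E1.1 := by
      intro k
      induction k with
      | zero => exact ⟨E, subset_rfl, by simp⟩
      | succ k ih =>
        obtain ⟨E1, h1, h2⟩ := ih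
        obtain ⟨E', hP, h3, h4⟩ := hcon E1 h1
        refine ⟨⟨E', hP⟩, h3, le_trans ?_ h4.le⟩
        push_cast
        rw [add_mul, one_mul]
        gcongr
    have hpos : (2⁻¹ ^ n : ℝ≥0∞) ≠ 0 := pow_ne_zero _ (by norm_num)
    obtain ⟨k, hk⟩ := ENNReal.exists_nat_mul_gt hpos (measure_ne_top ν univ)
    obtain ⟨E1, -, h2⟩ := hall k
    exact absurd (h2.trans (measure_mono (subset_univ _))) (not_le.mpr hk)
  choose nx hnx1 hnx2 using step
  obtain ⟨E0, hE0⟩ := hne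
  let f : ℕ → {E // P E} := fun n => Nat.rec ⟨E0, hE0⟩ (fun n E => nx n E) n
  have hf : ∀ n, f (n + 1) = nx n (f n) := fun n => rfl
  have hmono : Monotone fun n => (f n).1 :=
    monotone_nat_of_le_succ fun n => by rw [hf]; exact hnx1 n (f n)
  refine ⟨⋃ n, (f n).1, hU _ hmono fun n => (f n).2, fun E' hE' hsub => ?_⟩
  refine ENNReal.le_of_forall_pos_le_add fun ε hε _ => ?_
  obtain ⟨n, hn⟩ := ENNReal.exists_inv_two_pow_lt (a := (ε : ℝ≥0∞)) (by exact_mod_cast hε.ne')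
  calc ν E' ≤ ν (nx n (f n)).1 + 2⁻¹ ^ n :=
        hnx2 n (f n) E' hE' ((subset_iUnion (fun n => (f n).1) n).trans hsub)
    _ ≤ ν (⋃ n, (f n).1) + ε := by
        gcongr
        rw [← hf]
        exact subset_iUnion (fun n => (f n).1) (n + 1)

/-- Maharam's lemma -/
theorem lemmaM (C : MeasurableSpace T) {m0 : MeasurableSpace T} (hC : C ≤ m0)
    (ν lam : @Measure T m0) [IsFiniteMeasure ν]
    [IsFiniteMeasure lam] (hA : RelAtomless ν C) (F : Set T) (hF : MeasurableSet[m0] F)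
    (hle : ∀ B, MeasurableSet[C] B → lam B ≤ ν (B ∩ F)) :
    ∃ E, MeasurableSet[m0] E ∧ E ⊆ F ∧ ∀ B, MeasurableSet[C] B → ν (B ∩ E) = lam B := by
  obtain ⟨E, ⟨hE, hEF, hEl⟩, hmax⟩ := exists_maximal ν
    (fun E => MeasurableSet[m0] E ∧ E ⊆ F ∧ ∀ B, MeasurableSet[C] B → ν (B ∩ E) ≤ lam B)
    ⟨∅, MeasurableSet.empty, empty_subset _, fun B _ => by simp⟩ (by
      intro f hmono hP
      refine ⟨MeasurableSet.iUnion fun n => (hP n).1, iUnion_subset fun n => (hP n).2.1,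
        fun B hB => ?_⟩
      rw [inter_iUnion, Monotone.measure_iUnion]
      · exact iSup_le fun n => (hP n).2.2 B hB
      · intro a b hab
        exact inter_subset_inter_right _ (hmono hab))
  refine ⟨E, hE, hEF, fun B hB => le_antisymm (hEl B hB) ?_⟩
  have hB0 : MeasurableSet[m0] B := hC _ hB
  have main : ∀ n : ℕ, lam B ≤ ν (B ∩ E) + 2⁻¹ ^ n * ν univ := by
    intro n
    have hfin : (2⁻¹ ^ n : ℝ≥0∞) ≠ ⊤ := ENNReal.pow_ne_top (by norm_num)
    haveI : IsFiniteMeasure ((2⁻¹ ^ n : ℝ≥0∞) • ν.restrict (F \ E)) :=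
      ⟨by
        rw [Measure.smul_apply, smul_eq_mul]
        exact ENNReal.mul_lt_top hfin.lt_top (measure_lt_top _ _)⟩
    obtain ⟨Q, hQ, h1, h2⟩ := hahnC C hC lam
      (ν.restrict E + (2⁻¹ ^ n : ℝ≥0∞) • ν.restrict (F \ E))
    have hQ0 : MeasurableSet[m0] Q := hC _ hQ
    have hz : ν (Q ∩ (F \ E)) = 0 := by
      by_contra hne
      obtain ⟨F1, k1, k2, k3, k4⟩ := small C hC ν hA (Q ∩ (F \ E)) (hQ0.inter (hF.diff hE)) hne n
      have hP : ν (E ∪ F1) ≤ ν E := by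
        refine hmax (E ∪ F1) ⟨hE.union k1, union_subset hEF fun x hx => (k2 hx).2.1,
          fun D hD => ?_⟩ subset_union_left
        have hD0 : MeasurableSet[m0] D := hC _ hD
        have a1 := h1 D hD
        rw [Measure.add_apply, Measure.smul_apply, smul_eq_mul,
          Measure.restrict_apply (hD0.inter hQ0), Measure.restrict_apply (hD0.inter hQ0)] at a1
        have a2 := hEl (D \ Q) (hD.diff hQ)
        have a3 := k4 D hD
        have a4 : ν (D ∩ E) = ν (D ∩ Q ∩ E) + ν ((D \ Q) ∩ E) := by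
          rw [← measure_inter_add_diff (D ∩ E) hQ0]
          congr 2
          · ext x; simp only [mem_inter_iff]; tauto
          · ext x; simp only [mem_inter_iff, mem_diff]; tauto
        calc ν (D ∩ (E ∪ F1)) ≤ ν (D ∩ E) + ν (D ∩ F1) := by
              rw [inter_union_distrib_left]; exact measure_union_le _ _
          _ ≤ ν (D ∩ Q ∩ E) + ν ((D \ Q) ∩ E) + 2⁻¹ ^ n * ν (D ∩ (Q ∩ (F \ E))) := by
              rw [a4]; gcongr
          _ = (ν (D ∩ Q ∩ E) + 2⁻¹ ^ n * ν (D ∩ Q ∩ (F \ E))) + ν ((D \ Q) ∩ E) := by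
              rw [inter_assoc D Q (F \ E)]; ring
          _ ≤ lam (D ∩ Q) + lam (D \ Q) := by gcongr
          _ = lam D := measure_inter_add_diff D hQ0
      have hdisj : Disjoint E F1 := disjoint_left.mpr fun x hx hx1 => (k2 hx1).2.2 hx
      rw [measure_union hdisj k1] at hP
      apply k3
      have : ν E + ν F1 ≤ ν E + 0 := by rwa [add_zero]
      exact le_zero_iff.mp ((ENNReal.add_le_add_iff_left (measure_ne_top ν E)).mp this)
    have a1 := h2 B hB
    rw [Measure.add_apply, Measure.smul_apply, smul_eq_mul,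
      Measure.restrict_apply (hB0.diff hQ0), Measure.restrict_apply (hB0.diff hQ0)] at a1
    have a2 : lam (B ∩ Q) ≤ ν (B ∩ Q ∩ E) := by
      refine (hle _ (hB.inter hQ)).trans ?_
      calc ν (B ∩ Q ∩ F) ≤ ν ((B ∩ Q ∩ E) ∪ (Q ∩ (F \ E))) := by
            refine measure_mono fun x hx => ?_
            simp only [mem_inter_iff, mem_union, mem_diff] at hx ⊢
            tauto
        _ ≤ ν (B ∩ Q ∩ E) + ν (Q ∩ (F \ E)) := measure_union_le _ _
        _ = ν (B ∩ Q ∩ E) := by rw [hz, add_zero]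
    have a4 : ν (B ∩ E) = ν (B ∩ Q ∩ E) + ν ((B \ Q) ∩ E) := by
      rw [← measure_inter_add_diff (B ∩ E) hQ0]
      congr 2
      · ext x; simp only [mem_inter_iff]; tauto
      · ext x; simp only [mem_inter_iff, mem_diff]; tauto
    calc lam B = lam (B ∩ Q) + lam (B \ Q) := (measure_inter_add_diff B hQ0).symm
      _ ≤ ν (B ∩ Q ∩ E) + (ν ((B \ Q) ∩ E) + 2⁻¹ ^ n * ν ((B \ Q) ∩ (F \ E))) := by gcongr
      _ ≤ ν (B ∩ Q ∩ E) + (ν ((B \ Q) ∩ E) + 2⁻¹ ^ n * ν univ) := by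
          gcongr; exact subset_univ _
      _ = ν (B ∩ E) + 2⁻¹ ^ n * ν univ := by rw [a4, add_assoc]
  have hlim : Tendsto (fun n : ℕ => ν (B ∩ E) + 2⁻¹ ^ n * ν univ) atTop
      (nhds (ν (B ∩ E) + 0 * ν univ)) := by
    refine tendsto_const_nhds.add (ENNReal.Tendsto.mul_const ?_ (Or.inr (measure_ne_top _ _)))
    exact ENNReal.tendsto_pow_atTop_nhds_zero_of_lt_one (by norm_num)
  rw [zero_mul, add_zero] at hlim
  exact ge_of_tendsto' hlim main

/-- one independent bit which decides `G` on itself -/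
theorem bit (C : MeasurableSpace T) {m0 : MeasurableSpace T} (hC : C ≤ m0)
    (ν : @Measure T m0) [IsFiniteMeasure ν]
    (hA : RelAtomless ν C) (G : Set T) (hG : MeasurableSet[m0] G) :
    ∃ E, MeasurableSet[m0] E ∧ (∀ B, MeasurableSet[C] B → ν (B ∩ E) = 2⁻¹ * ν B) ∧
      ∃ Q, MeasurableSet[C] Q ∧ G ∩ E = Q ∩ E := by
  haveI : IsFiniteMeasure ((2⁻¹ : ℝ≥0∞) • ν) :=
    ⟨by
      rw [Measure.smul_apply, smul_eq_mul]
      exact ENNReal.mul_lt_top (by norm_num) (measure_lt_top _ _)⟩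
  obtain ⟨Q, hQ, h1, h2⟩ := hahnC C hC (ν.restrict G) (ν.restrict Gᶜ)
  have hQ0 : MeasurableSet[m0] Q := hC _ hQ
  obtain ⟨E, hE, hEF, hEl⟩ := lemmaM C hC ν ((2⁻¹ : ℝ≥0∞) • ν) hA ((G ∩ Q) ∪ (Gᶜ ∩ Qᶜ))
    ((hG.inter hQ0).union (hG.compl.inter hQ0.compl)) (by
      intro B hB
      have hB0 : MeasurableSet[m0] B := hC _ hB
      have a1 := h1 B hB
      have a2 := h2 B hB
      rw [Measure.restrict_apply (hB0.inter hQ0), Measure.restrict_apply (hB0.inter hQ0)] at a1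
      rw [Measure.restrict_apply (hB0.diff hQ0), Measure.restrict_apply (hB0.diff hQ0)] at a2
      have e1 : ν (B ∩ ((G ∩ Q) ∪ (Gᶜ ∩ Qᶜ))) = ν (B ∩ Q ∩ G) + ν ((B \ Q) ∩ Gᶜ) := by
        rw [← measure_inter_add_diff (B ∩ ((G ∩ Q) ∪ (Gᶜ ∩ Qᶜ))) hQ0]
        congr 2
        · ext x; simp only [mem_inter_iff, mem_union, mem_compl_iff]; tauto
        · ext x; simp only [mem_inter_iff, mem_union, mem_compl_iff, mem_diff]; tauto
      have e2 : ν (B ∩ Q) = ν (B ∩ Q ∩ G) + ν (B ∩ Q ∩ Gᶜ) := by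
        rw [← measure_inter_add_diff (B ∩ Q) hG, diff_eq]
      have e3 : ν (B \ Q) = ν ((B \ Q) ∩ G) + ν ((B \ Q) ∩ Gᶜ) := by
        rw [← measure_inter_add_diff (B \ Q) hG, diff_eq (B \ Q)]
      have key : ν B ≤ 2 * ν (B ∩ ((G ∩ Q) ∪ (Gᶜ ∩ Qᶜ))) := by
        calc ν B = ν (B ∩ Q) + ν (B \ Q) := (measure_inter_add_diff B hQ0).symm
          _ ≤ (ν (B ∩ Q ∩ G) + ν (B ∩ Q ∩ G)) + (ν ((B \ Q) ∩ Gᶜ) + ν ((B \ Q) ∩ Gᶜ)) := by
              rw [e2, e3]; gcongr
          _ = 2 * ν (B ∩ ((G ∩ Q) ∪ (Gᶜ ∩ Qᶜ))) := by rw [e1]; ring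
      rw [Measure.smul_apply, smul_eq_mul]
      calc 2⁻¹ * ν B ≤ 2⁻¹ * (2 * ν (B ∩ ((G ∩ Q) ∪ (Gᶜ ∩ Qᶜ)))) := by gcongr
        _ = ν (B ∩ ((G ∩ Q) ∪ (Gᶜ ∩ Qᶜ))) := by
          rw [← mul_assoc, ENNReal.inv_mul_cancel (by norm_num) (by norm_num), one_mul])
  refine ⟨E, hE, fun B hB => by rw [hEl B hB, Measure.smul_apply, smul_eq_mul], Q, hQ, ?_⟩
  ext x
  have := @hEF x
  simp only [mem_inter_iff, mem_union, mem_compl_iff] at this ⊢
  tauto

end Maharam

open Maharam in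
theorem maharam_bits {T : Type} [m0 : MeasurableSpace T] (ν : Measure T) [IsFiniteMeasure ν]
    (κ : Cardinal.{0}) (hκ : Cardinal.aleph0 ≤ κ) (h0 : ν ≠ 0)
    (hom : ∀ F, MeasurableSet F → ν F ≠ 0 → mtype (ν.restrict F) = κ) :
    ∃ E : κ.ord.ToType → Set T, (∀ i, MeasurableSet (E i)) ∧
      (∀ (U σ : Finset κ.ord.ToType), σ ⊆ U →
        ν {t | ∀ k ∈ U, (t ∈ E k ↔ k ∈ σ)} = ν Set.univ / 2 ^ U.card) ∧
      Gen ν (MeasurableSpace.generateFrom (Set.range E)) := by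
  classical
  -- generators
  have huniv : ν univ ≠ 0 := by simpa using h0
  have hm := hom univ MeasurableSet.univ huniv
  rw [Measure.restrict_univ] at hm
  have hne : {c | ∃ G : Set (Set T), (∀ B ∈ G, MeasurableSet B) ∧ Cardinal.mk G = c ∧
      Gen ν (MeasurableSpace.generateFrom G)}.Nonempty :=
    ⟨_, {B | MeasurableSet B}, fun _ h => h, rfl, fun B hB =>
      ⟨B, MeasurableSpace.measurableSet_generateFrom (s := {B | MeasurableSet B}) hB,
        EventuallyEq.rfl⟩⟩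
  obtain ⟨G, hGm, hGc, hGg⟩ := csInf_mem hne
  have hGκ : Cardinal.mk G = κ := hGc.trans hm
  have hcard : Cardinal.mk κ.ord.ToType = Cardinal.mk (G × ℕ) := by
    rw [Cardinal.mk_ord_toType, Cardinal.mk_prod, Cardinal.lift_id, Cardinal.lift_id, hGκ,
      Cardinal.mk_nat, Cardinal.mul_aleph0_eq hκ]
  obtain ⟨e⟩ := Cardinal.eq.mp hcard
  -- the step
  have step : ∀ (S : Set (Set T)) (A : G), ∃ E, MeasurableSet E ∧
      ((∀ B ∈ S, MeasurableSet B) → Cardinal.mk S < κ →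
        (∀ B, MeasurableSet[MeasurableSpace.generateFrom S] B → ν (B ∩ E) = 2⁻¹ * ν B) ∧
        ∃ Q, MeasurableSet[MeasurableSpace.generateFrom S] Q ∧ A.1 ∩ E = Q ∩ E) := by
    intro S A
    by_cases h : (∀ B ∈ S, MeasurableSet B) ∧ Cardinal.mk S < κ
    · have hA : RelAtomless ν (MeasurableSpace.generateFrom S) := by
        intro F hF hF0 hgen
        have h1 : mtype (ν.restrict F) ≤ Cardinal.mk S := csInf_le' ⟨S, h.1, rfl, hgen⟩
        rw [hom F hF hF0] at h1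
        exact absurd h.2 (not_lt.mpr h1)
      obtain ⟨E, hE, h1, h2⟩ := bit _ (MeasurableSpace.generateFrom_le h.1) ν hA A.1 (hGm _ A.2)
      exact ⟨E, hE, fun _ _ => ⟨h1, h2⟩⟩
    · exact ⟨∅, MeasurableSet.empty, fun h1 h2 => absurd ⟨h1, h2⟩ h⟩
  choose st hst1 hst2 using step
  let E : κ.ord.ToType → Set T := (wellFounded_lt (α := κ.ord.ToType)).fix
    (fun i rec => st {B | ∃ (j : κ.ord.ToType) (h : j < i), B = rec j h} (e i).1)
  have hE : ∀ i, E i = st (E '' Iio i) (e i).1 := by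
    intro i
    have : E i = st {B | ∃ (j : κ.ord.ToType) (_ : j < i), B = E j} (e i).1 :=
      WellFounded.fix_eq _ _ _
    rw [this]
    congr 1
    ext B
    simp only [mem_ofPred_eq, mem_image, mem_Iio]
    constructor
    · rintro ⟨j, hj, rfl⟩; exact ⟨j, hj, rfl⟩
    · rintro ⟨j, hj, rfl⟩; exact ⟨j, hj, rfl⟩
  have hEm : ∀ i, MeasurableSet (E i) := fun i => by rw [hE]; exact hst1 _ _
  have hprop : ∀ i, (∀ B, MeasurableSet[MeasurableSpace.generateFrom (E '' Iio i)] B →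
      ν (B ∩ E i) = 2⁻¹ * ν B) ∧
      ∃ Q, MeasurableSet[MeasurableSpace.generateFrom (E '' Iio i)] Q ∧
        (e i).1.1 ∩ E i = Q ∩ E i := by
    intro i
    have := hst2 (E '' Iio i) (e i).1 (by rintro _ ⟨j, -, rfl⟩; exact hEm j)
      (Cardinal.mk_image_le.trans_lt (Cardinal.mk_Iio_toType_ord_lt i))
    rwa [← hE] at this
  have hind : ∀ (U σ : Finset κ.ord.ToType),
      ν {t | ∀ k ∈ U, (t ∈ E k ↔ k ∈ σ)} = 2⁻¹ ^ U.card * ν univ := by
    intro U σ
    induction U using Finset.induction_on_max with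
    | empty => simp
    | insert a s hs ih =>
      have has : a ∉ s := fun h => lt_irrefl _ (hs a h)
      have hmeas : MeasurableSet[MeasurableSpace.generateFrom (E '' Iio a)]
          {t | ∀ k ∈ s, (t ∈ E k ↔ k ∈ σ)} := by
        have : {t | ∀ k ∈ s, (t ∈ E k ↔ k ∈ σ)} =
            ⋂ k ∈ s, (if k ∈ σ then E k else (E k)ᶜ) := by
          ext t
          simp only [mem_ofPred_eq, mem_iInter]
          refine forall₂_congr fun k _ => ?_
          split_ifs with h <;> simp [h]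
        rw [this]
        refine Finset.measurableSet_biInter s fun k hk => ?_
        have hk' : MeasurableSet[MeasurableSpace.generateFrom (E '' Iio a)] (E k) :=
          MeasurableSpace.measurableSet_generateFrom ⟨k, hs k hk, rfl⟩
        split_ifs
        · exact hk'
        · exact hk'.compl
      have h1 := (hprop a).1 _ hmeas
      rw [Finset.card_insert_of_notMem has, pow_succ', mul_assoc, ← ih]
      by_cases ha : a ∈ σ
      · rw [← h1]
        congr 1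
        ext t
        simp only [Finset.mem_insert, forall_eq_or_imp, mem_ofPred_eq, mem_inter_iff, ha, iff_true]
        tauto
      · have h2 := measure_inter_add_diff (μ := ν) {t | ∀ k ∈ s, (t ∈ E k ↔ k ∈ σ)} (hEm a)
        have h3 : {t | ∀ k ∈ insert a s, (t ∈ E k ↔ k ∈ σ)} =
            {t | ∀ k ∈ s, (t ∈ E k ↔ k ∈ σ)} \ E a := by
          ext t
          simp only [Finset.mem_insert, forall_eq_or_imp, mem_ofPred_eq, mem_diff, ha, iff_false]
          tauto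
        rw [h3]
        rw [h1] at h2
        set x := ν {t | ∀ k ∈ s, (t ∈ E k ↔ k ∈ σ)} with hx
        have hxt : 2⁻¹ * x ≠ ⊤ := ENNReal.mul_ne_top (by norm_num) (measure_ne_top _ _)
        have h4 : 2⁻¹ * x + 2⁻¹ * x = x := by
          rw [← add_mul, ENNReal.inv_two_add_inv_two, one_mul]
        exact (ENNReal.add_right_inj hxt).mp (h2.trans h4.symm)
  refine ⟨E, hEm, fun U σ _ => ?_, ?_⟩
  · rw [hind, ENNReal.div_eq_inv_mul, ENNReal.inv_pow]
  · have hgen : ∀ A ∈ G, MeasurableSet[eventuallyMeasurableSpace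
        (MeasurableSpace.generateFrom (Set.range E)) (ae ν)] A := by
      intro A hA
      let i : ℕ → κ.ord.ToType := fun n => e.symm (⟨A, hA⟩, n)
      have hi : Function.Injective i := fun a b hab => by
        have := e.symm.injective hab
        exact (Prod.ext_iff.mp this).2
      have hQ : ∀ n, ∃ Q, MeasurableSet[MeasurableSpace.generateFrom (Set.range E)] Q ∧
          A ∩ E (i n) = Q ∩ E (i n) := by
        intro n
        obtain ⟨Q, hQ, h⟩ := (hprop (i n)).2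
        refine ⟨Q, MeasurableSpace.generateFrom_mono (image_subset_range _ _) _ hQ, ?_⟩
        simpa [i] using h
      choose Q hQ1 hQ2 using hQ
      have hnull : ν (⋃ n, E (i n))ᶜ = 0 := by
        have hb : ∀ n : ℕ, ν (⋃ n, E (i n))ᶜ ≤ 2⁻¹ ^ n * ν univ := by
          intro n
          have h := hind ((Finset.range n).image i) ∅
          rw [Finset.card_image_of_injective _ hi, Finset.card_range] at h
          rw [← h]
          refine measure_mono fun t ht => ?_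
          simp only [mem_compl_iff, mem_iUnion, not_exists] at ht
          simp only [Finset.mem_image, mem_ofPred_eq]
          rintro k ⟨m, -, rfl⟩
          simp [ht m]
        have hlim : Tendsto (fun n : ℕ => (2⁻¹ : ℝ≥0∞) ^ n * ν univ) atTop
            (nhds (0 * ν univ)) :=
          ENNReal.Tendsto.mul_const
            (ENNReal.tendsto_pow_atTop_nhds_zero_of_lt_one (by norm_num))
            (Or.inr (measure_ne_top _ _))
        rw [zero_mul] at hlim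
        exact le_zero_iff.mp (ge_of_tendsto' hlim hb)
      refine ⟨⋃ n, Q n ∩ E (i n), MeasurableSet.iUnion fun n => (hQ1 n).inter
        (MeasurableSpace.measurableSet_generateFrom ⟨i n, rfl⟩), ?_⟩
      rw [Filter.eventuallyEq_set]
      have : ∀ᵐ x ∂ν, x ∉ (⋃ n, E (i n))ᶜ := measure_eq_zero_iff_ae_notMem.mp hnull
      filter_upwards [this] with x hx
      simp only [mem_compl_iff, not_not, mem_iUnion] at hx
      obtain ⟨n, hn⟩ := hx
      simp only [mem_iUnion, ← hQ2]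
      exact ⟨fun h => ⟨n, h, hn⟩, fun ⟨_, h, _⟩ => h⟩
    have hle : MeasurableSpace.generateFrom G ≤ eventuallyMeasurableSpace
        (MeasurableSpace.generateFrom (Set.range E)) (ae ν) :=
      MeasurableSpace.generateFrom_le hgen
    intro B hB
    obtain ⟨B', hB', hBB'⟩ := hGg B hB
    obtain ⟨B'', hB'', h⟩ := hle _ hB'
    exact ⟨B'', hB'', hBB'.trans h⟩

end Pool.Agent.P.MP_d28077_an
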