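import Pool.Agent.P.MP_d28077_an.Maharam

set_option autoImplicit false

namespace Pool.Agent.P.MP_d28077_an

open MeasureTheory Set Filter
open scoped ENNReal

namespace Phys

variable {T : Type} [m0 : MeasurableSpace T] {μ : Measure T}

/-- functions vanishing outside `A` -/
def Supp (μ : Measure T) (A : Set T) : Submodule ℝ (Lp ℝ 1 μ) where
  carrier := {y | ∀ᵐ t ∂μ, t ∉ A → y t = 0}
  zero_mem' := by
    filter_upwards [Lp.coeFn_zero ℝ 1 μ] with t ht _ using ht
  add_mem' := by
    intro a b ha hb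
    filter_upwards [ha, hb, Lp.coeFn_add a b] with t h1 h2 h3 h
    rw [h3, Pi.add_apply, h1 h, h2 h, add_zero]
  smul_mem' := by
    intro c a ha
    filter_upwards [ha, Lp.coeFn_smul c a] with t h1 h3 h
    rw [h3, Pi.smul_apply, h1 h, smul_zero]

theorem Supp_mono {A B : Set T} (h : A ⊆ B) : Supp μ A ≤ Supp μ B := by
  intro y hy
  have hy' : ∀ᵐ t ∂μ, t ∉ A → y t = 0 := hy
  show ∀ᵐ t ∂μ, t ∉ B → y t = 0
  filter_upwards [hy'] with t ht hB using ht fun hA => hB (h hA)

theorem norm_add_disj {A B : Set T} (h : Disjoint A B) {y z : Lp ℝ 1 μ} (hy : y ∈ Supp μ A)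
    (hz : z ∈ Supp μ B) : ‖y + z‖ = ‖y‖ + ‖z‖ := by
  have hy' : ∀ᵐ t ∂μ, t ∉ A → y t = 0 := hy
  have hz' : ∀ᵐ t ∂μ, t ∉ B → z t = 0 := hz
  rw [L1.norm_eq_integral_norm, L1.norm_eq_integral_norm, L1.norm_eq_integral_norm,
    ← integral_add (L1.integrable_coeFn y).norm (L1.integrable_coeFn z).norm]
  refine integral_congr_ae ?_
  filter_upwards [hy', hz', Lp.coeFn_add y z] with t h1 h2 h3
  rw [h3, Pi.add_apply]
  by_cases hA : t ∈ A
  · rw [h2 (disjoint_left.mp h hA)]; simp
  · rw [h1 hA]; simp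

theorem norm_sum_disj {Γ : Type} (A : Γ → Set T) (hA : Pairwise (Function.onFun Disjoint A))
    (G : Finset Γ) (y : Γ → Lp ℝ 1 μ) (hy : ∀ γ ∈ G, y γ ∈ Supp μ (A γ)) :
    ‖∑ γ ∈ G, y γ‖ = ∑ γ ∈ G, ‖y γ‖ := by
  classical
  induction G using Finset.induction_on with
  | empty => simp
  | insert a s has ih =>
    rw [Finset.sum_insert has, Finset.sum_insert has,
      ← ih fun γ hγ => hy γ (Finset.mem_insert_of_mem hγ)]
    refine norm_add_disj (A := A a) (B := (A a)ᶜ) disjoint_compl_right
      (hy a (Finset.mem_insert_self _ _)) (Submodule.sum_mem _ fun γ hγ => ?_)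
    refine Supp_mono ?_ (hy γ (Finset.mem_insert_of_mem hγ))
    have hne : γ ≠ a := fun h => has (h ▸ hγ)
    exact (hA hne).subset_compl_right

/-- the indicator of `S` belongs to `W` -/
def InW (W : Submodule ℝ (Lp ℝ 1 μ)) (S : Set T) : Prop :=
  ∃ y ∈ W, (y : T → ℝ) =ᵐ[μ] S.indicator fun _ => (1 : ℝ)

theorem InW.mono {W W' : Submodule ℝ (Lp ℝ 1 μ)} (h : W ≤ W') {S : Set T} (hS : InW W S) :
    InW W' S := by
  obtain ⟨y, hy, h'⟩ := hS
  exact ⟨y, h hy, h'⟩

theorem InW.congr {W : Submodule ℝ (Lp ℝ 1 μ)} {S S' : Set T} (hS : InW W S) (h : S =ᵐ[μ] S') :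
    InW W S' := by
  obtain ⟨y, hy, h'⟩ := hS
  exact ⟨y, hy, h'.trans (indicator_ae_eq_of_ae_eq_set h)⟩

theorem InW.empty (W : Submodule ℝ (Lp ℝ 1 μ)) : InW W ∅ :=
  ⟨0, W.zero_mem, by rw [indicator_empty]; exact Lp.coeFn_zero ℝ 1 μ⟩

theorem InW.union {W : Submodule ℝ (Lp ℝ 1 μ)} {S S' : Set T} (hS : InW W S) (hS' : InW W S')
    (h : Disjoint S S') : InW W (S ∪ S') := by
  obtain ⟨y, hy, h1⟩ := hS
  obtain ⟨z, hz, h2⟩ := hS'
  refine ⟨y + z, W.add_mem hy hz, ?_⟩
  rw [indicator_union_of_disjoint h]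
  filter_upwards [h1, h2, Lp.coeFn_add y z] with t k1 k2 k3
  rw [k3, Pi.add_apply, k1, k2]

theorem InW.diff {W : Submodule ℝ (Lp ℝ 1 μ)} {S S' : Set T} (hS : InW W S) (hS' : InW W S')
    (h : S' ⊆ S) : InW W (S \ S') := by
  obtain ⟨y, hy, h1⟩ := hS
  obtain ⟨z, hz, h2⟩ := hS'
  refine ⟨y - z, W.sub_mem hy hz, ?_⟩
  filter_upwards [h1, h2, Lp.coeFn_sub y z] with t k1 k2 k3
  rw [k3, Pi.sub_apply, k1, k2]
  by_cases h' : t ∈ S'
  · simp [h', h h']
  · by_cases h'' : t ∈ S <;> simp [h', h'']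

theorem InW.iff [IsFiniteMeasure μ] {W : Submodule ℝ (Lp ℝ 1 μ)} {S : Set T}
    (hS : MeasurableSet S) :
    InW W S ↔ indicatorConstLp 1 hS (measure_ne_top μ S) (1 : ℝ) ∈ W := by
  constructor
  · rintro ⟨y, hy, h⟩
    have : indicatorConstLp 1 hS (measure_ne_top μ S) (1 : ℝ) = y :=
      Lp.ext (indicatorConstLp_coeFn.trans h.symm)
    rwa [this]
  · intro h
    exact ⟨_, h, indicatorConstLp_coeFn⟩

theorem InW.iUnion [IsFiniteMeasure μ] {W : Submodule ℝ (Lp ℝ 1 μ)}
    (hW : IsClosed (W : Set (Lp ℝ 1 μ))) (S : ℕ → Set T) (hm : ∀ n, MeasurableSet (S n))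
    (hd : Pairwise (Function.onFun Disjoint S)) (h : ∀ n, InW W (S n)) : InW W (⋃ n, S n) := by
  have hacc : ∀ n, InW W (accumulate S n) := by
    intro n
    induction n with
    | zero => simpa using h 0
    | succ n ih =>
      rw [accumulate_succ]
      refine ih.union (h _) ?_
      exact disjoint_accumulate hd (Nat.lt_succ_self n)
  have hma : ∀ n, MeasurableSet (accumulate S n) := fun n =>
    MeasurableSet.biUnion (to_countable _) fun i _ => hm i
  have hU : MeasurableSet (⋃ n, S n) := MeasurableSet.iUnion hm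
  rw [InW.iff hU]
  have hlim : Tendsto (fun n => μ (symmDiff (accumulate S n) (⋃ n, S n))) atTop (nhds 0) := by
    have e : ∀ n, symmDiff (accumulate S n) (⋃ n, S n) = (⋃ n, S n) \ accumulate S n := fun n =>
      symmDiff_of_le (accumulate_subset_iUnion n)
    simp only [e]
    have h1 := tendsto_measure_iInter_atTop (μ := μ)
      (s := fun n => (⋃ n, S n) \ accumulate S n)
      (fun n => (hU.diff (hma n)).nullMeasurableSet)
      (fun a b hab => diff_subset_diff_right (monotone_accumulate hab))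
      ⟨0, measure_ne_top _ _⟩
    have e2 : (⋂ n, (⋃ n, S n) \ accumulate S n) = ∅ := by
      rw [← diff_iUnion, iUnion_accumulate, diff_self]
    rwa [e2, measure_empty] at h1
  refine hW.mem_of_tendsto (tendsto_indicatorConstLp_set (ht := hma)
    (hμt := fun n => measure_ne_top _ _) ENNReal.one_ne_top hlim) (Eventually.of_forall fun n => ?_)
  exact (InW.iff (hma n)).mp (hacc n)

theorem eq_top_of_InW [IsFiniteMeasure μ] {W : Submodule ℝ (Lp ℝ 1 μ)}
    (hW : IsClosed (W : Set (Lp ℝ 1 μ))) (h : ∀ S, MeasurableSet S → InW W S) : W = ⊤ := by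
  rw [eq_top_iff]
  intro f _
  refine Lp.induction ENNReal.one_ne_top (fun f => f ∈ W) ?_ ?_ hW f
  · intro c s hs hμs
    obtain ⟨y, hy, h1⟩ := h s hs
    have : ((Lp.simpleFunc.indicatorConst 1 hs hμs.ne c : Lp.simpleFunc ℝ 1 μ) : Lp ℝ 1 μ) =
        c • y := by
      rw [Lp.simpleFunc.coe_indicatorConst]
      refine Lp.ext ?_
      filter_upwards [h1, Lp.coeFn_smul c y, indicatorConstLp_coeFn (p := 1) (hs := hs)
        (hμs := hμs.ne) (c := c)] with t k1 k2 k3
      rw [k3, k2, Pi.smul_apply, k1]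
      by_cases ht : t ∈ s <;> simp [ht]
    rw [this]
    exact W.smul_mem c hy
  · intro f g hf hg _ h1 h2
    exact W.add_mem h1 h2

section cube

variable {ι : Type} [DecidableEq ι]

open Classical in
/-- the bits of a point -/
noncomputable def bits (E : ι → Set T) (t : T) : ι → Bool := fun k => decide (t ∈ E k)

omit m0 in
theorem rep (E : ι → Set T) (U : Finset ι) (g : (ι → Bool) → ℝ) (hg : DependsOn g (U : Set ι))
    (t : T) : g (bits E t) = ∑ σ ∈ U.powerset,
      indicator {t | ∀ k ∈ U, (t ∈ E k ↔ k ∈ σ)} (fun _ => g fun k => decide (k ∈ σ)) t := by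
  classical
  rw [Finset.sum_eq_single (U.filter fun k => t ∈ E k)]
  · rw [indicator_of_mem]
    · refine hg fun k hk => ?_
      have hk' : k ∈ U := hk
      simp [bits, hk']
    · intro k hk
      simp [hk]
  · intro σ hσ hne
    refine indicator_of_notMem (fun h => hne ?_) _
    ext k
    rw [Finset.mem_filter]
    exact ⟨fun hk => ⟨Finset.mem_powerset.mp hσ hk,
      (h k (Finset.mem_powerset.mp hσ hk)).mpr hk⟩, fun hk => (h k hk.1).mp hk.2⟩
  · intro h
    exact absurd (Finset.mem_powerset.mpr (Finset.filter_subset _ _)) h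

omit [DecidableEq ι] in
theorem cell_meas (E : ι → Set T) (hE : ∀ i, MeasurableSet (E i)) (U σ : Finset ι) :
    MeasurableSet {t | ∀ k ∈ U, (t ∈ E k ↔ k ∈ σ)} := by
  classical
  have : {t | ∀ k ∈ U, (t ∈ E k ↔ k ∈ σ)} = ⋂ k ∈ U, (if k ∈ σ then E k else (E k)ᶜ) := by
    ext t
    simp only [mem_ofPred_eq, mem_iInter]
    refine forall₂_congr fun k _ => ?_
    split_ifs with h <;> simp [h]
  rw [this]
  refine Finset.measurableSet_biInter U fun k _ => ?_
  split_ifs
  · exact hE k
  · exact (hE k).compl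

theorem bits_integral (ν : Measure T) [IsFiniteMeasure ν] (E : ι → Set T)
    (hE : ∀ i, MeasurableSet (E i))
    (hind : ∀ (U σ : Finset ι), σ ⊆ U →
      ν {t | ∀ k ∈ U, (t ∈ E k ↔ k ∈ σ)} = ν univ / 2 ^ U.card)
    (U : Finset ι) (g : (ι → Bool) → ℝ) (hg : DependsOn g (U : Set ι)) :
    Integrable (fun t => g (bits E t)) ν ∧ ∫ t, g (bits E t) ∂ν = ν.real univ * avg U g := by
  have hi : ∀ σ ∈ U.powerset, Integrable (indicator {t | ∀ k ∈ U, (t ∈ E k ↔ k ∈ σ)}
      (fun _ => g fun k => decide (k ∈ σ))) ν := fun σ _ =>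
    (integrable_const _).indicator (cell_meas E hE U σ)
  simp only [rep E U g hg]
  refine ⟨integrable_finsetSum _ hi, ?_⟩
  rw [integral_finsetSum _ hi, avg, Finset.sum_div, Finset.mul_sum]
  refine Finset.sum_congr rfl fun σ hσ => ?_
  rw [integral_indicator_const _ (cell_meas E hE U σ), smul_eq_mul, measureReal_def,
    hind U σ (Finset.mem_powerset.mp hσ), ENNReal.toReal_div, ENNReal.toReal_pow, measureReal_def]
  simp only [ENNReal.toReal_ofNat]
  ring

theorem cube_map [IsFiniteMeasure μ] (B : Set T) (hB : MeasurableSet B) (h0 : μ B ≠ 0)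
    (E : ι → Set T) (hE : ∀ i, MeasurableSet (E i))
    (hind : ∀ (U σ : Finset ι), σ ⊆ U →
      (μ.restrict B) {t | ∀ k ∈ U, (t ∈ E k ↔ k ∈ σ)} = (μ.restrict B) univ / 2 ^ U.card)
    (hgen : Gen (μ.restrict B) (MeasurableSpace.generateFrom (range E))) :
    ∃ ψ : ((ι → Bool) → ℝ) →ₗ[ℝ] Lp ℝ 1 μ,
      (∀ (U : Finset ι) (f : (ι → Bool) → ℝ), DependsOn f (U : Set ι) →
        ψ f ∈ Supp μ B ∧ ‖ψ f‖ = avg U fun ω => |f ω|) ∧
      ∀ W : Submodule ℝ (Lp ℝ 1 μ), IsClosed (W : Set (Lp ℝ 1 μ)) → (∀ f, Cyl f → ψ f ∈ W) →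
        ∀ S, MeasurableSet S → InW W (S ∩ B) := by
  classical
  have hr : 0 < μ.real B := ENNReal.toReal_pos h0 (measure_ne_top _ _)
  let Φ : ((ι → Bool) → ℝ) →ₗ[ℝ] (T → ℝ) :=
    { toFun := fun f => B.indicator fun t => (μ.real B)⁻¹ * f (bits E t)
      map_add' := fun f g => by
        ext t
        by_cases ht : t ∈ B <;> simp [ht, mul_add]
      map_smul' := fun c f => by
        ext t
        by_cases ht : t ∈ B
        · simp only [indicator_of_mem ht, Pi.smul_apply, smul_eq_mul, RingHom.id_apply]; ring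
        · simp [ht] }
  let M : Submodule ℝ ((ι → Bool) → ℝ) :=
    { carrier := {f | Integrable (Φ f) μ}
      zero_mem' := by
        show Integrable (Φ 0) μ
        rw [map_zero]; exact integrable_zero _ _ _
      add_mem' := fun {f g} hf hg => by
        show Integrable (Φ (f + g)) μ
        rw [map_add]; exact Integrable.add hf hg
      smul_mem' := fun c f hf => by
        show Integrable (Φ (c • f)) μ
        rw [map_smul]; exact Integrable.smul c hf }
  let ψ0 : M →ₗ[ℝ] Lp ℝ 1 μ :=
    { toFun := fun f => Integrable.toL1 (Φ f.1) f.2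
      map_add' := fun f g => by
        rw [← Integrable.toL1_add]
        congr 1
        exact map_add Φ f.1 g.1
      map_smul' := fun c f => by
        rw [RingHom.id_apply, ← Integrable.toL1_smul']
        congr 1
        exact map_smul Φ c f.1 }
  obtain ⟨ψ, hψ⟩ := LinearMap.exists_extend ψ0
  have hcoe : ∀ (U : Finset ι) (f : (ι → Bool) → ℝ), DependsOn f (U : Set ι) →
      (ψ f : T → ℝ) =ᵐ[μ] B.indicator fun t => (μ.real B)⁻¹ * f (bits E t) := by
    intro U f hf
    have hM : f ∈ M := by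
      show Integrable (B.indicator fun t => (μ.real B)⁻¹ * f (bits E t)) μ
      rw [integrable_indicator_iff hB]
      exact (bits_integral (μ.restrict B) E hE hind U f hf).1.const_mul _
    have : ψ f = ψ0 ⟨f, hM⟩ := by rw [← hψ]; rfl
    rw [this]
    exact Integrable.coeFn_toL1 hM
  refine ⟨ψ, fun U f hf => ⟨?_, ?_⟩, fun W hW hcyl => ?_⟩
  · show ∀ᵐ t ∂μ, t ∉ B → ψ f t = 0
    filter_upwards [hcoe U f hf] with t ht hn
    rw [ht, indicator_of_notMem hn]
  · have hf' : DependsOn (fun ω => |f ω|) (U : Set ι) := fun x y h => by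
      show |f x| = |f y|
      rw [hf h]
    have h1 := (bits_integral (μ.restrict B) E hE hind U _ hf').2
    rw [measureReal_restrict_apply_univ] at h1
    rw [L1.norm_eq_integral_norm]
    have : ∫ t, ‖ψ f t‖ ∂μ =
        ∫ t, B.indicator (fun t => (μ.real B)⁻¹ * |f (bits E t)|) t ∂μ := by
      refine integral_congr_ae ?_
      filter_upwards [hcoe U f hf] with t ht
      rw [ht]
      by_cases hn : t ∈ B
      · rw [indicator_of_mem hn, indicator_of_mem hn, Real.norm_eq_abs, abs_mul,
          abs_of_pos (inv_pos.mpr hr)]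
      · rw [indicator_of_notMem hn, indicator_of_notMem hn, norm_zero]
    rw [this, integral_indicator hB, integral_const_mul, h1]
    field_simp
  · have hbasic : ∀ U : Finset ι, InW W ({t | ∀ k ∈ U, t ∈ E k} ∩ B) := by
      intro U
      let f : (ι → Bool) → ℝ := fun ω => if ∀ k ∈ U, ω k = true then μ.real B else 0
      have hf : DependsOn f (U : Set ι) := by
        intro x y h
        have : (∀ k ∈ U, x k = true) ↔ ∀ k ∈ U, y k = true :=
          forall₂_congr fun k hk => by rw [h k hk]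
        simp only [f, this]
      refine ⟨ψ f, hcyl f ⟨U, hf⟩, ?_⟩
      filter_upwards [hcoe U f hf] with t ht
      rw [ht]
      by_cases hn : t ∈ B
      · rw [indicator_of_mem hn]
        by_cases hU : ∀ k ∈ U, t ∈ E k
        · rw [indicator_of_mem (show t ∈ {t | ∀ k ∈ U, t ∈ E k} ∩ B from ⟨hU, hn⟩)]
          have : ∀ k ∈ U, bits E t k = true := fun k hk => by simp [bits, hU k hk]
          simp only [f, if_pos this]
          field_simp
        · rw [indicator_of_notMem (fun h => hU h.1)]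
          have : ¬ ∀ k ∈ U, bits E t k = true := fun h => hU fun k hk => by
            simpa [bits] using h k hk
          simp only [f, if_neg this, mul_zero]
      · rw [indicator_of_notMem hn, indicator_of_notMem (fun h => hn h.2)]
    have hle : MeasurableSpace.generateFrom (range E) ≤ m0 :=
      MeasurableSpace.generateFrom_le (by rintro _ ⟨i, rfl⟩; exact hE i)
    have hpi : IsPiSystem (range fun U : Finset ι => {t | ∀ k ∈ U, t ∈ E k}) := by
      rintro _ ⟨U, rfl⟩ _ ⟨V, rfl⟩ -
      refine ⟨U ∪ V, ?_⟩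
      ext t
      simp only [Finset.mem_union, mem_ofPred_eq, mem_inter_iff, or_imp, forall_and]
    have heq : MeasurableSpace.generateFrom (range E) =
        MeasurableSpace.generateFrom (range fun U : Finset ι => {t | ∀ k ∈ U, t ∈ E k}) := by
      apply le_antisymm
      · refine MeasurableSpace.generateFrom_mono ?_
        rintro _ ⟨i, rfl⟩
        exact ⟨{i}, by ext t; simp⟩
      · refine MeasurableSpace.generateFrom_le ?_
        rintro _ ⟨U, rfl⟩
        have : {t | ∀ k ∈ U, t ∈ E k} = ⋂ k ∈ U, E k := by ext t; simp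
        show MeasurableSet[MeasurableSpace.generateFrom (range E)] {t | ∀ k ∈ U, t ∈ E k}
        rw [this]
        exact Finset.measurableSet_biInter U fun k _ =>
          MeasurableSpace.measurableSet_generateFrom ⟨k, rfl⟩
    have hall : ∀ S, MeasurableSet[MeasurableSpace.generateFrom (range E)] S → InW W (S ∩ B) := by
      intro S hS
      refine MeasurableSpace.induction_on_inter (m := MeasurableSpace.generateFrom (range E))
        (C := fun S _ => InW W (S ∩ B)) heq hpi ?_ ?_ ?_ ?_ S hS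
      · rw [empty_inter]; exact InW.empty W
      · rintro _ ⟨U, rfl⟩; exact hbasic U
      · intro t _ ht
        have h1 : InW W B := by simpa using hbasic ∅
        have := h1.diff ht inter_subset_right
        have e : B \ (t ∩ B) = tᶜ ∩ B := by
          ext x; simp only [mem_diff, mem_inter_iff, mem_compl_iff]; tauto
        rwa [e] at this
      · intro f hd hm h
        rw [iUnion_inter]
        refine InW.iUnion hW _ (fun n => (hle _ (hm n)).inter hB) ?_ h
        exact hd.mono fun a b hab => Disjoint.mono inter_subset_left inter_subset_left hab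
    intro S hS
    obtain ⟨S', hS', h⟩ := hgen S hS
    refine (hall S' hS').congr ?_
    rw [Filter.eventuallyEq_set, ae_restrict_iff' hB] at h
    rw [Filter.eventuallyEq_set]
    filter_upwards [h] with t ht
    simp only [mem_inter_iff]
    tauto

end cube

end Phys

end Pool.Agent.P.MP_d28077_an
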