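import Pool.Agent.P.MP_d28077_an.Items

set_option autoImplicit false

namespace Pool.Agent.P.MP_d28077_an

open Finset

variable {B κ : Type} [Fintype B] [DecidableEq B] [DecidableEq κ]

/-- the prefix `S` leaves enough room for the block `it` -/
def Bd (n : ℕ) (S : Ker B) (it : Item B κ) : Prop :=
  ∀ c ω, prof n S c ω ≤ 14 - 6 * it.phi n c

def Good (n : ℕ) : Ker B → List (Item B κ) → Prop
  | _, [] => True
  | S, it :: L => Bd n S it ∧ Good n (S + it.ker) L

noncomputable def ksum (L : List (Item B κ)) : Ker B := (L.map Item.ker).sum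

def cnt (T : Finset κ) (L : List (Item B κ)) : ℕ := L.countP (fun x => x.T = T)

omit [DecidableEq κ] [DecidableEq B] in
lemma ksum_cons (x : Item B κ) (L : List (Item B κ)) : ksum (x :: L) = x.ker + ksum L := by
  simp [ksum]

omit [DecidableEq κ] [DecidableEq B] in
lemma ksum_append (L L' : List (Item B κ)) : ksum (L ++ L') = ksum L + ksum L' := by
  simp [ksum]

omit [DecidableEq κ] in
lemma good_append {n : ℕ} {L L' : List (Item B κ)} : ∀ {S : Ker B}, Good n S L →
    Good n (S + ksum L) L' → Good n S (L ++ L') := by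
  induction L with
  | nil => intro S _ h; simpa [ksum] using h
  | cons x L ih =>
    intro S h h'
    refine ⟨h.1, ih h.2 ?_⟩
    rwa [ksum_cons, ← add_assoc] at h'

omit [Fintype B] [DecidableEq B] in
lemma cnt_cons (T : Finset κ) (x : Item B κ) (L : List (Item B κ)) :
    cnt T (x :: L) = cnt T L + if x.T = T then 1 else 0 := by
  simp [cnt, List.countP_cons]

/-- a list of blocks with total kernel `M`, good after the prefix `S`, with bounded demand -/
def Seg (gr : B → Finset κ) (lev : B → ℕ) (H : Finset κ) (n m : ℕ) (S M : Ker B)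
    (q : Finset κ → ℕ) : Prop :=
  ∃ L : List (Item B κ), Good n S L ∧ ksum L = M ∧ (∀ x ∈ L, WF gr lev H n (m + 1) x) ∧
    ∀ T, m < T.card → cnt T L ≤ q T

variable {gr : B → Finset κ} {lev : B → ℕ} {H : Finset κ} {n m : ℕ}

lemma Seg.nil (S : Ker B) : Seg gr lev H n m S 0 (fun _ => 0) :=
  ⟨[], trivial, by simp [ksum], by simp, by simp [cnt]⟩

lemma Seg.single {S : Ker B} {x : Item B κ} (h : Bd n S x) (hx : WF gr lev H n (m + 1) x) :
    Seg gr lev H n m S x.ker (fun T => if x.T = T then 1 else 0) :=
  ⟨[x], ⟨h, trivial⟩, by simp [ksum], by simpa using hx, by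
    intro T _; rw [cnt_cons]; simp [cnt]⟩

lemma Seg.append {S M M' : Ker B} {q q' : Finset κ → ℕ} (h : Seg gr lev H n m S M q)
    (h' : Seg gr lev H n m (S + M) M' q') :
    Seg gr lev H n m S (M + M') (fun T => q T + q' T) := by
  obtain ⟨L, h1, h2, h3, h4⟩ := h
  obtain ⟨L', h1', h2', h3', h4'⟩ := h'
  refine ⟨L ++ L', good_append h1 (h2 ▸ h1'), by rw [ksum_append, h2, h2'], ?_, ?_⟩
  · intro x hx
    rcases List.mem_append.1 hx with hx | hx
    · exact h3 x hx
    · exact h3' x hx
  · intro T hT
    have := h4 T hT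
    have := h4' T hT
    simp only [cnt, List.countP_append] at *
    omega

lemma Seg.mono {S S' M M' : Ker B} {q q' : Finset κ → ℕ} (h : Seg gr lev H n m S M q)
    (hS : S = S') (hM : M = M') (hq : ∀ T, m < T.card → q T ≤ q' T) :
    Seg gr lev H n m S' M' q' := by
  obtain ⟨L, h1, h2, h3, h4⟩ := h
  exact ⟨L, hS ▸ h1, hM ▸ h2, h3, fun T hT => (h4 T hT).trans (hq T hT)⟩

/-- number of coordinates of lower level visible at `T` -/
def bet (gr : B → Finset κ) (lev : B → ℕ) (T : Finset κ) : ℕ :=
  #{v : B | gr v ⊆ T ∧ lev v < T.card}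

omit [DecidableEq B] in
lemma card_filter_le_bet {D : Finset B} (hD : ∀ k ∈ D, lev k < m + 1) {T : Finset κ}
    (hT : m < T.card) : #{v ∈ D | gr v ⊆ T} ≤ bet gr lev T := by
  apply Finset.card_le_card
  intro v hv
  rw [Finset.mem_filter] at hv ⊢
  have := hD v hv.1
  exact ⟨Finset.mem_univ _, hv.2, by omega⟩

lemma sweep_aux (hH : ∀ b, gr b ⊆ H) {it : Item B κ} (h : WF0 gr lev H n (m + 1) it)
    (hT : m ≤ it.T.card) {S : Ker B} (hS : ∀ c ω, prof n S c ω ≤ 14 - 7 * it.phi n c)
    {F : Finset B} (hF : F ⊆ it.W) (D : Finset B) (hD : D ⊆ it.W) (hFD : ∀ k ∈ D, k ∉ F)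
    (hfree : ∀ k ∈ D, ¬ gr k ⊆ it.T) :
    Seg gr lev H n m (S + (it.setW F).ker) ((it.setW (F ∪ D)).ker - (it.setW F).ker)
      (fun T => if it.T ⊆ T then #{v ∈ D | gr v ⊆ T} else 0) := by
  induction D using Finset.induction_on with
  | empty => exact (Seg.nil _).mono rfl (by simp) (by simp)
  | insert k D hk ih =>
    have hD' : D ⊆ it.W := (Finset.subset_insert _ _).trans hD
    have ih' := ih hD' (fun j hj => hFD j (Finset.mem_insert_of_mem hj))
      (fun j hj => hfree j (Finset.mem_insert_of_mem hj))
    have hkW : k ∈ it.W := hD (Finset.mem_insert_self _ _)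
    have hkFD : k ∉ F ∪ D := by
      rw [Finset.mem_union]; push Not
      exact ⟨hFD k (Finset.mem_insert_self _ _), hk⟩
    have hw : WF gr lev H n (m + 1) (it.mulr gr k (F ∪ D)) := by
      refine ⟨h.mulr hH (Finset.union_subset hF hD') hkW hkFD, fun hlt => ?_⟩
      exfalso
      have h1 : it.T ⊂ it.T ∪ gr k := by
        refine Finset.ssubset_iff_subset_ne.2 ⟨Finset.subset_union_left, fun he => ?_⟩
        exact hfree k (Finset.mem_insert_self _ _) (he ▸ Finset.subset_union_right)
      have h2 := Finset.card_lt_card h1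
      change (it.T ∪ gr k).card < m + 1 at hlt
      omega
    have hb : Bd n (S + (it.setW F).ker + ((it.setW (F ∪ D)).ker - (it.setW F).ker))
        (it.mulr gr k (F ∪ D)) := by
      intro c ω
      have e : S + (it.setW F).ker + ((it.setW (F ∪ D)).ker - (it.setW F).ker) =
          S + (it.setW (F ∪ D)).ker := by abel
      rw [e]
      have h1 := prof_add_le n S (it.setW (F ∪ D)).ker c ω
      rw [prof_ker] at h1
      have h2 := hS c ω
      change _ ≤ 14 - 6 * it.phi n c
      change _ ≤ _ + it.phi n c at h1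
      linarith
    refine (ih'.append (Seg.single hb hw)).mono rfl ?_ ?_
    · rw [Finset.union_insert, ker_insert gr it hkFD (fun c => h.disj c k hkW)]; abel
    · intro T _
      by_cases hTT : it.T ⊆ T
      · simp only [hTT, if_true, Finset.filter_insert]
        by_cases hkT : gr k ⊆ T
        · rw [if_pos hkT, Finset.card_insert_of_notMem (by simp [hk])]
          split_ifs <;> omega
        · rw [if_neg hkT, if_neg, add_zero]
          intro he
          exact hkT (he ▸ (Finset.subset_union_right : gr k ⊆ it.T ∪ gr k))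
      · simp only [hTT, if_false]
        rw [if_neg]
        intro he
        exact hTT (he ▸ (Finset.subset_union_left : it.T ⊆ it.T ∪ gr k))

lemma usweep (hH : ∀ b, gr b ⊆ H) {it : Item B κ} (h : WF0 gr lev H n (m + 1) it)
    (hT : m ≤ it.T.card) {S : Ker B} (hS : ∀ c ω, prof n S c ω ≤ 14 - 7 * it.phi n c) :
    Seg gr lev H n m S it.ker (fun T => if it.T ⊆ T then bet gr lev T + 1 else 0) := by
  set F := it.W.filter (fun k => gr k ⊆ it.T) with hFdef
  have hF : F ⊆ it.W := Finset.filter_subset _ _
  have h1 : Seg gr lev H n m S (it.setW F).ker (fun T => if (it.setW F).T = T then 1 else 0) := by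
    refine Seg.single (fun c ω => ?_) ⟨h.setW hF, fun _ k hk => (Finset.mem_filter.1 hk).2⟩
    have h2 := hS c ω
    have h3 := it.phi_nonneg n c
    change _ ≤ 14 - 6 * it.phi n c
    linarith
  have h2 := sweep_aux hH h hT hS hF (it.W \ F) Finset.sdiff_subset
    (fun k hk => (Finset.mem_sdiff.1 hk).2)
    (fun k hk hk' => (Finset.mem_sdiff.1 hk).2
      (Finset.mem_filter.2 ⟨(Finset.mem_sdiff.1 hk).1, hk'⟩))
  refine (h1.append h2).mono rfl ?_ ?_
  · rw [Finset.union_sdiff_of_subset hF]
    change _ = (it.setW it.W).ker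
    abel
  · intro T hTm
    have h3 : #{v ∈ it.W \ F | gr v ⊆ T} ≤ bet gr lev T :=
      card_filter_le_bet (fun k hk => h.levW k (Finset.mem_sdiff.1 hk).1) hTm
    by_cases hTT : it.T ⊆ T
    · simp only [hTT, if_true]
      split_ifs <;> omega
    · simp only [hTT, if_false]
      rw [if_neg]
      intro he
      exact hTT (he ▸ Finset.Subset.refl _)

lemma complete (hH : ∀ b, gr b ⊆ H) (hm : m < n) {b : B} (hb : lev b = m) (hbT : (gr b).card = m)
    {S : Ker B} (hS : ∀ c ω, prof n S c ω ≤ if c = m then 2 else 14) {W : Finset B} (hbW : b ∉ W)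
    (hW : ∀ k ∈ W, lev k ≤ m) (D : Finset B) (hbD : b ∉ D) (hD : ∀ k ∈ D, lev k ≤ m)
    (hWD : ∀ k ∈ D, k ∉ W) :
    Seg gr lev H n m (S + (junk m b (gr b) W).ker)
      ((junk m b (gr b) (W ∪ D)).ker - (junk m b (gr b) W).ker)
      (fun T => if gr b ⊆ T then #{v ∈ D | gr v ⊆ T} * (bet gr lev T + 1) else 0) := by
  induction D using Finset.induction_on with
  | empty => exact (Seg.nil _).mono rfl (by simp) (by simp)
  | insert k D hk ih =>
    have ih' := ih (fun h => hbD (Finset.mem_insert_of_mem h))
      (fun j hj => hD j (Finset.mem_insert_of_mem hj))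
      (fun j hj => hWD j (Finset.mem_insert_of_mem hj))
    have hkWD : k ∉ W ∪ D := by
      rw [Finset.mem_union]; push Not
      exact ⟨hWD k (Finset.mem_insert_self _ _), hk⟩
    have hw0 : WF0 gr lev H n (m + 1) (junk m b (gr b) (W ∪ insert k D)) := by
      refine wf0_junk hH hm hb ?_ ?_
      · rw [Finset.mem_union]; push Not; exact ⟨hbW, hbD⟩
      · intro j hj
        rcases Finset.mem_union.1 hj with hj | hj
        · exact hW j hj
        · exact hD j hj
    have hkin : k ∈ (junk m b (gr b) (W ∪ insert k D)).W :=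
      Finset.mem_union_right _ (Finset.mem_insert_self _ _)
    have hw := hw0.mulr hH (W := W ∪ D)
      (Finset.union_subset_union (Finset.Subset.refl _) (Finset.subset_insert _ _)) hkin hkWD
    have h2 := usweep hH hw
      (hbT.symm.le.trans (Finset.card_le_card Finset.subset_union_left))
      (S := S + (junk m b (gr b) W).ker +
        ((junk m b (gr b) (W ∪ D)).ker - (junk m b (gr b) W).ker)) (by
        intro c ω
        have e : S + (junk m b (gr b) W).ker +
            ((junk m b (gr b) (W ∪ D)).ker - (junk m b (gr b) W).ker) =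
            S + (junk m b (gr b) (W ∪ D)).ker := by abel
        rw [e]
        have h1 := prof_add_le n S (junk m b (gr b) (W ∪ D)).ker c ω
        rw [prof_ker, phi_junk hm] at h1
        have h2 := hS c ω
        change _ ≤ 14 - 7 * (junk m b (gr b) (W ∪ insert k D)).phi n c
        rw [phi_junk hm]
        split_ifs at h1 h2 ⊢ <;> linarith)
    refine (ih'.append h2).mono rfl ?_ ?_
    · have := ker_insert gr (junk m b (gr b) (W ∪ insert k D)) hkWD (fun c => hw0.disj c k hkin)
      rw [Finset.union_insert] at this ⊢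
      change (junk m b (gr b) (insert k (W ∪ D))).ker = (junk m b (gr b) (W ∪ D)).ker + _ at this
      rw [this]; abel
    · intro T _
      change _ + (if gr b ∪ gr k ⊆ T then _ else _) ≤ _
      by_cases hTT : gr b ⊆ T
      · simp only [hTT, if_true, Finset.filter_insert, Finset.union_subset_iff, true_and]
        by_cases hkT : gr k ⊆ T
        · rw [if_pos hkT, if_pos hkT, Finset.card_insert_of_notMem (by simp [hk])]
          exact le_of_eq (by ring)
        · rw [if_neg hkT, if_neg hkT, add_zero]
      · simp [hTT, Finset.union_subset_iff]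

/-- coordinates of level below `m` -/
def low (lev : B → ℕ) (m : ℕ) : Finset B := Finset.univ.filter (fun v => lev v < m)

omit [DecidableEq B] in
@[simp] lemma mem_low {v : B} : v ∈ low lev m ↔ lev v < m := by simp [low]

/-- the martingale part in the copy `m` after the junk coordinates in `J` are revealed -/
noncomputable def jk (lev : B → ℕ) (m : ℕ) (J : Finset B) : Ker B := fun c ω c' ω' =>
  if c = m ∧ c' = m then kap (low lev m ∪ J) ω ω' - kap (low lev m) ω ω' else 0

lemma prof_jk (J : Finset B) (c : ℕ) (ω : B → Bool) :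
    prof n (jk lev m J) c ω ≤ if c = m then 2 else 0 := by
  unfold prof jk
  by_cases hc : c = m
  · simp only [hc, and_true, if_true]
    have : ∀ c' ∈ range n, (∑ ω', |if c' = m then
        kap (low lev m ∪ J) ω' ω - kap (low lev m) ω' ω else 0|) ≤
        if c' = m then 2 else 0 := by
      intro c' _
      by_cases h : c' = m
      · simp only [h, if_true]
        calc _ ≤ ∑ ω', (kap (low lev m ∪ J) ω' ω + kap (low lev m) ω' ω) := by
              refine Finset.sum_le_sum (fun ω' _ => ?_)
              have h1 := kap_nonneg (low lev m ∪ J) ω' ω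
              have h2 := kap_nonneg (low lev m) ω' ω
              rw [abs_le]; constructor <;> linarith
          _ = 2 := by rw [Finset.sum_add_distrib, sum_kap, sum_kap]; norm_num
      · simp [h]
    refine (Finset.sum_le_sum this).trans ?_
    rw [Finset.sum_ite_eq' (range n) m]
    split_ifs <;> norm_num
  · simp [hc]

omit [DecidableEq κ] in
lemma jk_insert {J : Finset B} {b : B} (hb : lev b = m) (hbJ : b ∉ J) (T : Finset κ) :
    jk lev m (insert b J) = jk lev m J + (junk m b T (low lev m ∪ J)).ker := by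
  have hn : b ∉ (low lev m ∪ J) := by
    simp [hb, hbJ]
  funext c ω c' ω'
  simp only [jk, Pi.add_apply, Item.ker, junk, Finset.union_insert, kap_insert hn, wal,
    Finset.prod_singleton]
  by_cases h : c = m <;> by_cases h' : c' = m <;> simp [h, h']
  ring

/-- the kernel vanishes on inputs from the copies `≥ m` -/
def Kills (m : ℕ) (S : Ker B) : Prop := ∀ c ω c' ω', m ≤ c' → S c ω c' ω' = 0

omit [DecidableEq B] [DecidableEq κ] in
lemma Kills.add_ker {S : Ker B} (hS : Kills m S) {it : Item B κ} (h : WF0 gr lev H n m it) :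
    Kills m (S + it.ker) := by
  intro c ω c' ω' hc
  simp [hS c ω c' ω' hc, Item.ker, (h.supp c' hc).2]

lemma Kills.prof {S : Ker B} (hS : Kills m S) {c : ℕ} (hc : m ≤ c) (ω : B → Bool) :
    prof n S c ω = 0 := by
  simp [Pool.Agent.P.MP_d28077_an.prof, hS _ _ c ω hc]

omit [Fintype B] [DecidableEq B] [DecidableEq κ] in
lemma WF0.phi_zero {it : Item B κ} (h : WF0 gr lev H n m it) {c : ℕ} (hc : m ≤ c) :
    it.phi n c = 0 := by
  simp [Item.phi, (h.supp c hc).2]

/-- demand created by one junk coordinate -/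
def gam (gr : B → Finset κ) (lev : B → ℕ) (T : Finset κ) : ℕ :=
  (bet gr lev T + 2) * (bet gr lev T + 1)

lemma expand (hH : ∀ b, gr b ⊆ H) (hm : m < n) {it : Item B κ} (h : WF0 gr lev H n m it)
    (hT : it.T.card = m) {S : Ker B} (hS : Bd n S it) (hK : Kills m S) {J : Finset B}
    (hJ : ∀ k ∈ J, lev k = m) {b : B} (hb : lev b = m) (hb' : gr b = it.T) (hbJ : b ∉ J) :
    Seg gr lev H n m (S + jk lev m J) (it.ker + jk lev m (insert b J) - jk lev m J)
      (fun T => if gr b ⊆ T then gam gr lev T else 0) := by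
  have h0 := (h.supp m le_rfl).1
  have h1 := (h.supp m le_rfl).2
  have hp := h.mix hm hT hb hb' (s := 1) (by norm_num)
  have hn := h.mix hm hT hb hb' (s := -1) (by norm_num)
  have hSJ : ∀ c ω, prof n (S + jk lev m J) c ω ≤ if c = m then 2 else 14 - 6 * it.phi n c := by
    intro c ω
    have a1 := prof_add_le n S (jk lev m J) c ω
    have a2 := prof_jk (n := n) (lev := lev) (m := m) J c ω
    have a3 := hS c ω
    by_cases hc : c = m
    · rw [hK.prof hc.ge] at a1
      rw [if_pos hc] at a2 ⊢
      linarith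
    · rw [if_neg hc] at a2 ⊢
      linarith
  have s1 := usweep hH hp hT.symm.le (S := S + jk lev m J) (by
    intro c ω
    have a1 := hSJ c ω
    have a2 := it.phi_nonneg n c
    rw [phi_mix hm it h0 h.nu_ne b (by norm_num)]
    split_ifs at a1 ⊢ <;> linarith)
  have s2 := usweep hH hn hT.symm.le (S := S + jk lev m J + (it.mix n m b 1).ker) (by
    intro c ω
    have a1 := hSJ c ω
    have a2 := it.phi_nonneg n c
    have a3 := prof_add_le n (S + jk lev m J) (it.mix n m b 1).ker c ω
    rw [prof_ker, phi_mix hm it h0 h.nu_ne b (by norm_num)] at a3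
    rw [phi_mix hm it h0 h.nu_ne b (by norm_num)]
    split_ifs at a1 a3 ⊢ <;> linarith)
  have hbW : b ∉ it.W := fun hh => by have := h.levW b hh; omega
  set R : Finset B := low lev m ∪ J with hR
  have hWR : it.W ⊆ R := fun k hk => Finset.mem_union_left _ (by simpa using h.levW k hk)
  have hRl : ∀ k ∈ R, lev k ≤ m := by
    intro k hk
    rcases Finset.mem_union.1 hk with hk | hk
    · exact le_of_lt (by simpa using hk)
    · exact (hJ k hk).le
  have s3 := complete hH hm hb (hb' ▸ hT) (S := S + jk lev m J + it.ker) (by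
      intro c ω
      have a1 := hSJ c ω
      have a2 := it.phi_nonneg n c
      have a3 := prof_add_le n (S + jk lev m J) it.ker c ω
      rw [prof_ker] at a3
      by_cases hc : c = m
      · rw [h.phi_zero hc.ge] at a3
        rw [if_pos hc] at a1 ⊢
        linarith
      · rw [if_neg hc] at a1 ⊢
        linarith) hbW (fun k hk => (h.levW k hk).le) (R \ it.W)
    (by simp [hR, hb, hbJ]) (fun k hk => hRl k (Finset.mem_sdiff.1 hk).1)
    (fun k hk => (Finset.mem_sdiff.1 hk).2)
  have hmix := ker_mix (n := n) it h0 h1 h.nu_ne b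
  rw [Finset.union_sdiff_of_subset hWR] at s3
  have s12 := s1.append s2
  rw [hmix, ← hb'] at s12
  refine (s12.append (s3.mono (by abel) rfl (fun _ _ => le_rfl))).mono rfl ?_ ?_
  · rw [jk_insert hb hbJ (gr b)]; abel
  · intro T hTm
    have h3 : #{v ∈ R \ it.W | gr v ⊆ T} ≤ bet gr lev T :=
      card_filter_le_bet (fun k hk => Nat.lt_succ_of_le (hRl k (Finset.mem_sdiff.1 hk).1)) hTm
    change (if it.T ⊆ T then _ else _) + (if it.T ⊆ T then _ else _) + _ ≤ _
    rw [← hb']
    by_cases hTT : gr b ⊆ T
    · simp only [hTT, if_true, gam]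
      nlinarith
    · simp [hTT]

end Pool.Agent.P.MP_d28077_an
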