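import Pool.Agent.P.MP_d28077_an.Rounds

set_option autoImplicit false

namespace Pool.Agent.P.MP_d28077_an

open Finset

variable {B κ : Type} [Fintype B] [DecidableEq B] [DecidableEq κ]
variable {gr : B → Finset κ} {lev : B → ℕ} {H : Finset κ} {n m : ℕ}

/-- the junk coordinates available for the root `T` -/
def pool (gr : B → Finset κ) (lev : B → ℕ) (T : Finset κ) : Finset B :=
  Finset.univ.filter (fun b => lev b = T.card ∧ gr b = T)

lemma round (hH : ∀ b, gr b ⊆ H) (hm : m < n) (L : List (Item B κ)) :
    ∀ (S : Ker B) (J : Finset B), (∀ x ∈ L, WF gr lev H n m x) → Kills m S → Good n S L →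
      (∀ k ∈ J, lev k = m) → (∀ T, T ⊆ H → T.card = m → cnt T L ≤ #(pool gr lev T \ J)) →
      ∃ J', J ⊆ J' ∧ (∀ k ∈ J', lev k = m) ∧
        Seg gr lev H n m (S + jk lev m J) (ksum L + jk lev m J' - jk lev m J)
          (fun T => cnt T L + gam gr lev T * #{b ∈ J' \ J | gr b ⊆ T}) := by
  induction L with
  | nil =>
    intro S J _ _ _ hJ _
    exact ⟨J, Finset.Subset.refl _, hJ, (Seg.nil _).mono rfl (by simp [ksum]) (by simp)⟩
  | cons it L ih =>
    intro S J hw hK hG hJ hp
    have hit := hw it List.mem_cons_self
    have hw' : ∀ x ∈ L, WF gr lev H n m x := fun x hx => hw x (List.mem_cons_of_mem _ hx)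
    by_cases hT : it.T.card = m
    · have h1 := hp it.T hit.1.TH hT
      rw [cnt_cons, if_pos rfl] at h1
      obtain ⟨b, hb⟩ : (pool gr lev it.T \ J).Nonempty := Finset.card_pos.1 (by omega)
      have hbJ : b ∉ J := (Finset.mem_sdiff.1 hb).2
      have hb1 := (Finset.mem_filter.1 (Finset.mem_sdiff.1 hb).1).2
      have hbm : lev b = m := hb1.1.trans hT
      have s1 := expand hH hm hit.1 hT hG.1 hK hJ hbm hb1.2 hbJ
      obtain ⟨J', hJ1, hJ2, s2⟩ := ih (S + it.ker) (insert b J) hw' (hK.add_ker hit.1) hG.2
        (by
          intro k hk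
          rcases Finset.mem_insert.1 hk with rfl | hk
          · exact hbm
          · exact hJ k hk)
        (by
          intro T hTH hTm
          have h2 := hp T hTH hTm
          rw [cnt_cons] at h2
          rw [Finset.sdiff_insert]
          by_cases he : it.T = T
          · rw [if_pos he] at h2
            rw [Finset.card_erase_of_mem (he ▸ hb)]
            omega
          · rw [if_neg he] at h2
            rw [Finset.erase_eq_of_notMem]
            · omega
            · intro hb2
              have := (Finset.mem_filter.1 (Finset.mem_sdiff.1 hb2).1).2.2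
              exact he (hb1.2.symm.trans this))
      refine ⟨J', (Finset.subset_insert _ _).trans hJ1, hJ2,
        (s1.append (s2.mono (by abel) rfl (fun _ _ => le_rfl))).mono rfl ?_ ?_⟩
      · rw [ksum_cons]; abel
      · intro T _
        have e : J' \ J = insert b (J' \ insert b J) := by
          rw [Finset.sdiff_insert, Finset.insert_erase]
          exact Finset.mem_sdiff.2 ⟨hJ1 (Finset.mem_insert_self _ _), hbJ⟩
        rw [e, Finset.filter_insert, cnt_cons]
        by_cases hbT : gr b ⊆ T
        · rw [if_pos hbT, if_pos hbT, Finset.card_insert_of_notMem (by simp), mul_add]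
          omega
        · rw [if_neg hbT, if_neg hbT]
          omega
    · have s1 : Seg gr lev H n m (S + jk lev m J) it.ker (fun T => if it.T = T then 1 else 0) := by
        refine Seg.single (fun c ω => ?_) ⟨hit.1.succ, fun hlt => hit.2 (by omega)⟩
        have a1 := prof_add_le n S (jk lev m J) c ω
        have a2 := prof_jk (n := n) (lev := lev) (m := m) J c ω
        have a3 := hG.1 c ω
        by_cases hc : c = m
        · rw [hK.prof hc.ge] at a1
          rw [if_pos hc] at a2
          rw [hit.1.phi_zero hc.ge]
          linarith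
        · rw [if_neg hc] at a2
          linarith
      obtain ⟨J', hJ1, hJ2, s2⟩ := ih (S + it.ker) J hw' (hK.add_ker hit.1) hG.2 hJ
        (by
          intro T hTH hTm
          have h2 := hp T hTH hTm
          rw [cnt_cons] at h2
          omega)
      refine ⟨J', hJ1, hJ2,
        (s1.append (s2.mono (by abel) rfl (fun _ _ => le_rfl))).mono rfl ?_ ?_⟩
      · rw [ksum_cons]; abel
      · intro T _
        rw [cnt_cons]
        omega

lemma tail (hH : ∀ b, gr b ⊆ H) (hm : m < n) (hlev : ∀ b, lev b = m → (gr b).card = m)
    {S : Ker B} (hK : Kills m S) (hS : ∀ c ω, prof n S c ω ≤ 14) {J : Finset B}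
    (hJ : ∀ k ∈ J, lev k = m) (D : Finset B) (hD : ∀ k ∈ D, lev k = m) (hJD : ∀ k ∈ D, k ∉ J) :
    Seg gr lev H n m (S + jk lev m J) (jk lev m (J ∪ D) - jk lev m J)
      (fun T => gam gr lev T * #{b ∈ D | gr b ⊆ T}) := by
  induction D using Finset.induction_on with
  | empty => exact (Seg.nil _).mono rfl (by simp) (by simp)
  | insert b D hb ih =>
    have ih' := ih (fun j hj => hD j (Finset.mem_insert_of_mem hj))
      (fun j hj => hJD j (Finset.mem_insert_of_mem hj))
    have hbm := hD b (Finset.mem_insert_self _ _)
    have hbJD : b ∉ J ∪ D := by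
      rw [Finset.mem_union]; push Not
      exact ⟨hJD b (Finset.mem_insert_self _ _), hb⟩
    have hw : WF0 gr lev H n (m + 1) (junk m b (gr b) (low lev m ∪ (J ∪ D))) := by
      refine wf0_junk hH hm hbm ?_ ?_
      · rw [Finset.mem_union]; push Not
        exact ⟨by simp [hbm], hbJD⟩
      · intro k hk
        rcases Finset.mem_union.1 hk with hk | hk
        · exact (mem_low.1 hk).le
        · rcases Finset.mem_union.1 hk with hk | hk
          · exact (hJ k hk).le
          · exact (hD k (Finset.mem_insert_of_mem hk)).le
    have s2 := usweep hH hw (hlev b hbm).symm.le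
      (S := S + jk lev m J + (jk lev m (J ∪ D) - jk lev m J)) (by
        intro c ω
        have e : S + jk lev m J + (jk lev m (J ∪ D) - jk lev m J) = S + jk lev m (J ∪ D) := by abel
        rw [e, phi_junk hm]
        have a1 := prof_add_le n S (jk lev m (J ∪ D)) c ω
        have a2 := prof_jk (n := n) (lev := lev) (m := m) (J ∪ D) c ω
        have a3 := hS c ω
        by_cases hc : c = m
        · rw [hK.prof hc.ge] at a1
          rw [if_pos hc] at a2 ⊢
          linarith
        · rw [if_neg hc] at a2 ⊢
          linarith)
    refine (ih'.append s2).mono rfl ?_ ?_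
    · rw [Finset.union_insert, jk_insert hbm hbJD (gr b)]; abel
    · intro T _
      change _ + (if gr b ⊆ T then _ else _) ≤ _
      rw [Finset.filter_insert]
      by_cases hbT : gr b ⊆ T
      · rw [if_pos hbT, if_pos hbT, Finset.card_insert_of_notMem (by simp [hb]), mul_add, mul_one]
        unfold gam
        nlinarith
      · rw [if_neg hbT, if_neg hbT, add_zero]

/-- the projection onto the part of the model space in the copies `< m` -/
noncomputable def py (lev : B → ℕ) (m : ℕ) : Ker B := fun c ω c' ω' =>
  if c = c' ∧ c < m then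
    kap (low lev (c + 1)) ω ω' - (if c = 0 then 0 else kap (low lev c) ω ω') else 0

omit [DecidableEq B] in
lemma kills_py : Kills m (py lev m) := by
  intro c ω c' ω' hc
  unfold py
  rw [if_neg]
  rintro ⟨rfl, h⟩
  omega

lemma prof_py (c : ℕ) (ω : B → Bool) : prof n (py lev m) c ω ≤ 2 := by
  unfold prof py
  have : ∀ c' ∈ range n, (∑ ω', |if c' = c ∧ c' < m then
      kap (low lev (c' + 1)) ω' ω - (if c' = 0 then 0 else kap (low lev c') ω' ω) else 0|) ≤
      if c' = c then 2 else 0 := by
    intro c' _
    by_cases h : c' = c ∧ c' < m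
    · obtain ⟨rfl, h2⟩ := h
      simp only [h2, and_self, if_true]
      calc _ ≤ ∑ ω', (kap (low lev (c' + 1)) ω' ω + kap (low lev c') ω' ω) := by
            refine Finset.sum_le_sum (fun ω' _ => ?_)
            have h1 := kap_nonneg (low lev (c' + 1)) ω' ω
            have h2 := kap_nonneg (low lev c') ω' ω
            rw [abs_le]; constructor <;> split_ifs <;> linarith
        _ = 2 := by rw [Finset.sum_add_distrib, sum_kap, sum_kap]; norm_num
    · simp only [h, if_false]
      split_ifs <;> simp
  refine (Finset.sum_le_sum this).trans ?_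
  rw [Finset.sum_ite_eq' (range n) c]
  split_ifs <;> norm_num

lemma py_succ (hm : m ≠ 0) :
    py lev (m + 1) = py lev m + jk lev m (Finset.univ.filter (fun b => lev b = m)) := by
  have e : low lev m ∪ Finset.univ.filter (fun b => lev b = m) = low lev (m + 1) := by
    ext v; simp; omega
  funext c ω c' ω'
  simp only [py, jk, Pi.add_apply, e]
  by_cases h : c = c'
  · subst h
    by_cases h1 : c = m
    · subst h1; simp [hm]
    · by_cases h2 : c < m
      · have : c < m + 1 := by omega
        simp [h1, h2, this]
      · have : ¬ c < m + 1 := by omega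
        simp [h1, h2, this]
  · have : ¬ (c = m ∧ c' = m) := fun hh => h (hh.1.trans hh.2.symm)
    simp [h, this]

/-- the first block -/
noncomputable def item0 (lev : B → ℕ) : Item B κ :=
  ⟨fun c => if c = 0 then 1 else 0, fun c => if c = 0 then 1 else 0, fun _ => ∅, low lev 1, ∅⟩

lemma inv_all (hH : ∀ b, gr b ⊆ H) (hlev : ∀ b, lev b ≠ 0 → (gr b).card = lev b)
    (hpool : ∀ T, T ⊆ H → T.Nonempty → (bet gr lev T + 2) ^ 3 ≤ #(pool gr lev T)) (m : ℕ)
    (hm : m < n) :
    Seg gr lev H n m 0 (py lev (m + 1))
      (fun T => gam gr lev T * (1 + #{b ∈ low lev (m + 1) | gr b ⊆ T})) := by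
  induction m with
  | zero =>
    have hnu : (item0 lev : Item B κ).nu n = 1 := by
      unfold Item.nu item0
      rw [Finset.sum_eq_single 0]
      · simp
      · intro c _ hc; simp [hc]
      · intro h; exact absurd (Finset.mem_range.2 hm) h
    have hw : WF0 gr lev H n (0 + 1) (item0 lev) :=
      { supp := fun c hc => by
          have : c ≠ 0 := by omega
          simp [item0, this]
        levW := fun k hk => mem_low.1 hk
        pair := by
          unfold item0
          rw [Finset.sum_eq_single 0]
          · simp
          · intro c _ hc; simp [hc]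
          · intro h; exact absurd (Finset.mem_range.2 hm) h
        size1 := by rw [hnu]; norm_num
        size2 := by rw [hnu]; exact one_le_pow₀ (by norm_num)
        disj := fun c k _ => by simp [item0]
        sub := fun c k hk => by simp [item0] at hk
        cov := fun c _ j hj => by simp [item0] at hj
        levA := fun c _ k hk => by simp [item0] at hk
        levW' := fun c _ k hk => by have := mem_low.1 hk; omega
        wit := fun c hc hc0 => by simp [item0, hc0] at hc
        TH := Finset.empty_subset _ }
    refine (usweep hH hw (Nat.zero_le _) (S := 0) ?_).mono rfl ?_ ?_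
    · intro c ω
      rw [prof_zero, Item.phi, hnu]
      unfold item0
      by_cases hc : c = 0 <;> simp [hc]
      norm_num
    · funext c ω c' ω'
      simp only [Item.ker, item0, py, wal, Finset.prod_empty]
      by_cases h : c = 0
      · by_cases h' : c' = 0
        · simp [h, h']
        · have : ¬ 0 = c' := fun hh => h' hh.symm
          simp [h, h', this]
      · have : ¬ c < 0 + 1 := by omega
        simp [h]
    · intro T _
      unfold gam
      split_ifs
      · calc bet gr lev T + 1 = 1 * (bet gr lev T + 1) * 1 := by ring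
          _ ≤ _ := Nat.mul_le_mul (Nat.mul_le_mul (by omega) le_rfl) (by omega)
      · exact Nat.zero_le _
  | succ m ih =>
    obtain ⟨L, h1, h2, h3, h4⟩ := ih (by omega)
    have hj0 : jk lev (m + 1) (∅ : Finset B) = 0 := by
      funext c ω c' ω'; simp [jk]
    obtain ⟨J, -, hJ, s1⟩ := round hH hm L 0 ∅ h3 (fun _ _ _ _ _ => rfl) h1 (by simp) (by
      intro T hTH hTm
      have a1 := h4 T (by omega)
      have a2 := hpool T hTH (Finset.card_pos.1 (by omega))
      have a3 : #{b ∈ low lev (m + 1) | gr b ⊆ T} ≤ bet gr lev T :=
        card_filter_le_bet (m := m) (fun k hk => mem_low.1 hk) (by omega)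
      rw [Finset.sdiff_empty]
      refine a1.trans (le_trans ?_ a2)
      unfold gam
      calc _ ≤ (bet gr lev T + 2) * (bet gr lev T + 2) * (bet gr lev T + 2) :=
            Nat.mul_le_mul (Nat.mul_le_mul le_rfl (by omega)) (by omega)
        _ = _ := by ring)
    set Lm := Finset.univ.filter (fun b => lev b = m + 1) with hLm
    have hJL : J ⊆ Lm := fun k hk => by simp [hLm, hJ k hk]
    have s2 := tail hH hm (fun b hb => by rw [hlev b (by omega), hb]) (S := py lev (m + 1))
      kills_py (fun c ω => (prof_py c ω).trans (by norm_num)) hJ (Lm \ J)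
      (fun k hk => by simpa [hLm] using (Finset.mem_sdiff.1 hk).1)
      (fun k hk => (Finset.mem_sdiff.1 hk).2)
    rw [Finset.union_sdiff_of_subset hJL] at s2
    rw [hj0, h2] at s1
    refine (s1.append (s2.mono (by abel) rfl (fun _ _ => le_rfl))).mono (by simp) ?_ ?_
    · rw [py_succ (m := m + 1) (by omega)]; abel
    · intro T hT
      have a1 := h4 T (by omega)
      have a2 : #{b ∈ low lev (m + 1) | gr b ⊆ T} + #{b ∈ J \ ∅ | gr b ⊆ T} +
          #{b ∈ Lm \ J | gr b ⊆ T} ≤ #{b ∈ low lev (m + 1 + 1) | gr b ⊆ T} := by
        rw [← Finset.card_union_of_disjoint, ← Finset.card_union_of_disjoint]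
        · apply Finset.card_le_card
          intro v hv
          simp only [Finset.mem_union, Finset.mem_filter, mem_low, Finset.mem_sdiff, hLm,
            Finset.mem_univ, true_and] at hv ⊢
          rcases hv with (hv | hv) | hv
          · exact ⟨by omega, hv.2⟩
          · exact ⟨by have := hJ v hv.1.1; omega, hv.2⟩
          · exact ⟨by omega, hv.2⟩
        · rw [Finset.disjoint_left]
          intro v hv hv'
          simp only [Finset.mem_union, Finset.mem_filter, mem_low, Finset.mem_sdiff, hLm,
            Finset.mem_univ, true_and] at hv hv'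
          rcases hv with hv | hv
          · omega
          · exact hv'.1.2 hv.1.1
        · rw [Finset.disjoint_left]
          intro v hv hv'
          simp only [Finset.mem_filter, mem_low, Finset.mem_sdiff] at hv hv'
          have := hJ v hv'.1.1
          omega
      calc _ ≤ gam gr lev T * (1 + (#{b ∈ low lev (m + 1) | gr b ⊆ T} + #{b ∈ J \ ∅ | gr b ⊆ T} +
            #{b ∈ Lm \ J | gr b ⊆ T})) := by nlinarith
        _ ≤ _ := by gcongr

end Pool.Agent.P.MP_d28077_an
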