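import Pool.Agent.P.MP_d28077_an.Global2
import Pool.Agent.P.MP_d28077_an.Bits
import Pool.Agent.P.MP_d28077_an.Abstract

set_option autoImplicit false

namespace Pool.Agent.P.MP_d28077_an

open Finset

lemma IsCubeSys.norm_eq {κ : Type} [DecidableEq κ] {E : Type} [NormedAddCommGroup E]
    [NormedSpace ℝ E] {Ψ : ℕ → ((κ → Bool) → ℝ) →ₗ[ℝ] E} (h : IsCubeSys Ψ) (J : Finset ℕ)
    (f : ℕ → (κ → Bool) → ℝ) (hf : ∀ j, Cyl (f j)) :
    ‖∑ j ∈ J, Ψ j (f j)‖ = ∑ j ∈ J, mabs (f j) := by
  choose U hU using hf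
  have h1 : ∀ j ∈ J, DependsOn (f j) ((J.sup U : Finset κ) : Set κ) := fun j hj =>
    (hU j).mono (Finset.coe_subset.2 (Finset.le_sup (f := U) hj))
  rw [h J _ f h1]
  exact Finset.sum_congr rfl (fun j hj => (mabs_eq (h1 j hj)).symm)

lemma sum_regroup {M : Type} [AddCommMonoid M] (G : Finset ℕ) (n : ℕ) (h0 : ℕ → M)
    (h1 : ℕ → ℕ → M) (z0 : ∀ γ, γ ∉ G → h0 γ = 0) (z1 : ∀ γ c, γ ∉ G ∨ n ≤ c → h1 γ c = 0) :
    ∑ γ ∈ G, (h0 γ + ∑ c ∈ range n, h1 γ c) =
      ∑ j ∈ G ∪ (G ×ˢ range n).image (fun p => Nat.pair p.1 p.2),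
        (h0 j + h1 j.unpair.1 j.unpair.2) := by
  rw [Finset.sum_add_distrib, Finset.sum_add_distrib]
  congr 1
  · exact Finset.sum_subset Finset.subset_union_left (fun j _ hj => z0 j hj)
  · rw [← Finset.sum_subset (s₁ := (G ×ˢ range n).image (fun p => Nat.pair p.1 p.2))
      Finset.subset_union_right, Finset.sum_image, Finset.sum_product]
    · simp
    · intro p _ q _ he
      exact Prod.ext (Nat.pair_eq_pair.1 he).1 (Nat.pair_eq_pair.1 he).2
    · intro j _ hj
      apply z1
      by_contra hh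
      push Not at hh
      exact hj (Finset.mem_image.2 ⟨j.unpair, Finset.mem_product.2 ⟨hh.1, Finset.mem_range.2 hh.2⟩,
        Nat.pair_unpair j⟩)

lemma inY_single {V : Type} [DecidableEq V] {lev : V → ℕ} (c : ℕ) {g : (V → Bool) → ℝ}
    (h1 : DependsOn g {v | lev v ≤ c}) (h2 : c ≠ 0 → ∃ b, lev b = c ∧ OddIn b g) :
    InY lev (Finsupp.single c g) := by
  refine ⟨fun c' => ?_, fun c' hc' => ?_⟩
  · by_cases h : c' = c
    · subst h; simpa using h1
    · rw [Finsupp.single_eq_of_ne h]; intro _ _ _; rfl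
  · by_cases h : c' = c
    · subst h; right; simpa using h2 hc'
    · left; exact Finsupp.single_eq_of_ne h

lemma cyl_single {V : Type} (c : ℕ) {g : (V → Bool) → ℝ} (h : Cyl g) (c' : ℕ) :
    Cyl (Finsupp.single c g c') := by
  by_cases hc : c' = c
  · subst hc; simpa using h
  · rw [Finsupp.single_eq_of_ne hc]; exact cyl_zero

theorem model {κ : Type} [DecidableEq κ] [Infinite κ] {E : Type} [NormedAddCommGroup E]
    [NormedSpace ℝ E] {Ψ : ℕ → ((κ → Bool) → ℝ) →ₗ[ℝ] E} (hΨ : IsCubeSys Ψ) :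
    ∃ (I : Type) (x : I → E), ERK (fun y : E => ‖y‖) 42 x ∧ (∀ i, x i ≠ 0) ∧
      Submodule.span ℝ (Set.range x) = cubeSpan Ψ := by
  classical
  obtain ⟨V, gr, lev, hfin, hlev, hpool, hcard⟩ := exists_bits κ
  obtain ⟨I, x, hx1, hx2, hx3, hx4⟩ := global_model hfin hlev hpool
  choose θ η ζ ξ hθ hζ hη hη' hξ using exists_maps hcard
  let τ : ℕ → ℕ → (((V → Bool) → ℝ) →ₗ[ℝ] E) := fun ρ c =>
    Nat.casesOn c (Ψ ρ ∘ₗ pull (η ρ.unpair.2)) (fun c => Ψ (Nat.pair ρ c) ∘ₗ pull (θ c))
  let Φ : ℕ → (ℕ →₀ ((V → Bool) → ℝ)) →ₗ[ℝ] E := fun ρ => Finsupp.lsum ℝ (τ ρ)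
  have hΦ : ∀ ρ n (v : ℕ →₀ ((V → Bool) → ℝ)), v.support ⊆ range (n + 1) →
      Φ ρ v = Ψ ρ (pull (η ρ.unpair.2) (v 0)) +
        ∑ c ∈ range n, Ψ (Nat.pair ρ c) (pull (θ c) (v (c + 1))) := by
    intro ρ n v hv
    simp only [Φ, Finsupp.lsum_apply]
    rw [Finsupp.sum_of_support_subset v hv _ (fun _ _ => map_zero _), Finset.sum_range_succ',
      add_comm]
    rfl
  have hsupp : ∀ v : ℕ →₀ ((V → Bool) → ℝ), ∃ n, v.support ⊆ range (n + 1) := fun v =>
    ⟨v.support.sup id, fun c hc => Finset.mem_range.2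
      (Nat.lt_succ_of_le (Finset.le_sup (f := id) hc))⟩
  have hspan : ∀ v ∈ Submodule.span ℝ (Set.range x), ∃ (u : Finset I) (a : I → ℝ),
      ∀ c, v c = ∑ i ∈ u, a i • x i c := by
    intro v hv
    obtain ⟨a, ha⟩ := Finsupp.mem_span_range_iff_exists_finsupp.1 hv
    refine ⟨a.support, a, fun c => ?_⟩
    rw [← ha, Finsupp.sum, Finsupp.finsetSum_apply]
    rfl
  have hcyl : ∀ v ∈ Submodule.span ℝ (Set.range x), ∀ c, Cyl (v c) := by
    intro v hv c
    obtain ⟨u, a, h⟩ := hspan v hv
    rw [h]; exact cyl_sum (fun i _ => ((hx1 i).2 c).smul _)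
  have hdep : ∀ v ∈ Submodule.span ℝ (Set.range x), ∀ c, DependsOn (v c) {w | lev w ≤ c} := by
    intro v hv c
    obtain ⟨u, a, h⟩ := hspan v hv
    rw [h]; exact dep_sum (fun i _ => dep_smul _ ((hx1 i).1.1 c))
  have hm0 : ∀ v ∈ Submodule.span ℝ (Set.range x), ∀ m, mabs (pull (η m) (v 0)) = mabs (v 0) :=
    fun v hv m => mabs_pull (hcyl v hv 0) (hdep v hv 0) (hη m)
  have hm1 : ∀ v ∈ Submodule.span ℝ (Set.range x), ∀ c,
      mabs (pull (θ c) (v (c + 1))) = mabs (v (c + 1)) :=
    fun v hv c => mabs_pull (hcyl v hv _) (hdep v hv _) (hθ c)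
  have hΨ1 : ∀ j f, Cyl f → ‖Ψ j f‖ = mabs f := by
    intro j f hf
    simpa using hΨ.norm_eq {j} (fun _ => f) (fun _ => hf)
  have hup : ∀ ρ, ∀ v ∈ Submodule.span ℝ (Set.range x), ‖Φ ρ v‖ ≤ nrm v := by
    intro ρ v hv
    obtain ⟨n, hn⟩ := hsupp v
    rw [hΦ ρ n v hn, nrm_eq hn, Finset.sum_range_succ', add_comm]
    refine (norm_add_le _ _).trans (add_le_add ((norm_sum_le _ _).trans (le_of_eq ?_))
      (le_of_eq ?_))
    · exact Finset.sum_congr rfl (fun c _ => by rw [hΨ1 _ _ ((hcyl v hv _).pull _), hm1 v hv])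
    · rw [hΨ1 _ _ ((hcyl v hv _).pull _), hm0 v hv]
  have hkey : ∀ v ∈ Submodule.span ℝ (Set.range x), ∀ w ∈ Submodule.span ℝ (Set.range x), ∀ m,
      mabs (v 0) + mabs (w (m + 1)) ≤ 3 * mabs (pull (η m) (v 0) + pull (θ m) (w (m + 1))) := by
    intro v hv w hw m
    have c1 : Cyl (pull (η m) (v 0)) := (hcyl v hv 0).pull _
    have c2 : Cyl (pull (θ m) (w (m + 1))) := (hcyl w hw _).pull _
    have h1 : mabs (pull (η m) (v 0)) ≤ mabs (pull (η m) (v 0) + pull (θ m) (w (m + 1))) := by
      obtain ⟨u, a, h⟩ := hspan w hw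
      rw [h, map_sum]
      refine mabs_le_add (D := θ m '' {v | lev v < m + 1}) c1
        (pull_dep _ (hdep v hv 0) (hη' m)) _ _ (fun i _ => ⟨(((hx1 i).2 _).smul _).pull _, ?_⟩)
      rcases (hx1 i).1.2 (m + 1) (by omega) with h0 | ⟨b, hb, hb'⟩
      · left; rw [h0, smul_zero, map_zero]
      · refine Or.inr ⟨θ m b, ?_, pull_odd (dep_smul _ ((hx1 i).1.1 _)) (hθ m) hb.le ?_⟩
        · rintro ⟨b', hb1, hb2⟩
          have h3 : lev b' < m + 1 := hb1
          have := hθ m h3.le hb.le hb2
          rw [this] at h3; omega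
        · intro ω; simp only [Pi.smul_apply, hb' ω, smul_neg]
    have h2 := mabs_add_le (c1.add c2) (c1.smul (-1))
    rw [mabs_smul c1, neg_one_smul, add_neg_cancel_comm, abs_neg, abs_one, one_mul] at h2
    rw [← hm0 v hv m, ← hm1 w hw m]
    linarith
  have hlow : ∀ (G : Finset ℕ) (v : ℕ → ℕ →₀ ((V → Bool) → ℝ)),
      (∀ γ ∈ G, v γ ∈ Submodule.span ℝ (Set.range x)) →
      ∑ γ ∈ G, nrm (v γ) ≤ 3 * ‖∑ γ ∈ G, Φ γ (v γ)‖ := by
    intro G v hv
    let w : ℕ → ℕ →₀ ((V → Bool) → ℝ) := fun γ => if γ ∈ G then v γ else 0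
    have hw : ∀ γ, w γ ∈ Submodule.span ℝ (Set.range x) := by
      intro γ
      by_cases h : γ ∈ G
      · simp only [w, h, if_true]; exact hv γ h
      · simp only [w, h, if_false]; exact Submodule.zero_mem _
    choose n hn using hsupp
    set N := G.sup (fun γ => n (v γ)) with hN
    have hs : ∀ γ, (w γ).support ⊆ range (N + 1) := by
      intro γ
      by_cases h : γ ∈ G
      · simp only [w, h, if_true]
        exact (hn _).trans (Finset.range_subset_range.2
          (Nat.succ_le_succ (Finset.le_sup (f := fun γ => n (v γ)) h)))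
      · simp [w, h]
    have z0 : ∀ γ, γ ∉ G → w γ 0 = 0 := fun γ h => by simp [w, h]
    have z1 : ∀ γ c, γ ∉ G ∨ N ≤ c → w γ (c + 1) = 0 := by
      rintro γ c (h | h)
      · simp [w, h]
      · by_contra hh
        have := Finset.mem_range.1 (hs γ (Finsupp.mem_support_iff.2 hh))
        omega
    have e1 : ∑ γ ∈ G, nrm (v γ) =
        ∑ γ ∈ G, (mabs (w γ 0) + ∑ c ∈ range N, mabs (w γ (c + 1))) := by
      refine Finset.sum_congr rfl (fun γ hγ => ?_)
      rw [add_comm, ← Finset.sum_range_succ' (fun c => mabs (w γ c)), ← nrm_eq (hs γ)]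
      simp [w, hγ]
    have e2 : ∑ γ ∈ G, Φ γ (v γ) = ∑ γ ∈ G, (Ψ γ (pull (η γ.unpair.2) (w γ 0)) +
        ∑ c ∈ range N, Ψ (Nat.pair γ c) (pull (θ c) (w γ (c + 1)))) := by
      refine Finset.sum_congr rfl (fun γ hγ => ?_)
      rw [← hΦ γ N _ (hs γ)]
      simp [w, hγ]
    rw [e1, e2, sum_regroup G N _ (fun γ c => mabs (w γ (c + 1)))
      (fun γ h => by rw [z0 γ h, mabs_zero]) (fun γ c h => by rw [z1 γ c h, mabs_zero]),
      sum_regroup G N _ (fun γ c => Ψ (Nat.pair γ c) (pull (θ c) (w γ (c + 1))))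
      (fun γ h => by rw [z0 γ h, map_zero, map_zero])
      (fun γ c h => by rw [z1 γ c h, map_zero, map_zero])]
    simp only [Nat.pair_unpair, ← map_add]
    rw [hΨ.norm_eq _ _ (fun j => ((hcyl _ (hw _) _).pull _).add ((hcyl _ (hw _) _).pull _)),
      Finset.mul_sum]
    exact Finset.sum_le_sum (fun j _ => hkey _ (hw _) _ (hw _) _)
  have hmain := erk_sum (Γ := ℕ) (I := fun _ => I) nrm (fun _ => x) Φ (K := 14) (C := 3)
    (by norm_num) hup hlow (fun _ => hx3)
  refine ⟨Σ _ : ℕ, I, fun p => Φ p.1 (x p.2), by convert hmain using 1; norm_num, ?_, ?_⟩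
  · rintro ⟨ρ, i⟩ h0
    have h1 := hlow {ρ} (fun _ => x i) (fun _ _ => Submodule.subset_span ⟨i, rfl⟩)
    simp only [Finset.sum_singleton] at h1 h0
    rw [h0, norm_zero, mul_zero] at h1
    apply hx2 i
    ext c : 1
    by_cases hc : c ∈ (x i).support
    · exact eq_zero_of_mabs ((hx1 i).2 c) (le_trans (Finset.single_le_sum
        (f := fun c => mabs (x i c)) (fun _ _ => mabs_nonneg _) hc) h1)
    · exact Finsupp.notMem_support_iff.1 hc
  · apply le_antisymm
    · rw [Submodule.span_le]
      rintro _ ⟨⟨ρ, i⟩, rfl⟩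
      obtain ⟨n, hn⟩ := hsupp (x i)
      simp only [SetLike.mem_coe]
      rw [hΦ ρ n _ hn]
      exact Submodule.add_mem _ (Submodule.subset_span ⟨_, _, ((hx1 i).2 _).pull _, rfl⟩)
        (Submodule.sum_mem _ (fun c _ => Submodule.subset_span ⟨_, _, ((hx1 i).2 _).pull _, rfl⟩))
    · have hin : ∀ ρ, ∀ v ∈ Submodule.span ℝ (Set.range x), Φ ρ v ∈
          Submodule.span ℝ (Set.range (fun p : (Σ _ : ℕ, I) => Φ p.1 (x p.2))) := by
        intro ρ v hv
        have := Submodule.apply_mem_span_image_of_mem_span (Φ ρ) hv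
        refine Submodule.span_mono ?_ this
        rintro _ ⟨_, ⟨i, rfl⟩, rfl⟩
        exact ⟨⟨ρ, i⟩, rfl⟩
      unfold cubeSpan
      rw [Submodule.span_le]
      rintro _ ⟨j, f, hf, rfl⟩
      set m := j.unpair.2 with hm
      have key : ∀ (D : Finset V), (∀ b ∈ D, lev b = m + 1) → ∀ F : (V → Bool) → ℝ, Cyl F →
          DependsOn F ({v | lev v < m + 1} ∪ D) → Ψ j (pull (θ m) F) ∈
          Submodule.span ℝ (Set.range (fun p : (Σ _ : ℕ, I) => Φ p.1 (x p.2))) := by
        intro D
        induction D using Finset.induction_on with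
        | empty =>
          intro _ F hF hd
          rw [Finset.coe_empty, Set.union_empty] at hd
          have h1 := hin j _ (hx4 (Finsupp.single 0 (pull (ξ m) F))
            (inY_single 0 (pull_dep _ hd (fun v hv => (hξ m v hv).1)) (fun h => absurd rfl h))
            (cyl_single 0 (hF.pull _)))
          simp only [Φ, Finsupp.lsum_single] at h1
          convert h1 using 1
          change _ = Ψ j (pull (η m) (pull (ξ m) F))
          congr 1
          funext ω
          simp only [pull_apply]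
          apply hd
          intro v hv
          rw [(hξ m v hv).2]
        | insert b D hb ih =>
          intro hD F hF hd
          have hbm := hD b (Finset.mem_insert_self _ _)
          have h1 := ih (fun k hk => hD k (Finset.mem_insert_of_mem hk)) (av1 b F) (hF.av1 b) (by
            intro ω ω' he
            have hne : ∀ v, v ∈ ({v | lev v < m + 1} ∪ (insert b D : Finset V) : Set V) → v ≠ b →
                ω v = ω' v := by
              intro v hv hvb
              apply he
              rcases hv with hv | hv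
              · exact Or.inl hv
              · exact Or.inr ((Finset.mem_insert.1 hv).resolve_left hvb)
            simp only [av1, Pi.smul_apply, Pi.add_apply]
            by_cases hbb : ω b = ω' b
            · have h2 : ∀ v ∈ ({v | lev v < m + 1} ∪ (insert b D : Finset V) : Set V),
                  ω v = ω' v := by
                intro v hv
                by_cases hvb : v = b
                · rw [hvb, hbb]
                · exact hne v hv hvb
              have h3 : F (flip b ω) = F (flip b ω') := dep_comp_flip hd b h2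
              rw [hd h2, h3]
            · have h2 : F ω = F (flip b ω') := by
                apply hd
                intro v hv
                by_cases hvb : v = b
                · rw [hvb, flip_self]; revert hbb; cases ω b <;> cases ω' b <;> simp
                · rw [flip_ne hvb]; exact hne v hv hvb
              have h3 : F (flip b ω) = F ω' := by
                apply hd
                intro v hv
                by_cases hvb : v = b
                · rw [hvb, flip_self]; revert hbb; cases ω b <;> cases ω' b <;> simp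
                · rw [flip_ne hvb]; exact hne v hv hvb
              rw [h2, h3, add_comm])
          have hd' : DependsOn F {v | lev v ≤ m + 1} := hd.mono (by
            rintro v (hv | hv)
            · exact le_of_lt (show lev v < m + 1 from hv)
            · exact (hD v hv).le)
          have h2 := hin j.unpair.1 _ (hx4 (Finsupp.single (m + 1) (F + (-1 : ℝ) • av1 b F))
            (inY_single (m + 1) (dep_add hd' (dep_smul _ (dep_smul _
              (dep_add hd' (dep_comp_flip hd' b))))) (fun _ => ⟨b, hbm, fun ω => by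
                simp only [av1, Pi.smul_apply, Pi.add_apply, flip_flip, smul_eq_mul]; ring⟩))
            (cyl_single _ (hF.add ((hF.av1 b).smul _))))
          simp only [Φ, Finsupp.lsum_single] at h2
          change Ψ (Nat.pair j.unpair.1 m) (pull (θ m) _) ∈ _ at h2
          rw [hm, Nat.pair_unpair, ← hm] at h2
          convert Submodule.add_mem _ h1 h2 using 1
          rw [← map_add, ← map_add]
          congr 2
          rw [neg_one_smul]; abel
      obtain ⟨U, hU⟩ := hf
      have h1 := key ((U.image (ζ m)).filter (fun b => lev b = m + 1))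
        (fun b hb => (Finset.mem_filter.1 hb).2) (pull (ζ m) f) (Cyl.pull _ ⟨U, hU⟩)
        (pull_dep _ hU (fun a ha => by
          rcases (hζ m a).2.lt_or_eq with h | h
          · exact Or.inl h
          · exact Or.inr (Finset.mem_filter.2 ⟨Finset.mem_image_of_mem _ ha, h⟩)))
      have e : pull (θ m) (pull (ζ m) f) = f := by
        funext ω
        simp only [pull_apply, (hζ m _).1]
      rw [e] at h1
      exact h1

end Pool.Agent.P.MP_d28077_an
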